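import Pool.Agent.MP_20b2fd_nt.H39.SpecG
import Pool.Agent.MP_20b2fd_nt.H38.SpecX

/-! The two mollifiers of the exceptional case and the sums they lead to.
Paper proof: /team-store/MP_20b2fd_H39_M.md -/

set_option autoImplicit false

namespace Pool.Agent.MP_20b2fd_nt.H39

open MeasureTheory Complex Finset
open Pool.Agent.MP_20b2fd_nt.H38
open Pool.Agent.MP_c5bf7b_nt.H38 (Phi Ch)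
open DirichletCharacter (LFunction)
open scoped Real

/-- equal to one on `[-1, 1 - ε]`, zero outside `(-2, 1)` -/
noncomputable def f1 (ε u : ℝ) : ℝ :=
  Real.smoothTransition ((1 - u) / ε) * Real.smoothTransition (u + 2)

/-! ### the mollifier of the central value -/

noncomputable def Lx (ε : ℝ) (N : ℕ) : ℝ := (1 / 2 - 2 * ε) * Real.log N

noncomputable def Kx (ε : ℝ) (N : ℕ) : ℕ := ⌊(N : ℝ) ^ (1 / 2 - 2 * ε)⌋₊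

open Classical in
noncomputable def wh (h : ℕ → ℝ) (k : ℕ) : ℝ :=
  if Squarefree k ∧ k.Coprime 30 then (k : ℝ) / k.totient * h k else 0

noncomputable def wx (ε : ℝ) (N : ℕ) : ℕ → ℝ := wh fun k => f1 ε (Real.log k / Lx ε N)

noncomputable def JX (ε : ℝ) (N : ℕ) : Finset (ℕ × ℕ) := J0 1 ×ˢ Icc 1 (Kx ε N)

noncomputable def xX (ε : ℝ) (N : ℕ) (i : ℕ × ℕ) : ℝ := Dj 1 i.1 * xw (Kx ε N) (wx ε N) i.2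

noncomputable def AX (N : ℕ) : ℝ := Vr 1 * (Real.log N / 2)

noncomputable def x0 (p : ℕ) (W : ℂ) : ℂ := if p ≤ 5 then 1 + 1 / p else 1 + 2 * W / (p - 1)

noncomputable def x1 (p : ℕ) (W : ℂ) : ℂ := if p ≤ 5 then -1 / p else -W / (p - 1)

/-! ### the short mollifier of the product -/

noncomputable def m0 (p : ℕ) : ℝ := if p ≤ 5 then 1 + 1 / p else 1

noncomputable def m1 (p : ℕ) (c : ℝ) : ℝ := if p ≤ 5 then -1 / p else -(1 + c) / p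

open Classical in
noncomputable def nu {D : ℕ} (χ : Ch D) (z Λ : ℝ) (l : ℕ) : ℝ :=
  if l ∣ ∏ p ∈ pz z, p then
    (∏ p ∈ pz z, if p ∣ l then m1 p (xr χ p) else m0 p) *
      f1 (1 / 2) ((∑ p ∈ l.primeFactors.filter (fun p => 5 < p), Real.log p) / Λ)
  else 0

noncomputable def Mz (Λ : ℝ) : ℕ := ⌊30 * Real.exp Λ⌋₊

open Classical in
noncomputable def n1 (z : ℝ) (p : ℕ) (c W : ℂ) : ℂ :=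
  if p ≤ 5 then -1 / p else if (p : ℝ) ≤ z then -(1 + c) / p * W else 0

noncomputable def e0 (p : ℕ) (c : ℝ) : ℝ := if p ≤ 5 then 1 - c / p else 1 - (1 + c) ^ 2 / p

noncomputable def E0 {D : ℕ} (χ : Ch D) (z : ℝ) : ℝ := ∏ p ∈ pz z, e0 p (xr χ p)

/-- the cutoff and the sizes -/
def F1S : Prop :=
  (∀ ε : ℝ, 0 < ε → ε ≤ 1 → Bp (f1 ε) 2 ∧ ∀ u : ℝ, 0 ≤ f1 ε u ∧ f1 ε u ≤ 1 ∧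
    (-1 ≤ u → u ≤ 1 - ε → f1 ε u = 1) ∧ (1 ≤ u → f1 ε u = 0)) ∧
  (∀ (D : ℕ) (χ : Ch D), χ ^ 2 = 1 → ∀ n : ℕ, ((xr χ n : ℝ) : ℂ) = χ n ∧
    (xr χ n = 0 ∨ xr χ n = 1 ∨ xr χ n = -1)) ∧
  ∃ c : ℝ, 0 < c ∧ ∀ (D : ℕ) (χ : Ch D) (z : ℝ), χ ^ 2 = 1 → 5 ≤ z →
    c / Real.log z ^ 4 ≤ E0 χ z ∧ E0 χ z ≤ 3 ∧ ∀ (Λ : ℝ) (l : ℕ), |nu χ z Λ l| ≤ 3

open Classical in
/-- the long mollifier as a sum over sets of primes -/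
def Fx1S : Prop :=
  ∀ (K : ℕ) (h : ℕ → ℝ) (Y : ℝ) (G : ℕ → ℂ), 5 ≤ Y → (K : ℝ) ≤ Y → (∀ k, K < k → h k = 0) →
    ∑ i ∈ J0 1 ×ˢ Icc 1 K, ((Dj 1 i.1 * xw K (wh h) i.2 : ℝ) : ℂ) * G (nn i) =
      ∑ B ∈ (prs 5 Y).powerset, (h (∏ p ∈ B, p) : ℂ) *
        LF (pz Y) (fun p => if p ≤ 5 then 1 + 1 / p else if p ∈ B then 2 / (p - 1) else 1)
          (fun p => if p ≤ 5 then -1 / p else if p ∈ B then -1 / (p - 1) else 0) G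

def FxS : Prop :=
  ∀ (ε : ℝ) (N : ℕ) (Y : ℝ) (G : ℕ → ℂ), 0 < ε → ε ≤ 1 / 10 → 2 ≤ N → 5 ≤ Y → (N : ℝ) ≤ Y →
    AvI (f1 ε) (-1) (fun ξ => LF (pz Y) (fun p => x0 p (p ^ ex (Lx ε N) (-1) ξ))
      (fun p => x1 p (p ^ ex (Lx ε N) (-1) ξ)) G) ∧
    ∑ i ∈ JX ε N, (xX ε N i : ℂ) * G (nn i) =
      Av (f1 ε) (-1) fun ξ => LF (pz Y) (fun p => x0 p (p ^ ex (Lx ε N) (-1) ξ))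
        (fun p => x1 p (p ^ ex (Lx ε N) (-1) ξ)) G

def FnS : Prop :=
  ∀ (D : ℕ) (χ : Ch D) (z Λ Y : ℝ), χ ^ 2 = 1 → 5 ≤ z → z ≤ Y → 0 < Λ →
    (∀ G : ℕ → ℂ,
      AvI (f1 (1 / 2)) 0 (fun ξ => LF (pz Y) (fun p => m0 p)
        (fun p => n1 z p (χ p) (p ^ ex Λ 0 ξ)) G) ∧
      ∑ l ∈ Icc 1 (Mz Λ), (nu χ z Λ l : ℂ) * G l =
        Av (f1 (1 / 2)) 0 fun ξ => LF (pz Y) (fun p => m0 p)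
          (fun p => n1 z p (χ p) (p ^ ex Λ 0 ξ)) G) ∧
    ∑ l ∈ Icc 1 (Mz Λ), nu χ z Λ l * sig l = 0

/-! ### the first moment -/

def EyS : Prop :=
  ∃ C : ℝ, 1 ≤ C ∧ ∀ (D : ℕ) (χ : Ch D) (z Λ ρ : ℝ) (u : ℂ) (φ : ℕ → ℂ), χ ^ 2 = 1 → 5 ≤ z →
    ρ ≤ 1 → Real.log z ≤ ρ * Λ → ‖u‖ * Real.log z ≤ ρ → Mu φ →
    (∀ p : ℕ, p.Prime → φ p = 1 + χ p * p ^ (-u)) →
    ‖∑ l ∈ Icc 1 (Mz Λ), (nu χ z Λ l : ℂ) * φ l - E0 χ z‖ ≤ C * ρ * E0 χ z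

/-! ### the mixed moment -/

noncomputable def ap1 (p : ℕ) (y₁ y₂ y₃ : ℂ) : ℂ := y₁ + y₂ + y₃ - y₁ * y₂ * y₃ / p

noncomputable def ap2 (p : ℕ) (y₁ y₂ y₃ : ℂ) : ℂ :=
  y₁ ^ 2 + y₂ ^ 2 + y₃ ^ 2 + y₁ * y₂ + y₁ * y₃ + y₂ * y₃ - y₁ * y₂ * y₃ * (y₁ + y₂ + y₃) / p

/-- the functional of three factors -/
def AP {D : ℕ} (χ : Ch D) (a b u : ℂ) (φ : ℕ → ℂ) : Prop :=
  Mu φ ∧ ∀ p : ℕ, p.Prime → φ p = ap1 p (p ^ (-a)) (p ^ (-b)) (χ p * p ^ (-u)) ∧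
    φ (p ^ 2) = ap2 p (p ^ (-a)) (p ^ (-b)) (χ p * p ^ (-u))

/-- the normalised local factor -/
noncomputable def tx (z : ℝ) (p : ℕ) (c W W' y₁ y₂ y₃ : ℂ) : ℂ :=
  lb p (x0 p W) (x1 p W) (m0 p) (n1 z p c W') (ap1 p y₁ y₂ (c * y₃)) (ap2 p y₁ y₂ (c * y₃)) *
    (1 - W / p) ^ 2 / ((1 - W * y₁ / p) * (1 - W * y₂ / p) * (1 - c * W * y₃ / p))

def LxS : Prop :=
  ∃ K : ℝ, 1 ≤ K ∧ ∀ (z c : ℝ) (p : ℕ) (W W' y₁ y₂ y₃ : ℂ), p.Prime → 5 ≤ z →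
    (c = 0 ∨ c = 1 ∨ c = -1) → ‖W‖ ≤ 1 → ‖W * y₁‖ ≤ 1 → ‖W * y₂‖ ≤ 1 → ‖W * y₃‖ ≤ 1 →
    ((p : ℝ) ≤ z → ‖W'‖ ≤ 1 → ‖y₁‖ ≤ 3 → ‖y₂‖ ≤ 3 → ‖y₃‖ ≤ 3 →
      ‖tx z p c W W' y₁ y₂ y₃ - ((if p ≤ 5 then 1 - 1 / (p : ℝ) else 1) * e0 p c : ℝ)‖ ≤
        K * ((‖W - 1‖ + ‖W' - 1‖ + ‖y₁ - 1‖ + ‖y₂ - 1‖ + ‖y₃ - 1‖) / p) *
          ((if p ≤ 5 then 1 - 1 / (p : ℝ) else 1) * e0 p c)) ∧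
    (z < p → ‖W * y₁ * y₂ * y₃‖ ≤ 1 → ‖tx z p c W W' y₁ y₂ y₃ - 1‖ ≤ K / (p : ℝ) ^ 2)

/-- the function of the character near one; `F` is the size of its derivative -/
def LOk {D : ℕ} [NeZero D] (χ : Ch D) (β z c C F : ℝ) : Prop :=
  0 < F ∧ (∀ s : ℂ, ‖s - 1‖ * Real.log z ≤ c →
    ‖LFunction χ s - (s - β) * F‖ ≤ C * (‖s - 1‖ * Real.log z) * ‖s - β‖ * F) ∧
    F * ‖ez χ z 1‖ ≤ C * Real.log z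

def ZtS : Prop :=
  ∃ C : ℝ, 1 ≤ C ∧ ∀ s : ℂ, s ≠ 0 → ‖s‖ ≤ 1 / 2 →
    ‖s * LFunction (1 : Ch 1) (1 + s) - 1‖ ≤ C * ‖s‖

/-- the rational function that is left -/
noncomputable def rj (s a b α : ℂ) : ℂ := (s + a) * (s + b) / (s ^ 2 * (s + α))

def RzS : Prop :=
  ∀ c C : ℝ, 0 < c → c ≤ 1 → 1 ≤ C → ∃ (C' : ℝ) (A : ℕ), 1 ≤ C' ∧ ∀ L ρ : ℝ, 1 ≤ L → 0 < ρ →
    ρ ≤ 1 / 10 → ∃ Y₀ : ℝ, ∀ (Y : ℝ) (D : ℕ) [NeZero D] (χ : Ch D) (β z F : ℝ) (s a b u : ℂ), Y₀ ≤ Y →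
    LOk χ β z c C F → β ≤ 1 → 5 ≤ z → z ≤ Y → Real.log z ≤ ρ * L → 2 ≤ s.re * L → s.re * L ≤ 4 →
    ‖a‖ * L ≤ 1 / 2 → ‖b‖ * L ≤ 1 / 2 → ‖u‖ * L ≤ 1 / 2 →
    ‖rj s a b (u + (1 - β))‖ ≤ 2 * L ∧
    ‖ez (1 : Ch 1) Y (1 + s + a) * ez (1 : Ch 1) Y (1 + s + b) * ez χ Y (1 + s + u) /
        ez (1 : Ch 1) Y (1 + s) ^ 2 - rj s a b (u + (1 - β)) / F‖ ≤
      C' * ρ * (1 + ‖s‖ * L) ^ A * (L / F)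

def XpS : Prop :=
  ∀ c C : ℝ, 0 < c → c ≤ 1 → 1 ≤ C → ∃ (C' : ℝ) (A : ℕ), 1 ≤ C' ∧ ∀ L ρ : ℝ, 1 ≤ L → 0 < ρ →
    ρ ≤ 1 / 10 → ∃ Y₀ : ℝ, ∀ (Y : ℝ) (D : ℕ) [NeZero D] (χ : Ch D) (β z F Λ ξ : ℝ) (s a b u : ℂ)
    (φ : ℕ → ℂ), Y₀ ≤ Y → χ ^ 2 = 1 → LOk χ β z c C F → β ≤ 1 → 5 ≤ z → z ≤ Y → 1 ≤ ρ * z →
    Real.log z ≤ ρ * Λ → Λ ≤ L → 2 ≤ s.re * L → s.re * L ≤ 4 →
    ‖a‖ * L ≤ 1 / 2 → ‖b‖ * L ≤ 1 / 2 → ‖u‖ * L ≤ 1 / 2 → AP χ a b u φ →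
    ‖∏ p ∈ pz Y, lb p (x0 p (p ^ (-s))) (x1 p (p ^ (-s))) (m0 p) (n1 z p (χ p) (p ^ ex Λ 0 ξ))
        (φ p) (φ (p ^ 2)) - E0 χ z * Vr 1 / F * rj s a b (u + (1 - β))‖ ≤
      C' * ρ * (1 + ‖s‖ * L) ^ A * (1 + |ξ|) ^ A * (L * E0 χ z / F)

/-- the main term of the mixed moment -/
noncomputable def JM (ε : ℝ) (N : ℕ) (a b α : ℂ) : ℂ :=
  Av (f1 ε) (-1) fun ξ => rj (-ex (Lx ε N) (-1) ξ) a b α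

def XyS : Prop :=
  ∀ c C ε : ℝ, 0 < c → c ≤ 1 → 1 ≤ C → 0 < ε → ε ≤ 1 / 10 → ∃ C' : ℝ, 1 ≤ C' ∧
    ∀ (N D : ℕ) [NeZero D] (χ : Ch D) (β z F Λ ρ : ℝ) (a b u : ℂ) (φ : ℕ → ℂ), 3 ≤ N →
    χ ^ 2 = 1 → LOk χ β z c C F → β ≤ 1 → 5 ≤ z → 0 < ρ → ρ ≤ 1 / 10 → 1 ≤ ρ * z →
    Real.log z ≤ ρ * Λ → Λ ≤ Real.log N → ‖a‖ * Real.log N ≤ 1 / 2 → ‖b‖ * Real.log N ≤ 1 / 2 →
    ‖u‖ * Real.log N ≤ 1 / 2 → AP χ a b u φ →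
    ‖∑ i ∈ JX ε N, ∑ l ∈ Icc 1 (Mz Λ), (xX ε N i : ℂ) * nu χ z Λ l * Bh φ (nn i) l -
        E0 χ z * Vr 1 / F * JM ε N a b (u + (1 - β))‖ ≤ C' * ρ * (Real.log N * E0 χ z / F)

/-! ### the second moment -/

def LyS : Prop :=
  ∀ K₀ : ℝ, 1 ≤ K₀ → ∃ K : ℝ, 1 ≤ K ∧ ∀ (z c : ℝ) (p : ℕ) (W W' y₁ y₂ y₃ y₄ f₁ f₂ : ℂ), p.Prime →
    (p : ℝ) ≤ z → (c = 0 ∨ c = 1 ∨ c = -1) → ‖W‖ ≤ 1 → ‖W'‖ ≤ 1 → ‖y₁‖ ≤ 3 → ‖y₂‖ ≤ 3 →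
    ‖y₃‖ ≤ 3 → ‖y₄‖ ≤ 3 → ‖f₁ - (y₁ + y₂ + c * y₃ + c * y₄)‖ ≤ K₀ / p → ‖f₂‖ ≤ K₀ →
    ‖lb p (m0 p) (n1 z p c W) (m0 p) (n1 z p c W') f₁ f₂‖ * (if c = 0 then 1 - 1 / (p : ℝ) else 1) ≤
      ((1 - 1 / p) * (1 - c / p) * e0 p c) ^ 2 * Real.exp (K / (p : ℝ) ^ 2 +
        K * ((‖W - 1‖ + ‖W' - 1‖ + ‖y₁ - 1‖ + ‖y₂ - 1‖ + ‖y₃ - 1‖ + ‖y₄ - 1‖) / p))

def YyS : Prop :=
  ∀ c C K₀ : ℝ, 1 ≤ C → 1 ≤ K₀ → ∃ C' : ℝ, 1 ≤ C' ∧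
    ∀ (D : ℕ) [NeZero D] (χ : Ch D) (β z F Λ : ℝ) (a b u v : ℂ) (φ : ℕ → ℂ), χ ^ 2 = 1 →
    LOk χ β z c C F → 5 ≤ z → (D : ℝ) ≤ z → Real.log z ≤ Λ → ‖a‖ * Real.log z ≤ 1 →
    ‖b‖ * Real.log z ≤ 1 → ‖u‖ * Real.log z ≤ 1 → ‖v‖ * Real.log z ≤ 1 → Mu φ →
    (∀ p : ℕ, p.Prime → (p : ℝ) ≤ z →
      ‖φ p - (p ^ (-a) + p ^ (-b) + χ p * p ^ (-u) + χ p * p ^ (-v))‖ ≤ K₀ / p ∧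
      ‖φ (p ^ 2)‖ ≤ K₀) →
    F ^ 2 * (D.totient / D) *
      ‖∑ k ∈ Icc 1 (Mz Λ), ∑ l ∈ Icc 1 (Mz Λ), (nu χ z Λ k : ℂ) * nu χ z Λ l * Bh φ k l‖ ≤
      C' * E0 χ z ^ 2

/-- the long mollifier has the properties the final inequality needs -/
def XkS : Prop :=
  ∀ η E : ℝ, 0 < η → ∃ ε₀ : ℝ, 0 < ε₀ ∧ ∀ ε : ℝ, 0 < ε → ε ≤ ε₀ → ∃ N₀ : ℕ, ∀ N : ℕ, N₀ ≤ N →
    1 ≤ AX N ∧ AX N ≤ Real.log N ∧ XOk (JX ε N) nn (xX ε N) N ε η (AX N) E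

/-! ### rows -/

def F1Of : Prop := MerS → F1S
def FxOf : Prop := AvS → F1S → Fx1S → FxS
def FnOf : Prop := BmS → AvS → F1S → FnS
def EyOf : Prop := BmS → AvS → EzS → F1S → FnS → EyS
def RzOf : Prop := MerS → EzS → RoS → ZtS → RzS
def XpOf : Prop := EzS → RoS → F1S → LxS → RzS → XpS
def XyOf : Prop := BmS → AvS → F1S → FxS → FnS → RzS → XpS → XyS
def YyOf : Prop := MerS → BmS → AvS → EzS → F1S → FnS → LyS → YyS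
def XkOf : Prop := MerS → DlS → M1S → CfS → M2S → F1S → XkS

end Pool.Agent.MP_20b2fd_nt.H39
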