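import Pool.Agent.MP_20b2fd_nt.H39.SpecG

/-! Row Av: averages against the transform of a bump function. -/

set_option autoImplicit false

namespace Pool.Agent.MP_20b2fd_nt.H39

open MeasureTheory Complex Finset
open Pool.Agent.MP_20b2fd_nt.H38
open scoped Real

namespace AvA

lemma lin (f : ℝ → ℝ) (b : ℝ) (H H' : ℝ → ℂ) (c : ℂ) (h : AvI f b H) (h' : AvI f b H') :
    AvI f b (fun ξ => H ξ + H' ξ) ∧ Av f b (fun ξ => H ξ + H' ξ) = Av f b H + Av f b H' ∧
      AvI f b (fun ξ => H ξ - H' ξ) ∧ Av f b (fun ξ => H ξ - H' ξ) = Av f b H - Av f b H' ∧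
      AvI f b (fun ξ => c * H ξ) ∧ Av f b (fun ξ => c * H ξ) = c * Av f b H := by
  unfold AvI at h h' ⊢
  unfold Av
  refine ⟨?_, ?_, ?_, ?_, ?_, ?_⟩
  · simp only [mul_add]
    exact h.add h'
  · simp only [mul_add]
    rw [integral_add h h', mul_add]
  · simp only [mul_sub]
    exact h.sub h'
  · simp only [mul_sub]
    rw [integral_sub h h', mul_sub]
  · have e : (fun ξ : ℝ => lap f (b + ξ * I) * (c * H ξ)) =
        fun ξ : ℝ => c * (lap f (b + ξ * I) * H ξ) := by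
      funext ξ; ring
    rw [e]; exact h.const_mul c
  · have e : (fun ξ : ℝ => lap f (b + ξ * I) * (c * H ξ)) =
        fun ξ : ℝ => c * (lap f (b + ξ * I) * H ξ) := by
      funext ξ; ring
    rw [e, integral_const_mul]; ring

lemma sums (f : ℝ → ℝ) (b : ℝ)
    (h3 : ∀ u : ℝ, (Integrable fun ξ : ℝ => lap f (b + ξ * I) * exp ((b + ξ * I) * u)) ∧
      (f u : ℂ) = 1 / (2 * π) * ∫ ξ : ℝ, lap f (b + ξ * I) * exp ((b + ξ * I) * u))
    (ι : Type) (J : Finset ι) (c : ι → ℂ) (u : ι → ℝ) :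
    AvI f b (fun ξ => ∑ i ∈ J, c i * exp ((b + ξ * I) * u i)) ∧
      Av f b (fun ξ => ∑ i ∈ J, c i * exp ((b + ξ * I) * u i)) = ∑ i ∈ J, c i * f (u i) := by
  have e : (fun ξ : ℝ => lap f (b + ξ * I) * ∑ i ∈ J, c i * exp ((b + ξ * I) * u i)) =
      fun ξ : ℝ => ∑ i ∈ J, c i * (lap f (b + ξ * I) * exp ((b + ξ * I) * u i)) := by
    funext ξ
    rw [Finset.mul_sum]
    exact Finset.sum_congr rfl fun i _ => by ring
  have hi : ∀ i ∈ J, Integrable fun ξ : ℝ =>
      c i * (lap f (b + ξ * I) * exp ((b + ξ * I) * u i)) :=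
    fun i _ => (h3 (u i)).1.const_mul (c i)
  unfold AvI Av
  rw [e]
  refine ⟨integrable_finsetSum J hi, ?_⟩
  rw [integral_finsetSum J hi, Finset.mul_sum]
  refine Finset.sum_congr rfl fun i _ => ?_
  rw [integral_const_mul, (h3 (u i)).2]
  ring

lemma dom (ξ : ℝ) : 1 / (1 + |ξ|) ^ 2 ≤ (1 + ξ ^ 2)⁻¹ := by
  rw [one_div]
  apply inv_anti₀ (by positivity)
  have := abs_nonneg ξ
  have h2 : |ξ| ^ 2 = ξ ^ 2 := sq_abs ξ
  nlinarith

end AvA

theorem avOf : AvOf := by
  intro hF f R b ⟨hR, hc, hs⟩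
  obtain ⟨h1, h2, h3⟩ := hF f R hR hc hs
  refine ⟨AvA.sums f b (h3 b), AvA.lin f b, fun c => ?_, fun A => ?_⟩
  · have := AvA.sums f b (h3 b) Unit Finset.univ (fun _ => c) (fun _ => 0)
    simpa using this
  · obtain ⟨C, hC, hb⟩ := h2 (A + 2)
    set K : ℝ := C * Real.exp (R * |b|) with hK
    have hK1 : 1 ≤ K := by
      have : 1 ≤ Real.exp (R * |b|) := Real.one_le_exp (by positivity)
      nlinarith
    refine ⟨K, hK1, fun H ε hH => ?_⟩
    have hε : 0 ≤ ε := by
      have := hH 0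
      simp only [abs_zero, add_zero, one_pow, mul_one] at this
      exact (norm_nonneg _).trans this
    have hpt : ∀ ξ : ℝ, ‖lap f (b + ξ * I) * H ξ‖ ≤ K * ε * (1 + ξ ^ 2)⁻¹ := by
      intro ξ
      have hp : 0 < 1 + |ξ| := by positivity
      rw [norm_mul]
      calc ‖lap f (b + ξ * I)‖ * ‖H ξ‖ ≤ K / (1 + |ξ|) ^ (A + 2) * (ε * (1 + |ξ|) ^ A) :=
            mul_le_mul (hb b ξ) (hH ξ) (norm_nonneg _) (by positivity)
        _ = K * ε * (1 / (1 + |ξ|) ^ 2) := by
            rw [pow_add]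
            field_simp
        _ ≤ K * ε * (1 + ξ ^ 2)⁻¹ :=
            mul_le_mul_of_nonneg_left (AvA.dom ξ) (by positivity)
    have hg : Integrable fun ξ : ℝ => K * ε * (1 + ξ ^ 2)⁻¹ :=
      integrable_inv_one_add_sq.const_mul _
    have hA : ‖Av f b H‖ ≤ K * ε := by
      have hI := norm_integral_le_of_norm_le hg (Filter.Eventually.of_forall hpt)
      rw [integral_const_mul, integral_univ_inv_one_add_sq] at hI
      unfold Av
      rw [norm_mul]
      have hn : ‖(1 / (2 * π) : ℂ)‖ = 1 / (2 * π) := by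
        rw [norm_div, norm_one, norm_mul, Complex.norm_real, Real.norm_eq_abs,
          abs_of_pos Real.pi_pos]
        simp
      rw [hn]
      have hπ := Real.pi_pos
      have hKe : 0 ≤ K * ε := by positivity
      calc 1 / (2 * π) * ‖∫ ξ : ℝ, lap f (b + ξ * I) * H ξ‖ ≤ 1 / (2 * π) * (K * ε * π) :=
            mul_le_mul_of_nonneg_left hI (by positivity)
        _ = K * ε / 2 := by field_simp
        _ ≤ K * ε := by linarith
    refine ⟨hA, fun hHc => ?_, fun H₁ H₂ i₁ i₂ he => ?_⟩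
    · unfold AvI
      have hl : Continuous fun ξ : ℝ => lap f (b + ξ * I) :=
        h1.continuous.comp (by fun_prop)
      exact hg.mono' (hl.mul hHc).aestronglyMeasurable (Filter.Eventually.of_forall hpt)
    · have e : H = fun ξ => H₁ ξ - H₂ ξ := funext he
      rw [← (AvA.lin f b H₁ H₂ 0 i₁ i₂).2.2.2.1, ← e]
      exact hA

end Pool.Agent.MP_20b2fd_nt.H39
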