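import Pool.Agent.MP_20b2fd_nt.H39.SpecG

/-! Products of linear forms over squarefree numbers. -/

set_option autoImplicit false

namespace Pool.Agent.MP_20b2fd_nt.H39

open Finset
open Pool.Agent.MP_20b2fd_nt.H38

namespace BmA

theorem lf_insert {S : Finset ℕ} {p : ℕ} (h : p ∉ S) (c₀ c₁ G : ℕ → ℂ) :
    LF (insert p S) c₀ c₁ G = c₀ p * LF S c₀ c₁ G + c₁ p * LF S c₀ c₁ fun m => G (p * m) := by
  unfold LF
  rw [sum_powerset_insert h, mul_sum, mul_sum]
  congr 1 <;> refine sum_congr rfl fun T hT => ?_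
  · have : p ∉ T := fun h' => h (mem_powerset.1 hT h')
    rw [insert_sdiff_of_notMem _ this, prod_insert fun h' => h (mem_sdiff.1 h').1]
    ring
  · have : p ∉ T := fun h' => h (mem_powerset.1 hT h')
    rw [insert_sdiff_insert, sdiff_insert_of_notMem h, prod_insert this, prod_insert this]
    ring

theorem lf_mul {S : Finset ℕ} {p : ℕ} (hp : p.Prime) (h : p ∉ S) (hS : ∀ q ∈ S, q.Prime)
    (c₀ c₁ : ℕ → ℂ) {G : ℕ → ℂ} (a : ℂ) (G' : ℕ → ℂ) (e : ∀ m, p.Coprime m → G m = a * G' m) :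
    LF S c₀ c₁ G = a * LF S c₀ c₁ G' := by
  unfold LF
  rw [mul_sum]
  refine sum_congr rfl fun T hT => ?_
  rw [e _ (Nat.Coprime.prod_right fun q hq => (Nat.coprime_primes hp (hS q (mem_powerset.1 hT hq))).2
    fun e => h (e ▸ mem_powerset.1 hT hq))]
  ring

theorem bh_comm (φ : ℕ → ℂ) (m n : ℕ) : Bh φ m n = Bh φ n m := by
  unfold Bh
  rw [Nat.gcd_comm, mul_comm]

theorem term {φ : ℕ → ℂ} (hφ : Mu φ) {a m n d : ℕ} (hm : a.Coprime m) (hn : a.Coprime n)
    (hd : d ∈ (m.gcd n).divisors) : φ (a * (m * n) / d ^ 2) = φ a * φ (m * n / d ^ 2) := by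
  have h := Nat.dvd_of_mem_divisors hd
  have h2 : d ^ 2 ∣ m * n :=
    sq d ▸ mul_dvd_mul (h.trans (Nat.gcd_dvd_left _ _)) (h.trans (Nat.gcd_dvd_right _ _))
  rw [Nat.mul_div_assoc _ h2,
    hφ.2 _ _ ((hm.mul_right hn).coprime_dvd_right (Nat.div_dvd_of_dvd h2))]

theorem bh_left {φ : ℕ → ℂ} (hφ : Mu φ) {p m n : ℕ} (hm : p.Coprime m) (hn : p.Coprime n) :
    Bh φ (p * m) n = φ p * Bh φ m n := by
  unfold Bh
  rw [hn.gcd_mul_left_cancel, mul_sum]
  refine sum_congr rfl fun d hd => ?_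
  rw [mul_assoc, term hφ hm hn hd]
  ring

theorem bh_both {φ : ℕ → ℂ} (hφ : Mu φ) {p m n : ℕ} (hp : p.Prime) (hm : p.Coprime m)
    (hn : p.Coprime n) : Bh φ (p * m) (p * n) = (φ (p ^ 2) + p) * Bh φ m n := by
  have hg : p.Coprime (m.gcd n) := hm.coprime_dvd_right (Nat.gcd_dvd_left _ _)
  unfold Bh
  rw [Nat.gcd_mul_left, Nat.divisors_mul, mul_def, sum_image hg.mul_injOn_divisors, sum_product,
    hp.sum_divisors, add_mul, mul_sum, mul_sum, add_comm]
  congr 1 <;> refine sum_congr rfl fun d hd => ?_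
  · rw [one_mul, show p * m * (p * n) = p ^ 2 * (m * n) by ring,
      term hφ (hm.pow_left 2) (hn.pow_left 2) hd]
    ring
  · rw [show p * m * (p * n) = p ^ 2 * (m * n) by ring, mul_pow,
      Nat.mul_div_mul_left _ _ (pow_pos hp.pos 2)]
    push_cast
    ring

end BmA

open BmA in
theorem bm : BmS := by
  intro S c₀ c₁ e₀ e₁ φ hS hφ
  induction S using Finset.induction_on with
  | empty => simp [LF, Bh, hφ.1]
  | insert p S h ih =>
    have hp := hS p (mem_insert_self _ _)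
    replace hS := fun q hq => hS q (mem_insert_of_mem hq)
    obtain ⟨i1, i2⟩ := ih hS
    refine ⟨?_, ?_⟩
    · rw [lf_insert h, prod_insert h, lf_mul hp h hS c₀ c₁ (φ p) φ fun m hm => hφ.2 p m hm, i1]
      ring
    · rw [lf_insert h, prod_insert h,
        lf_mul hp h hS c₀ c₁ (e₀ p + e₁ p * φ p) (fun m => LF S e₀ e₁ fun n => Bh φ m n)
          fun m hm => ?_,
        lf_mul hp h hS c₀ c₁ (e₀ p * φ p + e₁ p * (φ (p ^ 2) + p))
          (fun m => LF S e₀ e₁ fun n => Bh φ m n)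
          (G := fun m => LF (insert p S) e₀ e₁ fun n => Bh φ (p * m) n) fun m hm => ?_, i2, lb]
      · ring
      · rw [lf_insert h, lf_mul hp h hS e₀ e₁ (φ p) (fun n => Bh φ m n) fun n hn => bh_left hφ hm hn,
          lf_mul hp h hS e₀ e₁ (φ (p ^ 2) + p) (fun n => Bh φ m n)
            (G := fun n => Bh φ (p * m) (p * n)) fun n hn => bh_both hφ hp hm hn]
        ring
      · rw [lf_insert h, lf_mul hp h hS e₀ e₁ (φ p) (fun n => Bh φ m n)
          (G := fun n => Bh φ m (p * n)) fun n hn => by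
            rw [bh_comm, bh_left hφ hn hm, bh_comm]]
        ring

end Pool.Agent.MP_20b2fd_nt.H39
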