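import Pool.Agent.MP_20b2fd_nt.H39.SpecM

/-! The first moment of the short mollifier. -/

set_option autoImplicit false

namespace Pool.Agent.MP_20b2fd_nt.H39

open MeasureTheory Complex Finset
open Pool.Agent.MP_20b2fd_nt.H38
open Pool.Agent.MP_c5bf7b_nt.H38 (Phi Ch)
open scoped Real

namespace EyA

theorem ex_re (Λ ξ : ℝ) : (ex Λ 0 ξ).re = 0 := by
  have h : ex Λ 0 ξ = ((ξ / Λ : ℝ) : ℂ) * I := by
    unfold ex; push_cast; ring
  rw [h]; simp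

theorem ex_norm (Λ ξ : ℝ) (hΛ : 0 < Λ) : ‖ex Λ 0 ξ‖ = |ξ| / Λ := by
  have h : ex Λ 0 ξ = ((ξ / Λ : ℝ) : ℂ) * I := by
    unfold ex; push_cast; ring
  rw [h, norm_mul, Complex.norm_I, mul_one, Complex.norm_real, Real.norm_eq_abs, abs_div,
    abs_of_pos hΛ]

theorem loc (z c : ℝ) (p : ℕ) (W y : ℂ) (hp : p.Prime) (hz : (p : ℝ) ≤ z)
    (hc : c = 0 ∨ c = 1 ∨ c = -1) (hW : ‖W‖ ≤ 1) :
    ‖((m0 p : ℝ) : ℂ) + n1 z p c W * (1 + c * y) - ((e0 p c : ℝ) : ℂ)‖ ≤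
      12 * (‖W - 1‖ / p + ‖y - 1‖ / p) * ‖((e0 p c : ℝ) : ℂ)‖ := by
  have hp2 : (2 : ℝ) ≤ p := by exact_mod_cast hp.two_le
  have hp0 : (0 : ℝ) < p := by linarith
  have hpc : (p : ℂ) ≠ 0 := by exact_mod_cast hp.ne_zero
  have hc1 : |c| ≤ 1 := by rcases hc with h | h | h <;> simp [h]
  have hc2 : |1 + c| ≤ 2 := by rcases hc with h | h | h <;> rw [h] <;> norm_num
  have hcn : ‖(c : ℂ)‖ ≤ 1 := by rw [Complex.norm_real, Real.norm_eq_abs]; exact hc1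
  have hcn2 : ‖(1 + c : ℂ)‖ ≤ 2 := by
    have : (1 + c : ℂ) = ((1 + c : ℝ) : ℂ) := by push_cast; ring
    rw [this, Complex.norm_real, Real.norm_eq_abs]; exact hc2
  have hA := norm_nonneg (W - 1)
  have hB := norm_nonneg (y - 1)
  have he : 1 / 3 ≤ e0 p c := by
    unfold e0
    split_ifs with h
    · have h1 : c / p ≤ 1 / 2 := by
        rw [div_le_iff₀ hp0]
        have := (abs_le.1 hc1).2
        linarith
      linarith
    · have h6 : (6 : ℝ) ≤ p := by exact_mod_cast (by omega : 6 ≤ p)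
      have h1 : (1 + c) ^ 2 / p ≤ 2 / 3 := by
        rw [div_le_iff₀ hp0]
        have h2 : (1 + c) ^ 2 ≤ 4 := by
          have := abs_le.1 hc2
          nlinarith
        linarith
      linarith
  have hn : ‖((e0 p c : ℝ) : ℂ)‖ = e0 p c := by
    rw [Complex.norm_real, Real.norm_eq_abs, abs_of_nonneg (by linarith)]
  have hmain : ‖((m0 p : ℝ) : ℂ) + n1 z p c W * (1 + c * y) - ((e0 p c : ℝ) : ℂ)‖ ≤
      4 * (‖W - 1‖ / p + ‖y - 1‖ / p) := by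
    by_cases h : p ≤ 5
    · have h1 : ((m0 p : ℝ) : ℂ) + n1 z p c W * (1 + c * y) - ((e0 p c : ℝ) : ℂ) =
          -(c * (y - 1)) / p := by
        unfold m0 n1 e0
        simp only [h, if_true]
        push_cast
        field_simp
        ring
      rw [h1, norm_div, norm_neg, norm_mul, Complex.norm_natCast, ← add_div, ← mul_div_assoc]
      refine div_le_div_of_nonneg_right ?_ hp0.le
      nlinarith
    · have h1 : ((m0 p : ℝ) : ℂ) + n1 z p c W * (1 + c * y) - ((e0 p c : ℝ) : ℂ) =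
          -((1 + c) * ((W - 1) * (1 + c) + W * c * (y - 1))) / p := by
        unfold m0 n1 e0
        simp only [h, hz, if_true, if_false]
        push_cast
        field_simp
        ring
      rw [h1, norm_div, norm_neg, norm_mul, Complex.norm_natCast, ← add_div, ← mul_div_assoc]
      refine div_le_div_of_nonneg_right ?_ hp0.le
      have h2 : ‖(W - 1) * (1 + c) + W * c * (y - 1)‖ ≤ 2 * (‖W - 1‖ + ‖y - 1‖) := by
        refine (norm_add_le _ _).trans ?_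
        rw [norm_mul, norm_mul, norm_mul]
        have h3 : ‖W‖ * ‖(c : ℂ)‖ ≤ 1 := mul_le_one₀ hW (norm_nonneg _) hcn
        nlinarith
      calc _ ≤ 2 * (2 * (‖W - 1‖ + ‖y - 1‖)) :=
            mul_le_mul hcn2 h2 (norm_nonneg _) (by norm_num)
        _ = 4 * (‖W - 1‖ + ‖y - 1‖) := by ring
  rw [hn]
  refine hmain.trans ?_
  have h0 : 0 ≤ ‖W - 1‖ / p + ‖y - 1‖ / p := by positivity
  nlinarith

theorem mem_pz {z : ℝ} {p : ℕ} (hz : 0 ≤ z) (hp : p ∈ pz z) : p.Prime ∧ (p : ℝ) ≤ z := by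
  unfold pz prs at hp
  rw [mem_filter, mem_Icc] at hp
  exact ⟨hp.2.1, (Nat.le_floor_iff hz).1 hp.1.2⟩

end EyA

theorem eyOf : EyOf := by
  intro hBm hAv hEz hF1 hFn
  obtain ⟨hF1a, hF1b, c0, hc0, hF1c⟩ := hF1
  obtain ⟨hBp, hf⟩ := hF1a (1 / 2) (by norm_num) (by norm_num)
  obtain ⟨C, A, hC, hE2⟩ := hEz.2 12 2 (by norm_num)
  obtain ⟨-, -, hA3, hA4⟩ := hAv (f1 (1 / 2)) 2 0 hBp
  obtain ⟨C₂, hC₂, hA4⟩ := hA4 (A + 1)
  have h2A : (1 : ℝ) ≤ 2 ^ A := one_le_pow₀ (by norm_num)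
  refine ⟨C₂ * (C * 2 ^ A), one_le_mul_of_one_le_of_one_le hC₂
    (one_le_mul_of_one_le_of_one_le hC h2A), ?_⟩
  intro D χ z Λ ρ u φ hχ hz hρ1 hΛ hu hφ hφp
  have hlz : 0 < Real.log z := Real.log_pos (by linarith)
  have hρ0 : 0 ≤ ρ := le_trans (by positivity) hu
  have hΛ0 : 0 < Λ := by
    by_contra h
    have : ρ * Λ ≤ 0 := mul_nonpos_of_nonneg_of_nonpos hρ0 (not_lt.1 h)
    linarith
  obtain ⟨hE0a, -, -⟩ := hF1c D χ z hχ hz
  have hE0 : 0 ≤ E0 χ z := le_trans (by positivity) hE0a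
  obtain ⟨hI, hS⟩ := (hFn D χ z Λ z hχ hz le_rfl hΛ0).1 φ
  have hf0 : f1 (1 / 2) 0 = 1 := (hf 0).2.2.1 (by norm_num) (by norm_num)
  have hcon : Av (f1 (1 / 2)) 0 (fun _ => ((E0 χ z : ℝ) : ℂ)) = E0 χ z := by
    rw [(hA3 _).2, hf0]; simp
  have hb : ∀ ξ : ℝ, ‖LF (pz z) (fun p => m0 p) (fun p => n1 z p (χ p) (p ^ ex Λ 0 ξ)) φ -
      ((E0 χ z : ℝ) : ℂ)‖ ≤ (C * 2 ^ A * ρ * E0 χ z) * (1 + |ξ|) ^ (A + 1) := by
    intro ξ
    have hz0 : 0 ≤ z := by linarith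
    rw [(hBm (pz z) _ _ (fun _ => 0) (fun _ => 0) φ (fun p hp => (EyA.mem_pz hz0 hp).1) hφ).1]
    have hE : ((E0 χ z : ℝ) : ℂ) = ∏ p ∈ pz z, ((e0 p (xr χ p) : ℝ) : ℂ) := by
      unfold E0; push_cast; rfl
    have h1 := hEz.1 (pz z) (fun p => ((m0 p : ℝ) : ℂ) + n1 z p (χ p) (p ^ ex Λ 0 ξ) * φ p)
      (fun p => ((e0 p (xr χ p) : ℝ) : ℂ))
      (fun p => 12 * (‖(p : ℂ) ^ ex Λ 0 ξ - 1‖ / p + ‖(p : ℂ) ^ (-u) - 1‖ / p)) (by
        intro p hp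
        obtain ⟨hpp, hpz⟩ := EyA.mem_pz hz0 hp
        obtain ⟨hx1, hx2⟩ := hF1b D χ hχ p
        refine ⟨by positivity, ?_⟩
        rw [hφp p hpp, ← hx1]
        refine EyA.loc z (xr χ p) p _ _ hpp hpz hx2 ?_
        rw [Complex.norm_natCast_cpow_of_pos hpp.pos, EyA.ex_re, Real.rpow_zero])
    rw [← hE, Complex.norm_real, Real.norm_eq_abs, abs_of_nonneg hE0] at h1
    refine h1.trans ?_
    have hξ : 0 ≤ |ξ| := abs_nonneg ξ
    have h2 := hE2 z (ρ * (1 + |ξ|)) ![ex Λ 0 ξ, -u] (by linarith) (by positivity) (by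
      intro i
      fin_cases i
      · simp only [Fin.zero_eta, Matrix.cons_val_zero]
        rw [EyA.ex_re, EyA.ex_norm _ _ hΛ0]
        refine ⟨by simp, ?_⟩
        rw [div_mul_eq_mul_div, div_le_iff₀ hΛ0]
        have := mul_le_mul_of_nonneg_left hΛ hξ
        nlinarith [mul_nonneg hρ0 hΛ0.le]
      · simp only [Fin.mk_one, Matrix.cons_val_one, Matrix.cons_val_fin_one, norm_neg]
        have h3 : |(-u).re| ≤ ‖u‖ := by
          rw [← norm_neg u]; exact Complex.abs_re_le_norm _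
        refine ⟨?_, by nlinarith⟩
        calc |(-u).re| * Real.log z ≤ ‖u‖ * Real.log z :=
              mul_le_mul_of_nonneg_right h3 hlz.le
          _ ≤ 1 := by linarith)
    have h3 : ∑ p ∈ pz z, 12 * (‖(p : ℂ) ^ ex Λ 0 ξ - 1‖ / p + ‖(p : ℂ) ^ (-u) - 1‖ / p) =
        12 * ∑ i : Fin 2, ds z (![ex Λ 0 ξ, -u] i) := by
      rw [Fin.sum_univ_two]
      simp only [Matrix.cons_val_zero, Matrix.cons_val_one, Matrix.cons_val_fin_one]
      unfold ds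
      rw [← sum_add_distrib, mul_sum]
    rw [h3]
    have h4 : (1 + ρ * (1 + |ξ|)) ^ A ≤ 2 ^ A * (1 + |ξ|) ^ A := by
      rw [← mul_pow]
      exact pow_le_pow_left₀ (by positivity) (by nlinarith) A
    calc _ ≤ C * (ρ * (1 + |ξ|)) * (1 + ρ * (1 + |ξ|)) ^ A * E0 χ z :=
          mul_le_mul_of_nonneg_right h2 hE0
      _ ≤ C * (ρ * (1 + |ξ|)) * (2 ^ A * (1 + |ξ|) ^ A) * E0 χ z := by
          have : 0 ≤ C := by linarith
          gcongr
      _ = _ := by ring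
  have h5 := (hA4 _ _ hb).2.2 _ _ hI (hA3 ((E0 χ z : ℝ) : ℂ)).1 (fun _ => rfl)
  rw [← hS, hcon] at h5
  calc _ ≤ _ := h5
    _ = _ := by ring

end Pool.Agent.MP_20b2fd_nt.H39
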