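import Pool.Agent.MP_20b2fd_nt.H39.SpecG

/-! Perturbation of finite products. -/

set_option autoImplicit false

namespace Pool.Agent.MP_20b2fd_nt.H39

open Finset
open Pool.Agent.MP_20b2fd_nt.H38

namespace EzA

theorem prod_le (S : Finset ℕ) (a b : ℕ → ℂ) (e : ℕ → ℝ)
    (h : ∀ p ∈ S, 0 ≤ e p ∧ ‖a p - b p‖ ≤ e p * ‖b p‖) :
    ‖∏ p ∈ S, a p - ∏ p ∈ S, b p‖ ≤ (Real.exp (∑ p ∈ S, e p) - 1) * ‖∏ p ∈ S, b p‖ := by
  induction S using Finset.induction_on with
  | empty => simp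
  | insert q S hq ih =>
    have h1 := ih fun p hp => h p (mem_insert_of_mem hp)
    obtain ⟨h2, h3⟩ := h q (mem_insert_self _ _)
    rw [prod_insert hq, prod_insert hq, sum_insert hq, Real.exp_add, norm_mul]
    set A := ∏ p ∈ S, a p
    set B := ∏ p ∈ S, b p
    set E := Real.exp (∑ p ∈ S, e p)
    have hE : 0 < E := Real.exp_pos _
    have h4 : ‖A‖ ≤ E * ‖B‖ := by linarith [norm_sub_norm_le A B]
    have h5 := Real.add_one_le_exp (e q)
    calc ‖a q * A - b q * B‖ = ‖(a q - b q) * A + b q * (A - B)‖ := by ring_nf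
      _ ≤ ‖a q - b q‖ * ‖A‖ + ‖b q‖ * ‖A - B‖ := by
        rw [← norm_mul, ← norm_mul]; exact norm_add_le _ _
      _ ≤ e q * ‖b q‖ * (E * ‖B‖) + ‖b q‖ * ((E - 1) * ‖B‖) := by gcongr
      _ = ((e q + 1) * E - 1) * (‖b q‖ * ‖B‖) := by ring
      _ ≤ _ := by gcongr

theorem exp_le (x : ℝ) : Real.exp x - 1 ≤ x * Real.exp x := by
  have h := mul_le_mul_of_nonneg_right (Real.add_one_le_exp (-x)) (Real.exp_pos x).le
  rw [← Real.exp_add, neg_add_cancel, Real.exp_zero] at h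
  linarith

theorem ds_le {D z t : ℝ} {ω : ℂ} (hD : 1 ≤ D) (hz : 2 ≤ z)
    (hM : ∑ p ∈ pz z, Real.log p / p ≤ Real.log z + D) (h : ‖ω‖ * Real.log z ≤ t) (ht : t ≤ 1) :
    ds z ω ≤ 2 * (1 + 2 * D) * t := by
  have hl : 1 / 2 ≤ Real.log z := by
    linarith [Real.log_two_gt_d9, Real.log_le_log (by norm_num) hz]
  have h1 : ds z ω ≤ ∑ p ∈ pz z, 2 * ‖ω‖ * (Real.log p / p) := by
    refine sum_le_sum fun p hp => ?_
    obtain ⟨h1, h2⟩ := mem_Icc.1 (mem_filter.1 hp).1
    have hp1 : (1 : ℝ) ≤ p := by exact_mod_cast h1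
    have hpz : Real.log p ≤ Real.log z :=
      Real.log_le_log (by linarith) ((Nat.le_floor_iff (by linarith)).1 h2)
    have hn : ‖Complex.log p * ω‖ = Real.log p * ‖ω‖ := by
      rw [norm_mul, ← Complex.natCast_log, Complex.norm_real, Real.norm_of_nonneg
        (Real.log_nonneg hp1)]
    have h3 := Complex.norm_exp_sub_one_le (x := Complex.log p * ω)
      (by rw [hn]; nlinarith [norm_nonneg ω])
    rw [Complex.cpow_def_of_ne_zero (by exact_mod_cast (by omega : p ≠ 0)), ← mul_div_assoc]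
    gcongr
    linarith
  rw [← mul_sum] at h1
  have h2 : Real.log z + D ≤ (1 + 2 * D) * Real.log z := by nlinarith
  calc ds z ω ≤ 2 * ‖ω‖ * ((1 + 2 * D) * Real.log z) := h1.trans (by gcongr; exact hM.trans h2)
    _ = 2 * (1 + 2 * D) * (‖ω‖ * Real.log z) := by ring
    _ ≤ _ := by gcongr

end EzA

open EzA in
theorem ezOf : EzOf := by
  rintro ⟨D, hD, hM, -⟩ ⟨C, hC, hS⟩
  refine ⟨prod_le, fun K n hK => ?_⟩
  set c := K * (n * (2 * (1 + 2 * D))) with hc
  have hc0 : 0 ≤ c := by positivity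
  have hx : 0 ≤ c * Real.exp c := by positivity
  have hy := Real.exp_pos (K * n * C)
  refine ⟨1 + c * Real.exp c + Real.exp (K * n * C), ⌈K * n * C⌉₊, by linarith,
    fun z t ω hz ht h => ?_⟩
  have hA : 1 ≤ (1 + t) ^ ⌈K * n * C⌉₊ := one_le_pow₀ (by linarith)
  have hb : ∀ u : ℝ, (∀ i, ds z (ω i) ≤ u) → K * ∑ i, ds z (ω i) ≤ K * (n * u) := fun u hu => by
    gcongr
    simpa using sum_le_card_nsmul univ _ u fun i _ => hu i
  rcases le_total t 1 with h1 | h1
  · have h2 := (abs_le.1 (hM 1 z le_rfl (by linarith)).1).2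
    rw [div_one] at h2
    have h3 := hb _ fun i => ds_le hD hz (by rw [pz]; linarith) (h i).2 h1
    have h4 : K * ∑ i, ds z (ω i) ≤ c * t := by rw [hc]; linarith
    have h5 : c * t ≤ c := mul_le_of_le_one_right hc0 h1
    calc _ ≤ _ := exp_le _
      _ ≤ c * t * Real.exp c := by gcongr; linarith
      _ = c * Real.exp c * t * 1 := by ring
      _ ≤ _ := by gcongr; linarith
  · have hl : 0 ≤ Real.log (1 + t) := Real.log_nonneg (by linarith)
    have h3 := hb (C + C * Real.log (1 + t)) fun i => (hS z _ hz (h i).1).trans (by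
      have := Real.log_nonneg (show 1 ≤ z by linarith)
      gcongr
      exact (h i).2)
    have h4 : K * n * C * Real.log (1 + t) ≤ ⌈K * n * C⌉₊ * Real.log (1 + t) := by
      gcongr; exact Nat.le_ceil _
    calc _ ≤ Real.exp (K * n * C + ⌈K * n * C⌉₊ * Real.log (1 + t)) := by
          have : Real.exp (K * ∑ i, ds z (ω i)) ≤ _ := Real.exp_le_exp.2
            (show _ ≤ K * n * C + ⌈K * n * C⌉₊ * Real.log (1 + t) by linarith)
          linarith
      _ = Real.exp (K * n * C) * 1 * (1 + t) ^ ⌈K * n * C⌉₊ := by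
          rw [Real.exp_add, Real.exp_nat_mul, Real.exp_log (by linarith), mul_one]
      _ ≤ _ := by gcongr; linarith

end Pool.Agent.MP_20b2fd_nt.H39
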