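import Pool.Agent.MP_20b2fd_nt.H39.SpecM

/-! The cutoff and the sizes of the short mollifier. -/

set_option autoImplicit false

namespace Pool.Agent.MP_20b2fd_nt.H39

open Finset
open Pool.Agent.MP_20b2fd_nt.H38
open Pool.Agent.MP_c5bf7b_nt.H38 (Ch)

namespace F1A

theorem f1_bd (ε u : ℝ) : 0 ≤ f1 ε u ∧ f1 ε u ≤ 1 :=
  ⟨mul_nonneg (Real.smoothTransition.nonneg _) (Real.smoothTransition.nonneg _),
    mul_le_one₀ (Real.smoothTransition.le_one _) (Real.smoothTransition.nonneg _)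
      (Real.smoothTransition.le_one _)⟩

theorem f1_zero {ε u : ℝ} (h : 0 < ε) (hu : 1 ≤ u) : f1 ε u = 0 := by
  unfold f1
  rw [Real.smoothTransition.zero_of_nonpos (div_nonpos_of_nonpos_of_nonneg (by linarith) h.le),
    zero_mul]

theorem cut (ε : ℝ) (h : 0 < ε) : Bp (f1 ε) 2 ∧ ∀ u : ℝ, 0 ≤ f1 ε u ∧ f1 ε u ≤ 1 ∧
    (-1 ≤ u → u ≤ 1 - ε → f1 ε u = 1) ∧ (1 ≤ u → f1 ε u = 0) := by
  refine ⟨⟨by norm_num, fun n => ?_, fun u hu => ?_⟩, fun u =>
    ⟨(f1_bd ε u).1, (f1_bd ε u).2, fun h1 h2 => ?_, f1_zero h⟩⟩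
  · exact (Real.smoothTransition.contDiff.comp (by fun_prop : ContDiff ℝ n fun u : ℝ => (1 - u) / ε)).mul
      (Real.smoothTransition.contDiff.comp (by fun_prop : ContDiff ℝ n fun u : ℝ => u + 2))
  · rcases lt_abs.1 hu with h1 | h1
    · exact f1_zero h (by linarith)
    · unfold f1
      rw [Real.smoothTransition.zero_of_nonpos (show u + 2 ≤ 0 by linarith), mul_zero]
  · unfold f1
    rw [Real.smoothTransition.one_of_one_le ((one_le_div h).2 (by linarith)),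
      Real.smoothTransition.one_of_one_le (by linarith), mul_one]

theorem quad (D : ℕ) (χ : Ch D) (h : χ ^ 2 = 1) (n : ℕ) : ((xr χ n : ℝ) : ℂ) = χ n ∧
    (xr χ n = 0 ∨ xr χ n = 1 ∨ xr χ n = -1) := by
  unfold xr
  rw [Int.cast_natCast]
  rcases MulChar.isQuadratic_iff_sq_eq_one.2 h (n : ZMod D) with e | e | e <;> rw [e] <;> simp

theorem mem_pz {z : ℝ} {p : ℕ} (h : p ∈ pz z) : p.Prime ∧ p ≤ ⌊z⌋₊ := by
  unfold pz prs at h
  rw [mem_filter, mem_Icc] at h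
  exact ⟨h.2.1, h.1.2⟩

theorem prod_m0 {z : ℝ} (hz : 5 ≤ z) : ∏ p ∈ pz z, m0 p ≤ 3 := by
  have e : (pz z).filter (fun p => p ≤ 5) = {2, 3, 5} := by
    have h5 : 5 ≤ ⌊z⌋₊ := Nat.le_floor (by exact_mod_cast hz)
    ext p
    rw [mem_filter]
    constructor
    · rintro ⟨h1, h2⟩
      have h3 := (mem_pz h1).1
      interval_cases p <;> first | decide | exact absurd h3 (by decide)
    · intro h
      unfold pz prs
      simp only [mem_insert, mem_singleton] at h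
      rw [mem_filter, mem_Icc]
      rcases h with rfl | rfl | rfl <;>
        exact ⟨⟨⟨by norm_num, by omega⟩, by norm_num, by norm_num⟩, by norm_num⟩
  unfold m0
  rw [← prod_filter, e]
  norm_num

theorem e0_bd {p : ℕ} {c : ℝ} (hp : p.Prime) (hc : c = 0 ∨ c = 1 ∨ c = -1) :
    Real.exp (-4 * (1 / p) - 40 * ((p : ℝ) ^ 2)⁻¹) ≤ e0 p c ∧ e0 p c ≤ m0 p := by
  have h2 : (2 : ℝ) ≤ p := by exact_mod_cast hp.two_le
  have h0 : (0 : ℝ) < p := by linarith
  set x : ℝ := 1 / p with hx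
  have hx0 : 0 < x := by positivity
  have e1 : ((p : ℝ) ^ 2)⁻¹ = x ^ 2 := by rw [hx]; field_simp
  have key : ∀ y : ℝ, 0 < y → 1 - y⁻¹ ≥ -4 * x - 40 * x ^ 2 →
      Real.exp (-4 * x - 40 * x ^ 2) ≤ y := fun y hy h =>
    (Real.le_log_iff_exp_le hy).1 (le_trans h (Real.one_sub_inv_le_log_of_pos hy))
  unfold e0 m0
  rw [e1]
  split_ifs with h5
  · have hx2 : x ≤ 1 / 2 := one_div_le_one_div_of_le two_pos h2
    have e2 : c / p = c * x := by rw [hx]; ring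
    have b1 := key (1 - x) (by linarith) (by
      have : (1 - x)⁻¹ ≤ 1 + 4 * x := inv_le_of_inv_le₀ (by linarith) (by
        rw [inv_le_iff_one_le_mul₀ (by linarith)]; nlinarith)
      nlinarith [sq_nonneg x])
    rw [e2]
    rcases hc with rfl | rfl | rfl <;> constructor <;> linarith
  · have h6 : 6 ≤ p := by omega
    have h7 : (7 : ℝ) ≤ p := by
      have : p ≠ 6 := fun e => absurd hp (by rw [e]; decide)
      have : 7 ≤ p := by omega
      exact_mod_cast this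
    have hx2 : x ≤ 1 / 7 := one_div_le_one_div_of_le (by norm_num) h7
    have e2 : (1 + c) ^ 2 / p = (1 + c) ^ 2 * x := by rw [hx]; ring
    have b1 := key (1 - 4 * x) (by linarith) (by
      have : (1 - 4 * x)⁻¹ ≤ 1 + 4 * x + 40 * x ^ 2 := inv_le_of_inv_le₀ (by positivity) (by
        rw [inv_le_iff_one_le_mul₀ (by positivity)]
        nlinarith [mul_nonneg (sq_nonneg x) (sub_nonneg.2 hx2)])
      linarith)
    rw [e2]
    rcases hc with rfl | rfl | rfl <;> constructor <;> linarith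

theorem m1_bd {p : ℕ} {c : ℝ} (hp : p.Prime) (hc : c = 0 ∨ c = 1 ∨ c = -1) :
    |m1 p c| ≤ m0 p ∧ |m0 p| ≤ m0 p := by
  have h2 : (2 : ℝ) ≤ p := by exact_mod_cast hp.two_le
  have hx0 : (0 : ℝ) < 1 / p := by positivity
  have hx2 : (1 : ℝ) / p ≤ 1 / 2 := one_div_le_one_div_of_le two_pos h2
  unfold m1 m0
  split_ifs with h5
  · rw [neg_div, abs_neg, abs_of_pos hx0, abs_of_pos (by linarith)]
    constructor <;> linarith
  · have e : -(1 + c) / (p : ℝ) = -(1 + c) * (1 / p) := by ring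
    rw [e, abs_one, abs_le]
    rcases hc with rfl | rfl | rfl <;> refine ⟨⟨?_, ?_⟩, le_rfl⟩ <;> linarith

theorem sum_sq {z : ℝ} (hz : 5 ≤ z) : ∑ p ∈ pz z, ((p : ℝ) ^ 2)⁻¹ ≤ 1 := by
  have h5 : 5 ≤ ⌊z⌋₊ := Nat.le_floor (by exact_mod_cast hz)
  have h1 := sum_Ioc_inv_sq_le_sub (α := ℝ) (k := 1) (n := ⌊z⌋₊) one_ne_zero (by omega)
  have h2 : ∑ p ∈ pz z, ((p : ℝ) ^ 2)⁻¹ ≤ ∑ p ∈ Ioc 1 ⌊z⌋₊, ((p : ℝ) ^ 2)⁻¹ :=
    sum_le_sum_of_subset_of_nonneg (fun p hp => mem_Ioc.2 ⟨(mem_pz hp).1.one_lt, (mem_pz hp).2⟩)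
      fun _ _ _ => by positivity
  have h3 : (0 : ℝ) ≤ (⌊z⌋₊ : ℝ)⁻¹ := by positivity
  rw [Nat.cast_one, inv_one] at h1
  linarith

end F1A

open F1A in
theorem f1Of : F1Of := by
  rintro ⟨K, -, -, -, hK⟩
  refine ⟨fun ε h _ => cut ε h, quad, Real.exp (-4 * K - 40), Real.exp_pos _,
    fun D χ z hχ hz => ⟨?_, ?_, fun Λ l => ?_⟩⟩
  · have hL : 0 < Real.log z := Real.log_pos (by linarith)
    have h1 : ∏ p ∈ pz z, Real.exp (-4 * (1 / p) - 40 * ((p : ℝ) ^ 2)⁻¹) ≤ E0 χ z :=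
      prod_le_prod (fun _ _ => (Real.exp_pos _).le)
        fun p hp => (e0_bd (mem_pz hp).1 (quad D χ hχ p).2).1
    rw [← Real.exp_sum, sum_sub_distrib, ← mul_sum, ← mul_sum] at h1
    refine le_trans ?_ h1
    have e : Real.log z ^ 4 = Real.exp (4 * Real.log (Real.log z)) := by
      rw [← Real.exp_log (pow_pos hL 4), Real.log_pow]
      norm_num
    rw [e, ← Real.exp_sub, Real.exp_le_exp]
    linarith [(abs_le.1 (hK z (by linarith))).2, sum_sq hz]
  · exact (prod_le_prod (fun p hp => (Real.exp_pos _).le.trans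
      (e0_bd (mem_pz hp).1 (quad D χ hχ p).2).1)
      fun p hp => (e0_bd (mem_pz hp).1 (quad D χ hχ p).2).2).trans (prod_m0 hz)
  · unfold nu
    split_ifs with h
    · rw [abs_mul, abs_prod, abs_of_nonneg (f1_bd _ _).1]
      refine (mul_le_of_le_one_right (prod_nonneg fun _ _ => abs_nonneg _) (f1_bd _ _).2).trans
        (le_trans (prod_le_prod (fun _ _ => abs_nonneg _) fun p hp => ?_) (prod_m0 hz))
      split_ifs
      · exact (m1_bd (mem_pz hp).1 (quad D χ hχ p).2).1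
      · exact (m1_bd (mem_pz hp).1 (quad D χ hχ p).2).2
    · norm_num

end Pool.Agent.MP_20b2fd_nt.H39
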