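import Pool.Agent.MP_20b2fd_nt.H39.SpecM

/-! The short mollifier as an average of linear forms over sets of primes. -/

set_option autoImplicit false

namespace Pool.Agent.MP_20b2fd_nt.H39

open MeasureTheory Complex Finset
open Pool.Agent.MP_20b2fd_nt.H38
open Pool.Agent.MP_c5bf7b_nt.H38 (Phi Ch)
open DirichletCharacter (LFunction)
open scoped Real

namespace FnA

theorem mem_pz {z : ℝ} (hz : 0 ≤ z) {p : ℕ} : p ∈ pz z ↔ p.Prime ∧ (p : ℝ) ≤ z := by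
  unfold pz prs
  rw [mem_filter, mem_Icc, Nat.le_floor_iff hz]
  constructor
  · rintro ⟨⟨-, h⟩, hp, -⟩
    exact ⟨hp, h⟩
  · rintro ⟨hp, h⟩
    exact ⟨⟨hp.one_le, h⟩, hp, by exact_mod_cast hp.one_lt⟩

/-- the exponent of a set of primes -/
noncomputable def uu (Λ : ℝ) (T : Finset ℕ) : ℝ :=
  (∑ p ∈ T.filter (fun p => 5 < p), Real.log p) / Λ

theorem n1_eq (z : ℝ) (p : ℕ) (c W : ℂ) :
    n1 z p c W = n1 z p c 1 * (if 5 < p then W else 1) := by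
  unfold n1
  by_cases h : p ≤ 5
  · rw [if_pos h, if_pos h, if_neg (by omega), mul_one]
  · rw [if_neg h, if_neg h, if_pos (show 5 < p by omega)]
    split_ifs <;> ring

theorem prod_pow {T : Finset ℕ} (hT : ∀ p ∈ T, p.Prime) (Λ ξ : ℝ) :
    ∏ p ∈ T, (if 5 < p then (p : ℂ) ^ ex Λ 0 ξ else 1) =
      exp ((((0 : ℝ) : ℂ) + ξ * I) * (uu Λ T : ℝ)) := by
  rw [← prod_filter]
  unfold uu ex
  push_cast
  rw [sum_div, mul_sum, exp_sum]
  refine prod_congr rfl fun p hp => ?_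
  have hp0 : (p : ℂ) ≠ 0 := by exact_mod_cast (hT p (mem_filter.1 hp).1).ne_zero
  rw [cpow_def_of_ne_zero hp0]
  congr 1
  ring

theorem lf_eq {S : Finset ℕ} (hS : ∀ p ∈ S, p.Prime) (z Λ ξ : ℝ) (c c₀ G : ℕ → ℂ) :
    LF S c₀ (fun p => n1 z p (c p) (p ^ ex Λ 0 ξ)) G =
      ∑ T ∈ S.powerset, ((∏ p ∈ T, n1 z p (c p) 1) * (∏ p ∈ S \ T, c₀ p) * G (∏ p ∈ T, p)) *
        exp ((((0 : ℝ) : ℂ) + ξ * I) * (uu Λ T : ℝ)) := by
  unfold LF
  refine sum_congr rfl fun T hT => ?_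
  have hT' : ∀ p ∈ T, p.Prime := fun p hp => hS p (mem_powerset.1 hT hp)
  rw [← prod_pow hT', prod_congr rfl fun p _ => n1_eq z p (c p) (p ^ ex Λ 0 ξ), prod_mul_distrib]
  ring

theorem sqf {P : Finset ℕ} (hP : ∀ p ∈ P, p.Prime) : Squarefree (∏ p ∈ P, p) := by
  refine Finset.squarefree_prod_of_pairwise_isCoprime (fun p hp q hq hpq => ?_)
    fun p hp => (hP p hp).squarefree
  exact Nat.coprime_iff_isRelPrime.1 ((Nat.coprime_primes (hP p hp) (hP q hq)).2 hpq)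

theorem sum_div_eq {P : Finset ℕ} (hP : ∀ p ∈ P, p.Prime) (F : ℕ → ℂ) :
    ∑ T ∈ P.powerset, F (∏ p ∈ T, p) = ∑ l ∈ (∏ p ∈ P, p).divisors, F l := by
  have h0 : ∏ p ∈ P, p ≠ 0 := (sqf hP).ne_zero
  refine sum_nbij' (fun T => ∏ p ∈ T, p) (fun l => l.primeFactors) ?_ ?_ ?_ ?_ ?_
  · intro T hT
    exact Nat.mem_divisors.2 ⟨prod_dvd_prod_of_subset _ _ _ (mem_powerset.1 hT), h0⟩
  · intro l hl
    have h := Nat.primeFactors_mono (Nat.dvd_of_mem_divisors hl) h0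
    rw [Nat.primeFactors_prod hP] at h
    exact mem_powerset.2 h
  · intro T hT
    exact Nat.primeFactors_prod fun p hp => hP p (mem_powerset.1 hT hp)
  · intro l hl
    exact Nat.prod_primeFactors_of_squarefree
      ((sqf hP).squarefree_of_dvd (Nat.dvd_of_mem_divisors hl))
  · intro T _
    rfl

theorem le_exp {l : ℕ} (hl : Squarefree l) :
    (l : ℝ) ≤ 30 * Real.exp (∑ p ∈ l.primeFactors.filter (fun p => 5 < p), Real.log p) := by
  have h1 : ∏ p ∈ l.primeFactors.filter (fun p => ¬ 5 < p), p ≤ 30 := by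
    have hs : l.primeFactors.filter (fun p => ¬ 5 < p) ⊆ ({2, 3, 5} : Finset ℕ) := by
      intro p hp
      obtain ⟨hp1, hp2⟩ := mem_filter.1 hp
      have hpp := Nat.prime_of_mem_primeFactors hp1
      have h2 := hpp.two_le
      have h5 : p ≤ 5 := by omega
      interval_cases p
      · simp
      · simp
      · exact absurd hpp (by norm_num)
      · simp
    calc ∏ p ∈ l.primeFactors.filter (fun p => ¬ 5 < p), p ≤ ∏ p ∈ ({2, 3, 5} : Finset ℕ), p := by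
          refine prod_le_prod_of_subset_of_one_le' hs fun p hp _ => ?_
          simp only [mem_insert, mem_singleton] at hp
          omega
      _ = 30 := by norm_num
  have h2 : Real.exp (∑ p ∈ l.primeFactors.filter (fun p => 5 < p), Real.log p) =
      ((∏ p ∈ l.primeFactors.filter (fun p => 5 < p), p : ℕ) : ℝ) := by
    rw [Real.exp_sum, Nat.cast_prod]
    refine prod_congr rfl fun p hp => Real.exp_log ?_
    exact_mod_cast (Nat.prime_of_mem_primeFactors (mem_filter.1 hp).1).pos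
  rw [h2]
  have h3 := prod_filter_mul_prod_filter_not l.primeFactors (fun p => 5 < p) (fun p => p)
  rw [Nat.prod_primeFactors_of_squarefree hl] at h3
  have h4 : l ≤ 30 * ∏ p ∈ l.primeFactors.filter (fun p => 5 < p), p := by
    calc l = _ := h3.symm
      _ ≤ (∏ p ∈ l.primeFactors.filter (fun p => 5 < p), p) * 30 := Nat.mul_le_mul_left _ h1
      _ = _ := mul_comm _ _
  exact_mod_cast h4

theorem sum_Icc {D : ℕ} (χ : Ch D) {z Λ : ℝ} (hz : 0 ≤ z) (hΛ : 0 < Λ)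
    (hf : ∀ u : ℝ, 1 ≤ u → f1 (1 / 2) u = 0) (G : ℕ → ℂ) :
    ∑ l ∈ Icc 1 (Mz Λ), (nu χ z Λ l : ℂ) * G l =
      ∑ l ∈ (∏ p ∈ pz z, p).divisors, (nu χ z Λ l : ℂ) * G l := by
  have hP : ∀ p ∈ pz z, p.Prime := fun p hp => ((mem_pz hz).1 hp).1
  refine sum_congr_of_eq_on_inter (fun l _ hl => ?_) (fun l hl hl' => ?_) fun _ _ _ => rfl
  · have : ¬ l ∣ ∏ p ∈ pz z, p := fun h => hl (Nat.mem_divisors.2 ⟨h, (sqf hP).ne_zero⟩)
    unfold nu
    rw [if_neg this]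
    simp
  · have hd := Nat.dvd_of_mem_divisors hl
    have hs := (sqf hP).squarefree_of_dvd hd
    have h1 := le_exp hs
    have h2 : 1 ≤ (∑ p ∈ l.primeFactors.filter (fun p => 5 < p), Real.log p) / Λ := by
      by_contra h
      push Not at h
      rw [div_lt_one hΛ] at h
      apply hl'
      refine mem_Icc.2 ⟨Nat.pos_of_mem_divisors hl, ?_⟩
      unfold Mz
      refine Nat.le_floor (h1.trans ?_)
      have := Real.exp_le_exp.2 h.le
      linarith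
    unfold nu
    rw [if_pos hd, hf _ h2]
    simp

theorem term_eq {D : ℕ} (χ : Ch D) {z Λ Y : ℝ} (hz : 5 ≤ z) (hY : z ≤ Y)
    (hx : ∀ n : ℕ, ((xr χ n : ℝ) : ℂ) = χ n) {T : Finset ℕ} (hT : T ⊆ pz z) :
    (∏ p ∈ T, n1 z p (χ p) 1) * (∏ p ∈ pz Y \ T, (m0 p : ℂ)) * (f1 (1 / 2) (uu Λ T) : ℝ) =
      nu χ z Λ (∏ p ∈ T, p) := by
  have hz0 : (0 : ℝ) ≤ z := by linarith
  have hY0 : (0 : ℝ) ≤ Y := by linarith
  have hT' : ∀ p ∈ T, p.Prime := fun p hp => ((mem_pz hz0).1 (hT hp)).1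
  have hd : (∏ p ∈ T, p) ∣ ∏ p ∈ pz z, p := prod_dvd_prod_of_subset _ _ _ hT
  have h1 : ∏ p ∈ pz Y \ T, (m0 p : ℂ) = ∏ p ∈ pz z \ T, (m0 p : ℂ) := by
    symm
    refine prod_subset (sdiff_subset_sdiff (fun p hp => ?_) Subset.rfl) fun p hp hp' => ?_
    · obtain ⟨h, h'⟩ := (mem_pz hz0).1 hp
      exact (mem_pz hY0).2 ⟨h, h'.trans hY⟩
    · obtain ⟨h, h'⟩ := mem_sdiff.1 hp
      have h2 : p ∉ pz z := fun h2 => hp' (mem_sdiff.2 ⟨h2, h'⟩)
      have h3 : ¬ (p : ℝ) ≤ z := fun h3 => h2 ((mem_pz hz0).2 ⟨((mem_pz hY0).1 h).1, h3⟩)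
      have h4 : ¬ p ≤ 5 := fun h4 => h3 (le_trans (by exact_mod_cast h4) hz)
      unfold m0
      rw [if_neg h4]
      simp
  unfold nu
  rw [if_pos hd, Nat.primeFactors_prod hT', h1, ← prod_sdiff hT]
  unfold uu
  push_cast
  congr 1
  rw [mul_comm]
  congr 1
  · refine prod_congr rfl fun p hp => ?_
    obtain ⟨h, h'⟩ := mem_sdiff.1 hp
    have hp := ((mem_pz hz0).1 h).1
    have : ¬ p ∣ ∏ q ∈ T, q := by
      intro hh
      apply h'
      rw [← Nat.primeFactors_prod hT']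
      exact Nat.mem_primeFactors.2 ⟨hp, hh, (sqf hT').ne_zero⟩
    rw [if_neg this]
  · refine prod_congr rfl fun p hp => ?_
    rw [if_pos (dvd_prod_of_mem (fun q => q) hp)]
    unfold n1 m1
    by_cases h5 : p ≤ 5
    · rw [if_pos h5, if_pos h5]
      push_cast
      rfl
    · rw [if_neg h5, if_neg h5, if_pos ((mem_pz hz0).1 (hT hp)).2, ← hx p]
      push_cast
      ring

theorem main {D : ℕ} (χ : Ch D) {z Λ Y : ℝ} (hz : 5 ≤ z) (hY : z ≤ Y) (hΛ : 0 < Λ)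
    (hx : ∀ n : ℕ, ((xr χ n : ℝ) : ℂ) = χ n) (hf : ∀ u : ℝ, 1 ≤ u → f1 (1 / 2) u = 0)
    (G : ℕ → ℂ) :
    ∑ l ∈ Icc 1 (Mz Λ), (nu χ z Λ l : ℂ) * G l =
      ∑ T ∈ (pz Y).powerset, ((∏ p ∈ T, n1 z p (χ p) 1) * (∏ p ∈ pz Y \ T, (m0 p : ℂ)) *
        G (∏ p ∈ T, p)) * (f1 (1 / 2) (uu Λ T) : ℝ) := by
  have hz0 : (0 : ℝ) ≤ z := by linarith
  have hY0 : (0 : ℝ) ≤ Y := by linarith
  have hP : ∀ p ∈ pz z, p.Prime := fun p hp => ((mem_pz hz0).1 hp).1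
  have hsub : pz z ⊆ pz Y := fun p hp =>
    (mem_pz hY0).2 ⟨((mem_pz hz0).1 hp).1, ((mem_pz hz0).1 hp).2.trans hY⟩
  rw [sum_Icc χ hz0 hΛ hf G, ← sum_div_eq hP fun l => (nu χ z Λ l : ℂ) * G l]
  rw [← sum_subset (powerset_mono.2 hsub)]
  · refine sum_congr rfl fun T hT => ?_
    rw [← term_eq χ hz hY hx (mem_powerset.1 hT)]
    ring
  · intro T hT hT'
    rw [mem_powerset] at hT hT'
    obtain ⟨p, hp, hp'⟩ := not_subset.1 hT'
    have h3 : ¬ (p : ℝ) ≤ z := fun h3 => hp' ((mem_pz hz0).2 ⟨((mem_pz hY0).1 (hT hp)).1, h3⟩)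
    have h4 : ¬ p ≤ 5 := fun h4 => h3 (le_trans (by exact_mod_cast h4) hz)
    have h0 : n1 z p (χ p) 1 = 0 := by
      unfold n1
      rw [if_neg h4, if_neg h3]
    rw [prod_eq_zero hp h0]
    simp

theorem mu_sig : Mu fun n => (sig n : ℂ) := by
  refine ⟨by simp [sig], fun m n h => ?_⟩
  have := congrArg (fun k : ℕ => (k : ℂ)) h.sum_divisors_mul
  unfold sig
  push_cast at this ⊢
  exact this

end FnA

open FnA in
theorem fnOf : FnOf := by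
  intro hB hA hF D χ z Λ Y hχ hz hY hΛ
  have hY0 : (0 : ℝ) ≤ Y := by linarith
  have hS : ∀ p ∈ pz Y, p.Prime := fun p hp => ((mem_pz hY0).1 hp).1
  obtain ⟨hb, hf⟩ := hF.1 (1 / 2) (by norm_num) (by norm_num)
  have hx : ∀ n : ℕ, ((xr χ n : ℝ) : ℂ) = χ n := fun n => (hF.2.1 D χ hχ n).1
  have key : ∀ G : ℕ → ℂ,
      AvI (f1 (1 / 2)) 0 (fun ξ => LF (pz Y) (fun p => m0 p)
        (fun p => n1 z p (χ p) (p ^ ex Λ 0 ξ)) G) ∧
      ∑ l ∈ Icc 1 (Mz Λ), (nu χ z Λ l : ℂ) * G l =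
        Av (f1 (1 / 2)) 0 fun ξ => LF (pz Y) (fun p => m0 p)
          (fun p => n1 z p (χ p) (p ^ ex Λ 0 ξ)) G := by
    intro G
    have e : (fun ξ => LF (pz Y) (fun p => m0 p) (fun p => n1 z p (χ p) (p ^ ex Λ 0 ξ)) G) =
        fun ξ : ℝ => ∑ T ∈ (pz Y).powerset, ((∏ p ∈ T, n1 z p (χ p) 1) *
          (∏ p ∈ pz Y \ T, (m0 p : ℂ)) * G (∏ p ∈ T, p)) *
            exp ((((0 : ℝ) : ℂ) + ξ * I) * (uu Λ T : ℝ)) :=
      funext fun ξ => lf_eq hS z Λ ξ (fun p => χ p) (fun p => m0 p) G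
    obtain ⟨h1, h2⟩ := (hA (f1 (1 / 2)) 2 0 hb).1 (Finset ℕ) (pz Y).powerset
      (fun T => (∏ p ∈ T, n1 z p (χ p) 1) * (∏ p ∈ pz Y \ T, (m0 p : ℂ)) * G (∏ p ∈ T, p))
      (uu Λ)
    rw [e]
    exact ⟨h1, by rw [h2]; exact main χ hz hY hΛ hx (fun u hu => (hf u).2.2.2 hu) G⟩
  refine ⟨key, ?_⟩
  have h := (key fun n => (sig n : ℂ)).2
  have e : (fun ξ => LF (pz Y) (fun p => m0 p) (fun p => n1 z p (χ p) (p ^ ex Λ 0 ξ))
      fun n => (sig n : ℂ)) = fun _ : ℝ => (0 : ℂ) := by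
    funext ξ
    rw [(hB (pz Y) _ _ (fun _ => 0) (fun _ => 0) _ hS mu_sig).1]
    refine prod_eq_zero (i := 2) ((mem_pz hY0).2 ⟨Nat.prime_two, by push_cast; linarith⟩) ?_
    have h2 : sig 2 = 3 := by
      unfold sig
      rw [Nat.Prime.divisors Nat.prime_two]
      norm_num
    simp only [h2, m0, n1]
    norm_num
  rw [e, ((hA (f1 (1 / 2)) 2 0 hb).2.2.1 0).2, zero_mul] at h
  exact_mod_cast h

end Pool.Agent.MP_20b2fd_nt.H39
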