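import Pool.Agent.MP_20b2fd_nt.H39.SpecM

/-! The long mollifier as a sum over sets of primes. -/

set_option autoImplicit false

namespace Pool.Agent.MP_20b2fd_nt.H39

open Finset ArithmeticFunction
open Pool.Agent.MP_20b2fd_nt.H38

namespace Fx1A

theorem LF_insert {a : ℕ} {S : Finset ℕ} (ha : a ∉ S) (c₀ c₁ G : ℕ → ℂ) :
    LF (insert a S) c₀ c₁ G = c₀ a * LF S c₀ c₁ G + c₁ a * LF S c₀ c₁ fun n => G (a * n) := by
  unfold LF
  rw [sum_powerset_insert ha, mul_sum, mul_sum]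
  congr 1 <;> refine sum_congr rfl fun T hT => ?_
  · have h : a ∉ T := fun h => ha (mem_powerset.1 hT h)
    rw [insert_sdiff_of_notMem _ h, prod_insert fun k => ha (mem_sdiff.1 k).1]
    ring
  · have h : a ∉ T := fun h => ha (mem_powerset.1 hT h)
    rw [prod_insert h, prod_insert h, insert_sdiff_insert, sdiff_insert_of_notMem ha]
    ring

theorem LF_empty (c₀ c₁ G : ℕ → ℂ) : LF ∅ c₀ c₁ G = G 1 := by simp [LF]

theorem LF_union {S S' : Finset ℕ} (h : Disjoint S S') (c₀ c₁ G : ℕ → ℂ) :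
    LF (S ∪ S') c₀ c₁ G = LF S c₀ c₁ fun a => LF S' c₀ c₁ fun b => G (a * b) := by
  induction S using Finset.induction_on generalizing G with
  | empty => simp [LF_empty]
  | insert a S ha ih =>
    rw [disjoint_insert_left] at h
    rw [insert_union, LF_insert (by simp [ha, h.1]), LF_insert ha, ih h.2, ih h.2]
    simp only [mul_assoc]

theorem LF_congr {S : Finset ℕ} {c₀ c₁ e₀ e₁ : ℕ → ℂ} (h : ∀ p ∈ S, c₀ p = e₀ p ∧ c₁ p = e₁ p)
    (G : ℕ → ℂ) : LF S c₀ c₁ G = LF S e₀ e₁ G := by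
  refine sum_congr rfl fun T hT => ?_
  rw [prod_congr rfl fun p hp => (h p (mem_powerset.1 hT hp)).2,
    prod_congr rfl fun p hp => (h p (mem_sdiff.1 hp).1).1]

theorem LF_triv (S : Finset ℕ) (G : ℕ → ℂ) : LF S (fun _ => 1) (fun _ => 0) G = G 1 := by
  induction S using Finset.induction_on with
  | empty => exact LF_empty _ _ _
  | insert a S ha ih => rw [LF_insert ha, ih, one_mul, zero_mul, add_zero]

theorem vals (T : Finset ℕ) (h : ∀ p ∈ T, p.Prime) :
    ((moebius (∏ p ∈ T, p) : ℤ) : ℂ) = ∏ _p ∈ T, -1 ∧ (tau (∏ p ∈ T, p) : ℂ) = ∏ _p ∈ T, 2 ∧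
      ((∏ p ∈ T, p).totient : ℂ) = ∏ p ∈ T, ((p : ℂ) - 1) := by
  induction T using Finset.induction_on with
  | empty => simp [tau]
  | insert a T ha ih =>
    obtain ⟨a1, a2, a3⟩ := ih fun p hp => h p (mem_insert_of_mem hp)
    have pa := h a (mem_insert_self _ _)
    have c : a.Coprime (∏ p ∈ T, p) := Nat.Coprime.prod_right fun p hp =>
      (Nat.coprime_primes pa (h p (mem_insert_of_mem hp))).2 fun e => ha (e ▸ hp)
    simp only [prod_insert ha]
    refine ⟨?_, ?_, ?_⟩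
    · rw [isMultiplicative_moebius.map_mul_of_coprime c, moebius_apply_prime pa, Int.cast_mul, a1]
      simp
    · rw [← a2, tau, tau, c.card_divisors_mul, pa.divisors, card_pair pa.one_lt.ne]
      simp
    · rw [Nat.totient_mul c, Nat.totient_prime pa, Nat.cast_mul, a3, Nat.cast_sub pa.one_le,
        Nat.cast_one]

theorem sqf (T : Finset ℕ) (h : ∀ p ∈ T, p.Prime) : Squarefree (∏ p ∈ T, p) := by
  refine moebius_ne_zero_iff_squarefree.1 fun e => ?_
  have := (vals T h).1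
  rw [e, Int.cast_zero] at this
  exact prod_ne_zero_iff.2 (fun _ _ => by simp) this.symm

theorem small {p : ℕ} (hp : p.Prime) : p ∣ 30 ↔ p ≤ 5 := by
  constructor
  · intro h
    have := Nat.le_of_dvd (by norm_num) h
    interval_cases p <;> first | omega | (exfalso; revert hp; norm_num)
  · intro h
    interval_cases p <;> first | omega | (exfalso; revert hp; norm_num)

theorem mem_Sr {p : ℕ} : p ∈ Sr 1 ↔ p.Prime ∧ p ≤ 5 := by
  rw [Sr, Nat.mem_primeFactors]
  exact and_congr_right fun hp => by simp [small hp]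

theorem mem_prs {x y : ℝ} {p : ℕ} (hy : 0 ≤ y) : p ∈ prs x y ↔ p.Prime ∧ x < p ∧ p ≤ y := by
  rw [prs, mem_filter, mem_Icc, Nat.le_floor_iff hy]
  exact ⟨fun h => ⟨h.2.1, h.2.2, h.1.2⟩, fun h => ⟨⟨h.1.one_le, h.2.2⟩, h.1, h.2.1⟩⟩

theorem j0 (H : ℕ → ℂ) : ∑ j ∈ J0 1, (Dj 1 j : ℂ) * H j =
    LF (Sr 1) (fun p => 1 + 1 / p) (fun p => -1 / p) H := by
  have hS : ∀ p ∈ Sr 1, p.Prime := fun p hp => (mem_Sr.1 hp).1
  have hq := sqf _ hS
  symm
  rw [J0, one_mul]
  refine sum_nbij' (fun T => ∏ p ∈ T, p) Nat.primeFactors (fun T hT => ?_) (fun d hd => ?_)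
    (fun T hT => ?_) (fun d hd => ?_) fun T hT => ?_
  · exact Nat.mem_divisors.2 ⟨prod_dvd_prod_of_subset _ _ _ (mem_powerset.1 hT), hq.ne_zero⟩
  · refine mem_powerset.2 ?_
    rw [← Nat.primeFactors_prod hS]
    exact Nat.primeFactors_mono (Nat.dvd_of_mem_divisors hd) hq.ne_zero
  · exact Nat.primeFactors_prod fun p hp => hS p (mem_powerset.1 hT hp)
  · exact Nat.prod_primeFactors_of_squarefree (hq.squarefree_of_dvd (Nat.dvd_of_mem_divisors hd))
  · have hT' : ∀ p ∈ T, p.Prime := fun p hp => hS p (mem_powerset.1 hT hp)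
    congr 1
    rw [Dj, ← prod_sdiff (mem_powerset.1 hT), mul_comm]
    push_cast
    congr 1 <;> refine prod_congr rfl fun p hp => ?_
    · have : (∏ p ∈ T, p).factorization p = 0 := by
        rw [← Finsupp.notMem_support_iff, Nat.support_factorization, Nat.primeFactors_prod hT']
        exact (mem_sdiff.1 hp).2
      simp [this, dl]
    · simp [Nat.factorization_eq_one_of_squarefree (sqf T hT') (hT' p hp) (dvd_prod_of_mem _ hp),
        dl]

theorem main (K : ℕ) (h : ℕ → ℝ) (Y : ℝ) (H : ℕ → ℂ) (hK : (K : ℝ) ≤ Y)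
    (hh : ∀ k, K < k → h k = 0) :
    ∑ m ∈ Icc 1 K, (xw K (wh h) m : ℂ) * H m = ∑ B ∈ (prs 5 Y).powerset, (h (∏ p ∈ B, p) : ℂ) *
      LF B (fun p => 2 / (p - 1)) (fun p => -1 / (p - 1)) H := by
  classical
  have hY : 0 ≤ Y := (Nat.cast_nonneg K).trans hK
  have hP : ∀ B ∈ (prs 5 Y).powerset, ∀ p ∈ B, p.Prime ∧ 5 < p := fun B hB p hp => by
    obtain ⟨a, b, -⟩ := (mem_prs hY).1 (mem_powerset.1 hB hp)
    exact ⟨a, by exact_mod_cast b⟩
  simp only [xw, LF, Complex.ofReal_sum, sum_mul, mul_sum]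
  rw [← sum_product', sum_sigma', ← sum_filter_of_ne
    (s := (prs 5 Y).powerset.sigma fun B => B.powerset) (p := fun x => ∏ p ∈ x.1, p ≤ K)
    fun x _ hx => not_lt.1 fun k => hx (by rw [hh _ k]; simp)]
  symm
  refine sum_of_injOn (fun x => (∏ p ∈ x.2, p, ∏ p ∈ x.1 \ x.2, p)) ?_ ?_ ?_ ?_
  · rintro ⟨B, T⟩ a ⟨B', T'⟩ b e
    simp only [coe_filter, mem_sigma, Set.mem_ofPred_eq, Prod.mk.injEq] at a b e
    have e1 : ∏ p ∈ B, p = ∏ p ∈ B', p := by
      rw [← prod_sdiff (mem_powerset.1 a.1.2), ← prod_sdiff (mem_powerset.1 b.1.2), e.1, e.2]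
    obtain rfl : B = B' := by
      rw [← Nat.primeFactors_prod fun p hp => (hP B a.1.1 p hp).1, e1,
        Nat.primeFactors_prod fun p hp => (hP B' b.1.1 p hp).1]
    obtain rfl : T = T' := by
      rw [← Nat.primeFactors_prod fun p hp => (hP B a.1.1 p (mem_powerset.1 a.1.2 hp)).1, e.1,
        Nat.primeFactors_prod fun p hp => (hP B a.1.1 p (mem_powerset.1 b.1.2 hp)).1]
    rfl
  · rintro ⟨B, T⟩ a
    simp only [coe_filter, mem_sigma, Set.mem_ofPred_eq] at a
    have k : ∀ U ⊆ B, ∏ p ∈ U, p ∈ Icc 1 K := fun U hU => mem_Icc.2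
      ⟨prod_pos fun p hp => (hP B a.1.1 p (hU hp)).1.pos, (Nat.le_of_dvd
        (prod_pos fun p hp => (hP B a.1.1 p hp).1.pos) (prod_dvd_prod_of_subset _ _ _ hU)).trans a.2⟩
    exact mem_coe.2 (mem_product.2 ⟨k _ (mem_powerset.1 a.1.2), k _ sdiff_subset⟩)
  · rintro ⟨m, j⟩ - b
    by_contra c
    have w : wh h (m * j) ≠ 0 := fun e => c (by simp [e])
    unfold wh at w
    split_ifs at w with hs
    swap
    · exact w rfl
    have k : m * j ≤ K := not_lt.1 fun k => w (by rw [hh _ k, mul_zero])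
    have sm : Squarefree m := hs.1.squarefree_of_dvd (dvd_mul_right _ _)
    have sub : m.primeFactors ⊆ (m * j).primeFactors :=
      Nat.primeFactors_mono (dvd_mul_right _ _) hs.1.ne_zero
    refine b ⟨⟨(m * j).primeFactors, m.primeFactors⟩, mem_coe.2 (mem_filter.2 ⟨mem_sigma.2
      ⟨mem_powerset.2 fun p hp => ?_, mem_powerset.2 sub⟩, ?_⟩), Prod.ext ?_ ?_⟩
    · obtain ⟨p1, p2, p3⟩ := Nat.mem_primeFactors.1 hp
      refine (mem_prs hY).2 ⟨p1, ?_, ?_⟩
      · have : ¬p ≤ 5 := fun k =>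
          p1.one_lt.ne' (Nat.eq_one_of_dvd_coprimes hs.2 p2 ((small p1).2 k))
        exact_mod_cast not_le.1 this
      · exact (Nat.cast_le.2 ((Nat.le_of_dvd (Nat.pos_of_ne_zero p3) p2).trans k)).trans hK
    · exact (Nat.prod_primeFactors_of_squarefree hs.1).le.trans k
    · exact Nat.prod_primeFactors_of_squarefree sm
    · have := prod_sdiff (f := fun p => p) sub
      rw [Nat.prod_primeFactors_of_squarefree hs.1, Nat.prod_primeFactors_of_squarefree sm] at this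
      exact mul_right_cancel₀ sm.ne_zero (this.trans (mul_comm _ _))
  · rintro ⟨B, T⟩ a
    simp only [mem_filter, mem_sigma] at a
    have hB := hP B a.1.1
    have hT := mem_powerset.1 a.1.2
    have e : (∏ p ∈ T, p) * ∏ p ∈ B \ T, p = ∏ p ∈ B, p := by rw [mul_comm, prod_sdiff hT]
    have c : (∏ p ∈ B, p).Coprime 30 := Nat.Coprime.prod_left fun p hp =>
      (Nat.Prime.coprime_iff_not_dvd (hB p hp).1).2 fun k =>
        absurd ((small (hB p hp).1).1 k) (not_le.2 (hB p hp).2)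
    have s := sqf B fun p hp => (hB p hp).1
    have n : ((∏ p ∈ B, p : ℕ) : ℂ) ≠ 0 := Nat.cast_ne_zero.2 s.ne_zero
    dsimp only
    rw [← Nat.cast_mul, e, wh, if_pos ⟨s, c⟩]
    simp only [Complex.ofReal_div, Complex.ofReal_mul, Complex.ofReal_intCast,
      Complex.ofReal_natCast]
    rw [(vals T fun p hp => (hB p (hT hp)).1).1,
      (vals (B \ T) fun p hp => (hB p (mem_sdiff.1 hp).1).1).2.1,
      (vals B fun p hp => (hB p hp).1).2.2, prod_div_distrib, prod_div_distrib,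
      ← prod_sdiff hT (f := fun p : ℕ => (p : ℂ) - 1)]
    field_simp

end Fx1A

open Fx1A in
theorem fx1 : Fx1S := by
  classical
  intro K h Y G h5 hK hh
  have hY : 0 ≤ Y := by linarith
  have hd : Disjoint (Sr 1) (prs 5 Y) := disjoint_left.2 fun p a b => by
    have c : (p : ℝ) ≤ 5 := by exact_mod_cast (mem_Sr.1 a).2
    linarith [((mem_prs hY).1 b).2.1]
  have hu : pz Y = Sr 1 ∪ prs 5 Y := by
    ext p
    rw [pz, mem_union, mem_Sr, mem_prs hY, mem_prs hY]
    constructor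
    · rintro ⟨a, -, c⟩
      rcases le_or_gt p 5 with k | k
      · exact .inl ⟨a, k⟩
      · exact .inr ⟨a, by exact_mod_cast k, c⟩
    · rintro (⟨a, b⟩ | ⟨a, -, c⟩)
      · exact ⟨a, by exact_mod_cast a.one_lt, le_trans (by exact_mod_cast b) h5⟩
      · exact ⟨a, by exact_mod_cast a.one_lt, c⟩
  rw [sum_product]
  have e : ∀ j, ∑ m ∈ Icc 1 K, ((Dj 1 j * xw K (wh h) m : ℝ) : ℂ) * G (nn (j, m)) =
      ∑ B ∈ (prs 5 Y).powerset, (h (∏ p ∈ B, p) : ℂ) * ((Dj 1 j : ℂ) *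
        LF B (fun p => 2 / (p - 1)) (fun p => -1 / (p - 1)) fun m => G (j * m)) := fun j => by
    simp only [mul_left_comm _ (Dj 1 j : ℂ)]
    rw [← mul_sum, ← main K h Y _ hK hh, mul_sum]
    simp only [Complex.ofReal_mul, mul_assoc, nn]
  rw [sum_congr rfl fun j _ => e j, sum_comm]
  refine sum_congr rfl fun B hB => ?_
  have hB' := mem_powerset.1 hB
  have k : ∀ p ∈ prs 5 Y, ¬p ≤ 5 := fun p hp a =>
    disjoint_left.1 hd (mem_Sr.2 ⟨((mem_prs hY).1 hp).1, a⟩) hp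
  rw [← mul_sum, j0, hu, LF_union hd]
  congr 1
  symm
  refine (LF_congr (fun p hp => ⟨if_pos (mem_Sr.1 hp).2, if_pos (mem_Sr.1 hp).2⟩) _).trans ?_
  congr 1
  funext a
  conv_lhs => rw [← sdiff_union_of_subset hB']
  rw [LF_union sdiff_disjoint]
  refine (LF_congr (e₀ := fun _ => 1) (e₁ := fun _ => 0) (fun p hp => ?_) _).trans ?_
  · simp [k p (mem_sdiff.1 hp).1, (mem_sdiff.1 hp).2]
  · rw [LF_triv]
    simp only [one_mul]
    exact LF_congr (fun p hp => by simp [k p (hB' hp), hp]) _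

end Pool.Agent.MP_20b2fd_nt.H39
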