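import Pool.Agent.MP_20b2fd_nt.H39.SpecG

set_option autoImplicit false

namespace Pool.Agent.MP_20b2fd_nt.H39

open MeasureTheory Complex Finset
open Pool.Agent.MP_20b2fd_nt.H38
open scoped Real

theorem jiOf : JiOf := by
  intro hFl hAv f R b Λ α hf hΛ hα
  obtain ⟨h1, -, h3⟩ := hFl f R hf.1 hf.2.1 hf.2.2
  have hre : ∀ ξ : ℝ, (ex Λ b ξ - α).re = b / Λ - α.re := fun ξ => by
    simp [ex, div_ofReal_re]
  have hneg : b / Λ - α.re < 0 := by linarith
  have hc : Continuous fun ξ : ℝ => ex Λ b ξ := by unfold ex; fun_prop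
  constructor
  · obtain ⟨C, -, hC⟩ := (hAv f R b hf).2.2.2 0
    refine (hC _ (1 / (α.re - b / Λ)) fun ξ => ?_).2.1
      (continuous_const.div (continuous_const.sub hc) fun ξ h => ?_)
    · rw [pow_zero, mul_one, norm_div, norm_one]
      refine one_div_le_one_div_of_le (by linarith) (le_trans ?_ (re_le_norm _))
      have := hre ξ
      rw [sub_re] at this ⊢
      linarith
    · have := hre ξ
      rw [← neg_sub, h, neg_zero, zero_re] at this
      linarith
  have hl : Integrable fun ξ : ℝ => lap f (b + ξ * I) := by simpa using (h3 b 0).1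
  have hi : Integrable (Function.uncurry fun (ξ t : ℝ) =>
      lap f (b + ξ * I) * exp ((ex Λ b ξ - α) * t))
      (volume.prod (volume.restrict (Set.Ioi 0))) := by
    refine (hl.norm.mul_prod (integrableOn_exp_mul_Ioi hneg 0)).mono'
      (Continuous.aestronglyMeasurable ?_) (Filter.Eventually.of_forall fun p => le_of_eq ?_)
    · have := h1.continuous
      unfold Function.uncurry
      fun_prop
    · simp only [Function.uncurry, norm_mul, norm_exp, re_mul_ofReal, hre]
  have e1 : ∀ ξ : ℝ, lap f (b + ξ * I) * (1 / (α - ex Λ b ξ)) =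
      ∫ t in Set.Ioi (0 : ℝ), lap f (b + ξ * I) * exp ((ex Λ b ξ - α) * t) := fun ξ => by
    rw [integral_const_mul, integral_exp_mul_complex_Ioi (by rw [hre]; exact hneg), ← neg_sub α,
      neg_div_neg_eq]
    simp
  rw [Av]
  simp_rw [e1]
  rw [integral_integral_swap hi, ← integral_const_mul]
  refine integral_congr_ae (Filter.Eventually.of_forall fun t => ?_)
  simp only
  rw [(h3 b (t / Λ)).2, mul_left_comm, ← integral_const_mul (exp _)]
  congr 2
  funext ξ
  rw [mul_left_comm, ← exp_add, ex]
  congr 2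
  push_cast
  ring

end Pool.Agent.MP_20b2fd_nt.H39
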