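import Pool.Agent.MP_20b2fd_nt.H39.SpecM

/-! The local factor of the mixed moment. -/

set_option autoImplicit false

namespace Pool.Agent.MP_20b2fd_nt.H39

open Complex

namespace LxA

/-- two bounded families that differ by a multiple of `ε` -/
def Cl {X : Type} (ε : X → ℝ) (F f : X → ℂ) : Prop :=
  ∃ M K : ℝ, 0 ≤ M ∧ 0 ≤ K ∧ ∀ x, ‖F x‖ ≤ M ∧ ‖f x‖ ≤ M ∧ ‖F x - f x‖ ≤ K * ε x

section
variable {X : Type} {ε : X → ℝ} {F f G g : X → ℂ}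

theorem Cl.same (M : ℝ) (hM : 0 ≤ M) (h : ∀ x, ‖F x‖ ≤ M) : Cl ε F F :=
  ⟨M, 0, hM, le_rfl, fun x => ⟨h x, h x, by simp⟩⟩

theorem Cl.const (a : ℂ) : Cl ε (fun _ : X => a) (fun _ => a) :=
  Cl.same ‖a‖ (norm_nonneg a) fun _ => le_rfl

theorem Cl.add (h : Cl ε F f) (h' : Cl ε G g) :
    Cl ε (fun x => F x + G x) (fun x => f x + g x) := by
  obtain ⟨M, K, hM, hK, h⟩ := h
  obtain ⟨M', K', hM', hK', h'⟩ := h'
  refine ⟨M + M', K + K', by positivity, by positivity, fun x => ?_⟩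
  obtain ⟨a, b, c⟩ := h x
  obtain ⟨a', b', c'⟩ := h' x
  refine ⟨(norm_add_le _ _).trans (add_le_add a a'), (norm_add_le _ _).trans (add_le_add b b'), ?_⟩
  have e : F x + G x - (f x + g x) = (F x - f x) + (G x - g x) := by ring
  rw [e]
  refine (norm_add_le _ _).trans ?_
  linarith

theorem Cl.sub (h : Cl ε F f) (h' : Cl ε G g) :
    Cl ε (fun x => F x - G x) (fun x => f x - g x) := by
  obtain ⟨M, K, hM, hK, h⟩ := h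
  obtain ⟨M', K', hM', hK', h'⟩ := h'
  refine ⟨M + M', K + K', by positivity, by positivity, fun x => ?_⟩
  obtain ⟨a, b, c⟩ := h x
  obtain ⟨a', b', c'⟩ := h' x
  refine ⟨(norm_sub_le _ _).trans (add_le_add a a'), (norm_sub_le _ _).trans (add_le_add b b'), ?_⟩
  have e : F x - G x - (f x - g x) = (F x - f x) - (G x - g x) := by ring
  rw [e]
  refine (norm_sub_le _ _).trans ?_
  linarith

theorem Cl.mul (h : Cl ε F f) (h' : Cl ε G g) :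
    Cl ε (fun x => F x * G x) (fun x => f x * g x) := by
  obtain ⟨M, K, hM, hK, h⟩ := h
  obtain ⟨M', K', hM', hK', h'⟩ := h'
  refine ⟨M * M', M * K' + K * M', by positivity, by positivity, fun x => ?_⟩
  obtain ⟨a, b, c⟩ := h x
  obtain ⟨a', b', c'⟩ := h' x
  refine ⟨?_, ?_, ?_⟩
  · rw [norm_mul]; exact mul_le_mul a a' (norm_nonneg _) hM
  · rw [norm_mul]; exact mul_le_mul b b' (norm_nonneg _) hM
  · have e : F x * G x - f x * g x = F x * (G x - g x) + (F x - f x) * g x := by ring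
    rw [e]
    refine (norm_add_le _ _).trans ?_
    rw [norm_mul, norm_mul]
    have h1 : ‖F x‖ * ‖G x - g x‖ ≤ M * (K' * ε x) := mul_le_mul a c' (norm_nonneg _) hM
    have h2 : ‖F x - f x‖ * ‖g x‖ ≤ (K * ε x) * M' :=
      mul_le_mul c b' (norm_nonneg _) ((norm_nonneg _).trans c)
    nlinarith

theorem Cl.inv (h : Cl ε F f) (h1 : ∀ x, 1 / 2 ≤ ‖F x‖) (h2 : ∀ x, 1 / 2 ≤ ‖f x‖) :
    Cl ε (fun x => (F x)⁻¹) (fun x => (f x)⁻¹) := by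
  obtain ⟨M, K, hM, hK, h⟩ := h
  refine ⟨2, 4 * K, by positivity, by positivity, fun x => ?_⟩
  obtain ⟨-, -, c⟩ := h x
  have a := h1 x
  have b := h2 x
  have a0 : 0 < ‖F x‖ := by linarith
  have b0 : 0 < ‖f x‖ := by linarith
  have a1 : ‖(F x)⁻¹‖ ≤ 2 := by
    rw [norm_inv]; exact (inv_le_comm₀ a0 (by norm_num)).2 (by linarith)
  have b1 : ‖(f x)⁻¹‖ ≤ 2 := by
    rw [norm_inv]; exact (inv_le_comm₀ b0 (by norm_num)).2 (by linarith)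
  refine ⟨a1, b1, ?_⟩
  have hF : F x ≠ 0 := norm_pos_iff.1 a0
  have hf : f x ≠ 0 := norm_pos_iff.1 b0
  have e : (F x)⁻¹ - (f x)⁻¹ = -((F x)⁻¹ * (f x)⁻¹ * (F x - f x)) := by
    field_simp
    ring
  rw [e, norm_neg, norm_mul, norm_mul]
  have h3 : ‖(F x)⁻¹‖ * ‖(f x)⁻¹‖ ≤ 2 * 2 := mul_le_mul a1 b1 (norm_nonneg _) (by norm_num)
  have h4 := mul_le_mul h3 c (norm_nonneg _) (by norm_num)
  linarith

theorem Cl.scale {q : X → ℂ} (hq : ∀ x, ‖q x‖ ≤ 1) (h : Cl ε F f) :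
    Cl (fun x => ε x * ‖q x‖) (fun x => q x * F x) (fun x => q x * f x) := by
  obtain ⟨M, K, hM, hK, h⟩ := h
  refine ⟨M, K, hM, hK, fun x => ?_⟩
  obtain ⟨a, b, c⟩ := h x
  have q0 := norm_nonneg (q x)
  have q1 := hq x
  refine ⟨?_, ?_, ?_⟩
  · rw [norm_mul]; nlinarith [norm_nonneg (F x)]
  · rw [norm_mul]; nlinarith [norm_nonneg (f x)]
  · rw [← mul_sub, norm_mul]
    have := mul_le_mul_of_nonneg_left c q0
    linarith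

end

theorem half_le (q a : ℂ) (hq : ‖q‖ ≤ 1 / 2) (ha : ‖a‖ ≤ 1) : 1 / 2 ≤ ‖1 - q * a‖ := by
  have h1 : ‖q * a‖ ≤ 1 / 2 := by
    rw [norm_mul]; nlinarith [norm_nonneg q, norm_nonneg a]
  have h2 := norm_sub_norm_le (1 : ℂ) (q * a)
  rw [norm_one] at h2
  linarith

/-- the data of the first case -/
structure P where
  q : ℂ
  s : ℂ
  c : ℂ
  W : ℂ
  V : ℂ
  y₁ : ℂ
  y₂ : ℂ
  y₃ : ℂ
  hq : ‖q‖ ≤ 1 / 2
  hs : ‖s‖ ≤ 2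
  hc : ‖c‖ ≤ 1
  hW : ‖W‖ ≤ 1
  hV : ‖V‖ ≤ 1
  h1 : ‖y₁‖ ≤ 3
  h2 : ‖y₂‖ ≤ 3
  h3 : ‖y₃‖ ≤ 3
  g1 : ‖W * y₁‖ ≤ 1
  g2 : ‖W * y₂‖ ≤ 1
  g3 : ‖W * y₃‖ ≤ 1

noncomputable def P.e (x : P) : ℝ :=
  ‖x.W - 1‖ + ‖x.V - 1‖ + ‖x.y₁ - 1‖ + ‖x.y₂ - 1‖ + ‖x.y₃ - 1‖

theorem atom (F : P → ℂ) (h : ∀ x, ‖F x‖ ≤ 3) (h' : ∀ x, ‖F x - 1‖ ≤ x.e) :
    Cl P.e F fun _ => 1 :=
  ⟨3, 1, by norm_num, by norm_num, fun x => ⟨h x, by simp, by simpa using h' x⟩⟩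

theorem aW : Cl P.e (fun x => x.W) fun _ => 1 :=
  atom _ (fun x => by linarith [x.hW]) fun x => by
    unfold P.e
    linarith [norm_nonneg (x.W - 1), norm_nonneg (x.V - 1), norm_nonneg (x.y₁ - 1),
      norm_nonneg (x.y₂ - 1), norm_nonneg (x.y₃ - 1)]

theorem aV : Cl P.e (fun x => x.V) fun _ => 1 :=
  atom _ (fun x => by linarith [x.hV]) fun x => by
    unfold P.e
    linarith [norm_nonneg (x.W - 1), norm_nonneg (x.V - 1), norm_nonneg (x.y₁ - 1),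
      norm_nonneg (x.y₂ - 1), norm_nonneg (x.y₃ - 1)]

theorem a1 : Cl P.e (fun x => x.y₁) fun _ => 1 :=
  atom _ (fun x => x.h1) fun x => by
    unfold P.e
    linarith [norm_nonneg (x.W - 1), norm_nonneg (x.V - 1), norm_nonneg (x.y₁ - 1),
      norm_nonneg (x.y₂ - 1), norm_nonneg (x.y₃ - 1)]

theorem a2 : Cl P.e (fun x => x.y₂) fun _ => 1 :=
  atom _ (fun x => x.h2) fun x => by
    unfold P.e
    linarith [norm_nonneg (x.W - 1), norm_nonneg (x.V - 1), norm_nonneg (x.y₁ - 1),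
      norm_nonneg (x.y₂ - 1), norm_nonneg (x.y₃ - 1)]

theorem a3 : Cl P.e (fun x => x.y₃) fun _ => 1 :=
  atom _ (fun x => x.h3) fun x => by
    unfold P.e
    linarith [norm_nonneg (x.W - 1), norm_nonneg (x.V - 1), norm_nonneg (x.y₁ - 1),
      norm_nonneg (x.y₂ - 1), norm_nonneg (x.y₃ - 1)]

theorem aq (ε : P → ℝ) : Cl ε (fun x => x.q) fun x => x.q :=
  Cl.same 1 (by norm_num) fun x => by linarith [x.hq]

theorem as (ε : P → ℝ) : Cl ε (fun x => x.s) fun x => x.s :=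
  Cl.same 2 (by norm_num) fun x => x.hs

theorem ac (ε : P → ℝ) : Cl ε (fun x => x.c) fun x => x.c :=
  Cl.same 1 (by norm_num) fun x => x.hc

noncomputable def f1 (q c y₁ y₂ y₃ : ℂ) : ℂ := y₁ + y₂ + c * y₃ - y₁ * y₂ * (c * y₃) * q

noncomputable def f2 (q c y₁ y₂ y₃ : ℂ) : ℂ :=
  y₁ * y₁ + y₂ * y₂ + (c * y₃) * (c * y₃) + y₁ * y₂ + y₁ * (c * y₃) + y₂ * (c * y₃) -
    y₁ * y₂ * (c * y₃) * (y₁ + y₂ + c * y₃) * q

noncomputable def l1 (q s c W V y₁ y₂ y₃ : ℂ) : ℂ :=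
  2 * W * s - ((1 + 2 * W * q * s) * (1 + c) * V + W * s) * f1 q c y₁ y₂ y₃ +
    W * s * (1 + c) * V * (q * f2 q c y₁ y₂ y₃ + 1)

noncomputable def l2 (q c y₁ y₂ y₃ : ℂ) : ℂ :=
  3 + q - 2 * (1 + q) * f1 q c y₁ y₂ y₃ + q * f2 q c y₁ y₂ y₃

noncomputable def tt (q c W y₁ y₂ y₃ L : ℂ) : ℂ :=
  (1 + q * L) * ((1 - q * W) * (1 - q * W)) *
    ((1 - q * (W * y₁))⁻¹ * (1 - q * (W * y₂))⁻¹ * (1 - q * (c * (W * y₃)))⁻¹)

theorem cf1 : Cl P.e (fun x => f1 x.q x.c x.y₁ x.y₂ x.y₃) fun x => f1 x.q x.c 1 1 1 :=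
  ((a1.add a2).add ((ac _).mul a3)).sub (((a1.mul a2).mul ((ac _).mul a3)).mul (aq _))

theorem cf2 : Cl P.e (fun x => f2 x.q x.c x.y₁ x.y₂ x.y₃) fun x => f2 x.q x.c 1 1 1 :=
  have b := (ac P.e).mul a3
  ((((((a1.mul a1).add (a2.mul a2)).add (b.mul b)).add (a1.mul a2)).add (a1.mul b)).add
    (a2.mul b)).sub ((((a1.mul a2).mul b).mul ((a1.add a2).add b)).mul (aq _))

theorem cl1 : Cl P.e (fun x => l1 x.q x.s x.c x.W x.V x.y₁ x.y₂ x.y₃)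
    fun x => l1 x.q x.s x.c 1 1 1 1 1 :=
  have o := Cl.const (ε := P.e) 1
  have t := (Cl.const (ε := P.e) 2).mul aW
  have oc := o.add (ac P.e)
  ((t.mul (as _)).sub (((((o.add ((t.mul (aq _)).mul (as _))).mul oc).mul aV).add
    (aW.mul (as _))).mul cf1)).add
    ((((aW.mul (as _)).mul oc).mul aV).mul (((aq _).mul cf2).add o))

theorem cl2 : Cl P.e (fun x => l2 x.q x.c x.y₁ x.y₂ x.y₃) fun x => l2 x.q x.c 1 1 1 :=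
  (((Cl.const 3).add (aq _)).sub (((Cl.const 2).mul ((Cl.const 1).add (aq _))).mul cf1)).add
    ((aq _).mul cf2)

theorem ctt (L l : P → ℂ) (h : Cl P.e L l) :
    Cl (fun x => x.e * ‖x.q‖) (fun x => tt x.q x.c x.W x.y₁ x.y₂ x.y₃ (L x))
      fun x => tt x.q x.c 1 1 1 1 (l x) := by
  have hq : ∀ x : P, ‖x.q‖ ≤ 1 := fun x => by linarith [x.hq]
  have o := Cl.const (ε := fun x : P => x.e * ‖x.q‖) 1
  have w := o.sub (aW.scale hq)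
  have i1 := (o.sub ((aW.mul a1).scale hq)).inv (fun x => half_le _ _ x.hq x.g1)
    (fun x => half_le _ _ x.hq (by simp))
  have i2 := (o.sub ((aW.mul a2).scale hq)).inv (fun x => half_le _ _ x.hq x.g2)
    (fun x => half_le _ _ x.hq (by simp))
  have i3 := (o.sub (((ac _).mul (aW.mul a3)).scale hq)).inv
    (fun x => half_le _ _ x.hq (by
      rw [norm_mul]; nlinarith [x.hc, x.g3, norm_nonneg x.c, norm_nonneg (x.W * x.y₃)]))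
    (fun x => half_le _ _ x.hq (by simpa using x.hc))
  exact ((o.add (h.scale hq)).mul (w.mul w)).mul ((i1.mul i2).mul i3)

/-- the data of the second case -/
structure Q where
  q : ℂ
  s : ℂ
  c : ℂ
  a : ℂ
  a₁ : ℂ
  a₂ : ℂ
  a₃ : ℂ
  b : ℂ
  hq : ‖q‖ ≤ 1 / 2
  hs : ‖s‖ ≤ 2
  hc : ‖c‖ ≤ 1
  ha : ‖a‖ ≤ 1
  h1 : ‖a₁‖ ≤ 1
  h2 : ‖a₂‖ ≤ 1
  h3 : ‖a₃‖ ≤ 1
  hb : ‖b‖ ≤ 1

noncomputable def uu (c a a₁ a₂ a₃ : ℂ) : ℂ := 2 * a - a₁ - a₂ - c * a₃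

noncomputable def vv (q s c a a₁ a₂ a₃ b : ℂ) : ℂ := c * b + s * uu c a a₁ a₂ a₃ + s * c * b * q

noncomputable def hh (q c a a₁ a₂ a₃ u v : ℂ) : ℂ :=
  v - 2 * a * u + a * a + q * (a * a * u - 2 * a * v) + q * q * (a * a * v) -
    (a₁ * a₂ + a₁ * (c * a₃) + a₂ * (c * a₃) - q * (a₁ * a₂ * (c * a₃)))

theorem hbd : ∃ M : ℝ, 0 ≤ M ∧ ∀ x : Q,
    ‖hh x.q x.c x.a x.a₁ x.a₂ x.a₃ (uu x.c x.a x.a₁ x.a₂ x.a₃)
      (vv x.q x.s x.c x.a x.a₁ x.a₂ x.a₃ x.b) *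
      ((1 - x.q * x.a₁)⁻¹ * (1 - x.q * x.a₂)⁻¹ * (1 - x.q * (x.c * x.a₃))⁻¹)‖ ≤ M := by
  have q : Cl (fun _ => 0) (fun x : Q => x.q) fun x => x.q :=
    Cl.same 1 (by norm_num) fun x => by linarith [x.hq]
  have s : Cl (fun _ => 0) (fun x : Q => x.s) fun x => x.s := Cl.same 2 (by norm_num) fun x => x.hs
  have c : Cl (fun _ => 0) (fun x : Q => x.c) fun x => x.c := Cl.same 1 (by norm_num) fun x => x.hc
  have a : Cl (fun _ => 0) (fun x : Q => x.a) fun x => x.a := Cl.same 1 (by norm_num) fun x => x.ha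
  have b : Cl (fun _ => 0) (fun x : Q => x.b) fun x => x.b := Cl.same 1 (by norm_num) fun x => x.hb
  have a₁ : Cl (fun _ => 0) (fun x : Q => x.a₁) fun x => x.a₁ :=
    Cl.same 1 (by norm_num) fun x => x.h1
  have a₂ : Cl (fun _ => 0) (fun x : Q => x.a₂) fun x => x.a₂ :=
    Cl.same 1 (by norm_num) fun x => x.h2
  have a₃ : Cl (fun _ => 0) (fun x : Q => x.a₃) fun x => x.a₃ :=
    Cl.same 1 (by norm_num) fun x => x.h3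
  have o := Cl.const (ε := fun _ : Q => 0) 1
  have t := (Cl.const (ε := fun _ : Q => 0) 2).mul a
  have d := c.mul a₃
  have u : Cl (fun _ => 0) (fun x : Q => uu x.c x.a x.a₁ x.a₂ x.a₃)
      fun x => uu x.c x.a x.a₁ x.a₂ x.a₃ := ((t.sub a₁).sub a₂).sub d
  have v : Cl (fun _ => 0) (fun x : Q => vv x.q x.s x.c x.a x.a₁ x.a₂ x.a₃ x.b)
      fun x => vv x.q x.s x.c x.a x.a₁ x.a₂ x.a₃ x.b :=
    ((c.mul b).add (s.mul u)).add (((s.mul c).mul b).mul q)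
  have aa := a.mul a
  have h := (((((v.sub (t.mul u)).add aa).add (q.mul ((aa.mul u).sub (t.mul v)))).add
    ((q.mul q).mul (aa.mul v))).sub ((((a₁.mul a₂).add (a₁.mul d)).add (a₂.mul d)).sub
      (q.mul ((a₁.mul a₂).mul d))))
  have e3 : ∀ x : Q, 1 / 2 ≤ ‖1 - x.q * (x.c * x.a₃)‖ := fun x => half_le _ _ x.hq (by
    rw [norm_mul]; nlinarith [x.hc, x.h3, norm_nonneg x.c, norm_nonneg x.a₃])
  have i1 := (o.sub (q.mul a₁)).inv (fun x => half_le _ _ x.hq x.h1) fun x => half_le _ _ x.hq x.h1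
  have i2 := (o.sub (q.mul a₂)).inv (fun x => half_le _ _ x.hq x.h2) fun x => half_le _ _ x.hq x.h2
  have i3 := (o.sub (q.mul d)).inv e3 e3
  obtain ⟨M, K, hM, -, H⟩ := h.mul ((i1.mul i2).mul i3)
  exact ⟨M, hM, fun x => (H x).1⟩

theorem nq (p : ℕ) : ‖(p : ℂ)⁻¹‖ = 1 / (p : ℝ) := by
  rw [norm_inv, Complex.norm_natCast, one_div]

theorem nq2 (p : ℕ) (hp : 2 ≤ p) : ‖(p : ℂ)⁻¹‖ ≤ 1 / 2 := by
  rw [nq]
  exact one_div_le_one_div_of_le (by norm_num) (by exact_mod_cast hp)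

theorem ns (p : ℕ) (hp : 2 ≤ p) : ‖(p : ℂ) / (p - 1)‖ ≤ 2 := by
  have h : (2 : ℝ) ≤ p := by exact_mod_cast hp
  have e : (p : ℂ) / (p - 1) = (((p : ℝ) / (p - 1) : ℝ) : ℂ) := by push_cast; rfl
  rw [e, Complex.norm_real, Real.norm_eq_abs, abs_of_nonneg (div_nonneg (by linarith) (by linarith)),
    div_le_iff₀ (by linarith)]
  linarith

theorem tx_eq (z : ℝ) (p : ℕ) (c W V y₁ y₂ y₃ L : ℂ)
    (h : lb p (x0 p W) (x1 p W) (m0 p) (n1 z p c V) (ap1 p y₁ y₂ (c * y₃))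
      (ap2 p y₁ y₂ (c * y₃)) = 1 + (p : ℂ)⁻¹ * L) :
    tx z p c W V y₁ y₂ y₃ = tt (p : ℂ)⁻¹ c W y₁ y₂ y₃ L := by
  unfold tx tt
  have e1 : 1 - W * y₁ / p = 1 - (p : ℂ)⁻¹ * (W * y₁) := by ring
  have e2 : 1 - W * y₂ / p = 1 - (p : ℂ)⁻¹ * (W * y₂) := by ring
  have e3 : 1 - c * W * y₃ / p = 1 - (p : ℂ)⁻¹ * (c * (W * y₃)) := by ring
  have e4 : (1 - W / p) ^ 2 = (1 - (p : ℂ)⁻¹ * W) * (1 - (p : ℂ)⁻¹ * W) := by ring
  rw [h, e1, e2, e3, e4, div_eq_mul_inv, mul_inv, mul_inv]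

theorem ne0 (p : ℕ) (hp : 2 ≤ p) : (p : ℂ) ≠ 0 ∧ (p : ℂ) - 1 ≠ 0 := by
  refine ⟨by exact_mod_cast (by omega : p ≠ 0), ?_⟩
  rw [sub_ne_zero]
  exact_mod_cast (by omega : p ≠ 1)

theorem tx1 (z : ℝ) (p : ℕ) (c W V y₁ y₂ y₃ : ℂ) (h5 : ¬ p ≤ 5) (hz : (p : ℝ) ≤ z) :
    tx z p c W V y₁ y₂ y₃ =
      tt (p : ℂ)⁻¹ c W y₁ y₂ y₃ (l1 (p : ℂ)⁻¹ (p / (p - 1)) c W V y₁ y₂ y₃) := by
  obtain ⟨h0, h1⟩ := ne0 p (by omega)
  apply tx_eq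
  simp only [lb, x0, x1, m0, n1, ap1, ap2, l1, f1, f2, if_neg h5, if_pos hz, Complex.ofReal_one]
  field_simp
  ring

theorem tx2 (z : ℝ) (p : ℕ) (c W V y₁ y₂ y₃ : ℂ) (hp : 2 ≤ p) (h5 : p ≤ 5) :
    tx z p c W V y₁ y₂ y₃ = tt (p : ℂ)⁻¹ c W y₁ y₂ y₃ (l2 (p : ℂ)⁻¹ c y₁ y₂ y₃) := by
  obtain ⟨h0, h1⟩ := ne0 p hp
  apply tx_eq
  simp only [lb, x0, x1, m0, n1, ap1, ap2, l2, f1, f2, if_pos h5]
  push_cast
  field_simp
  ring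

theorem nz (q a : ℂ) (hq : ‖q‖ ≤ 1 / 2) (ha : ‖a‖ ≤ 1) : 1 - q * a ≠ 0 :=
  norm_pos_iff.1 (by linarith [half_le q a hq ha])

theorem tt_one (q c L T : ℂ) (hq : ‖q‖ ≤ 1 / 2) (hc : ‖c‖ ≤ 1)
    (h : 1 + q * L = T * (1 - q * c)) : tt q c 1 1 1 1 L = T := by
  have h1 := nz q 1 hq (by simp)
  have h2 := nz q c hq hc
  unfold tt
  simp only [mul_one] at h1 ⊢
  rw [h]
  field_simp

theorem tx3 (z : ℝ) (p : ℕ) (c W V y₁ y₂ y₃ : ℂ) (h5 : ¬ p ≤ 5) (hz : ¬ (p : ℝ) ≤ z)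
    (hc : ‖c‖ ≤ 1) (g1 : ‖W * y₁‖ ≤ 1) (g2 : ‖W * y₂‖ ≤ 1) (g3 : ‖W * y₃‖ ≤ 1) :
    tx z p c W V y₁ y₂ y₃ - 1 = (p : ℂ)⁻¹ * (p : ℂ)⁻¹ *
      (hh (p : ℂ)⁻¹ c W (W * y₁) (W * y₂) (W * y₃) (uu c W (W * y₁) (W * y₂) (W * y₃))
        (vv (p : ℂ)⁻¹ (p / (p - 1)) c W (W * y₁) (W * y₂) (W * y₃) (W * y₁ * y₂ * y₃)) *
      ((1 - (p : ℂ)⁻¹ * (W * y₁))⁻¹ * (1 - (p : ℂ)⁻¹ * (W * y₂))⁻¹ *
        (1 - (p : ℂ)⁻¹ * (c * (W * y₃)))⁻¹)) := by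
  obtain ⟨h0, h1⟩ := ne0 p (by omega)
  have hq := nq2 p (by omega)
  have e : tx z p c W V y₁ y₂ y₃ = tt (p : ℂ)⁻¹ c W y₁ y₂ y₃ (uu c W (W * y₁) (W * y₂) (W * y₃) +
      (p : ℂ)⁻¹ * vv (p : ℂ)⁻¹ (p / (p - 1)) c W (W * y₁) (W * y₂) (W * y₃) (W * y₁ * y₂ * y₃)) := by
    apply tx_eq
    simp only [lb, x0, x1, m0, n1, ap1, ap2, uu, vv, if_neg h5, if_neg hz, Complex.ofReal_one]
    field_simp
    ring
  have n1 := nz _ _ hq g1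
  have n2 := nz _ _ hq g2
  have n3 := nz _ (c * (W * y₃)) hq (by
    rw [norm_mul]; nlinarith [norm_nonneg c, norm_nonneg (W * y₃)])
  rw [e]
  have eu : uu c W (W * y₁) (W * y₂) (W * y₃) = 2 * W - W * y₁ - W * y₂ - c * (W * y₃) := rfl
  generalize vv (p : ℂ)⁻¹ (p / (p - 1)) c W (W * y₁) (W * y₂) (W * y₃) (W * y₁ * y₂ * y₃) = v
  unfold tt hh
  rw [eu]
  generalize (p : ℂ)⁻¹ = q at n1 n2 n3 ⊢
  generalize W * y₁ = a₁ at n1 n2 n3 ⊢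
  generalize W * y₂ = a₂ at n1 n2 n3 ⊢
  generalize c * (W * y₃) = a₃ at n1 n2 n3 ⊢
  have k : (1 - q * a₁) * (1 - q * a₂) * (1 - q * a₃) *
      ((1 - q * a₁)⁻¹ * (1 - q * a₂)⁻¹ * (1 - q * a₃)⁻¹) = 1 := by
    field_simp
  generalize (1 - q * a₁)⁻¹ * (1 - q * a₂)⁻¹ * (1 - q * a₃)⁻¹ = D at k ⊢
  linear_combination k

end LxA

open LxA in
theorem lx : LxS := by
  obtain ⟨M1, K1, -, hK1, H1⟩ := ctt _ _ cl1
  obtain ⟨M2, K2, -, hK2, H2⟩ := ctt _ _ cl2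
  obtain ⟨M, hM, H3⟩ := hbd
  refine ⟨1 + 4 * K1 + 4 * K2 + M, by linarith, ?_⟩
  intro z c p W V y₁ y₂ y₃ hp hz hc hW g1 g2 g3
  have hp2 := hp.two_le
  have hpr : (2 : ℝ) ≤ p := by exact_mod_cast hp2
  have hc1 : |c| ≤ 1 := by rcases hc with h | h | h <;> simp [h]
  have hcn : ‖(c : ℂ)‖ ≤ 1 := by rw [Complex.norm_real]; exact hc1
  obtain ⟨h0, h1⟩ := ne0 p hp2
  refine ⟨fun hpz hV k1 k2 k3 => ?_, fun hzp hb => ?_⟩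
  · let x : P := ⟨(p : ℂ)⁻¹, p / (p - 1), c, W, V, y₁, y₂, y₃, nq2 p hp2, ns p hp2, hcn, hW, hV,
      k1, k2, k3, g1, g2, g3⟩
    have he : x.e * ‖x.q‖ = (‖W - 1‖ + ‖V - 1‖ + ‖y₁ - 1‖ + ‖y₂ - 1‖ + ‖y₃ - 1‖) / p := by
      show (‖W - 1‖ + ‖V - 1‖ + ‖y₁ - 1‖ + ‖y₂ - 1‖ + ‖y₃ - 1‖) * ‖(p : ℂ)⁻¹‖ = _
      rw [nq]; ring
    have hE : 0 ≤ (‖W - 1‖ + ‖V - 1‖ + ‖y₁ - 1‖ + ‖y₂ - 1‖ + ‖y₃ - 1‖) / (p : ℝ) := by positivity
    have fin : ∀ (T K N : ℝ), 1 / 4 ≤ T → 0 ≤ K → 4 * K ≤ 1 + 4 * K1 + 4 * K2 + M →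
        N ≤ K * (x.e * ‖x.q‖) → N ≤ (1 + 4 * K1 + 4 * K2 + M) *
          ((‖W - 1‖ + ‖V - 1‖ + ‖y₁ - 1‖ + ‖y₂ - 1‖ + ‖y₃ - 1‖) / p) * T := by
      intro T K N hT hK hle hN
      rw [he] at hN
      generalize (‖W - 1‖ + ‖V - 1‖ + ‖y₁ - 1‖ + ‖y₂ - 1‖ + ‖y₃ - 1‖) / (p : ℝ) = E at hN hE ⊢
      have a := mul_le_mul_of_nonneg_right hle hE
      have b := mul_le_mul_of_nonneg_left hT (mul_nonneg (by linarith : 0 ≤ 1 + 4 * K1 + 4 * K2 + M) hE)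
      linarith
    by_cases h5 : p ≤ 5
    · have hT : tt (p : ℂ)⁻¹ c 1 1 1 1 (l2 (p : ℂ)⁻¹ c 1 1 1) =
          (((if p ≤ 5 then 1 - 1 / (p : ℝ) else 1) * e0 p c : ℝ) : ℂ) := by
        apply tt_one _ _ _ _ (nq2 p hp2) hcn
        simp only [l2, LxA.f1, f2, e0, if_pos h5]
        rcases hc with h | h | h <;> subst h <;> push_cast <;> field_simp <;> ring
      rw [tx2 z p c W V y₁ y₂ y₃ hp2 h5]
      have hN := (H2 x).2.2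
      refine fin _ K2 _ ?_ hK2 (by linarith) (by rw [← hT]; exact hN)
      simp only [e0, if_pos h5]
      have a : 1 / (p : ℝ) ≤ 1 / 2 := one_div_le_one_div_of_le (by norm_num) hpr
      have b : c / (p : ℝ) ≤ 1 / 2 := by
        rw [div_le_iff₀ (by linarith)]; linarith [le_abs_self c]
      nlinarith
    · have hT : tt (p : ℂ)⁻¹ c 1 1 1 1 (l1 (p : ℂ)⁻¹ (p / (p - 1)) c 1 1 1 1 1) =
          (((if p ≤ 5 then 1 - 1 / (p : ℝ) else 1) * e0 p c : ℝ) : ℂ) := by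
        apply tt_one _ _ _ _ (nq2 p hp2) hcn
        simp only [l1, LxA.f1, f2, e0, if_neg h5]
        rcases hc with h | h | h <;> subst h <;> push_cast <;> field_simp <;> ring
      rw [tx1 z p c W V y₁ y₂ y₃ h5 hpz]
      have hN := (H1 x).2.2
      refine fin _ K1 _ ?_ hK1 (by linarith) (by rw [← hT]; exact hN)
      simp only [e0, if_neg h5]
      have h6 : (6 : ℝ) ≤ p := by exact_mod_cast (by omega : 6 ≤ p)
      have b : (1 + c) ^ 2 / (p : ℝ) ≤ 3 / 4 := by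
        rw [div_le_iff₀ (by linarith)]; nlinarith [abs_le.1 hc1]
      linarith
  · have h5 : ¬ p ≤ 5 := by
      intro h
      have : (p : ℝ) ≤ 5 := by exact_mod_cast h
      linarith
    rw [tx3 z p c W V y₁ y₂ y₃ h5 (not_le.2 hzp) hcn g1 g2 g3, norm_mul, norm_mul, nq]
    have hN := H3 ⟨(p : ℂ)⁻¹, p / (p - 1), c, W, W * y₁, W * y₂, W * y₃, W * y₁ * y₂ * y₃,
      nq2 p hp2, ns p hp2, hcn, hW, g1, g2, g3, hb⟩
    have e : (1 + 4 * K1 + 4 * K2 + M) / (p : ℝ) ^ 2 =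
        1 / (p : ℝ) * (1 / p) * (1 + 4 * K1 + 4 * K2 + M) := by ring
    rw [e]
    exact mul_le_mul_of_nonneg_left (hN.trans (by linarith)) (by positivity)

end Pool.Agent.MP_20b2fd_nt.H39
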