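import Pool.Agent.MP_20b2fd_nt.H39.SpecM

/-! Row Ly: the local factor of the second moment. -/

set_option autoImplicit false

namespace Pool.Agent.MP_20b2fd_nt.H39

namespace LyA

theorem fin_le {L B x K : ℝ} (hB : 1 / 100 ≤ B) (hx : 0 ≤ x) (h : L ≤ B + x)
    (hK : 100 * x ≤ K) : L ≤ B * Real.exp K := by
  have h1 : K + 1 ≤ Real.exp K := Real.add_one_le_exp K
  have h2 : B * (K + 1) ≤ B * Real.exp K := mul_le_mul_of_nonneg_left h1 (by linarith)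
  have h3 : 1 / 100 * K ≤ B * K := mul_le_mul_of_nonneg_right hB (by linarith)
  nlinarith

theorem core {c q : ℝ} (hc : c = 0 ∨ c = 1 ∨ c = -1) (h0 : 0 < q) (h6 : q ≤ 1 / 6) :
    |1 - 3 * (1 + c) ^ 2 * q| * (if c = 0 then 1 - q else 1) ≤
      ((1 - q) * (1 - c * q) * (1 - (1 + c) ^ 2 * q)) ^ 2 + 200 * q ^ 2 ∧
    1 / 100 ≤ ((1 - q) * (1 - c * q) * (1 - (1 + c) ^ 2 * q)) ^ 2 := by
  have sq : ∀ t : ℝ, 1 / 10 ≤ t → 1 / 100 ≤ t ^ 2 := fun t ht => by nlinarith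
  rcases hc with rfl | rfl | rfl
  · rw [if_pos rfl, abs_of_nonneg (by nlinarith)]
    refine ⟨?_, sq _ (by nlinarith)⟩
    have : ((1 - q) * (1 - 0 * q) * (1 - (1 + 0) ^ 2 * q)) ^ 2 + 200 * q ^ 2 -
        (1 - 3 * (1 + 0) ^ 2 * q) * (1 - q) = q ^ 2 * (203 - 4 * q + q ^ 2) := by ring
    have h2 : 0 ≤ q ^ 2 * (203 - 4 * q + q ^ 2) := mul_nonneg (sq_nonneg q) (by nlinarith)
    linarith
  · rw [if_neg one_ne_zero, mul_one]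
    have hb : 1 / 10 ≤ (1 - q) * (1 - 1 * q) * (1 - (1 + 1) ^ 2 * q) := by
      have h1 : 25 / 36 ≤ (1 - q) * (1 - 1 * q) := by nlinarith
      have h2 : 1 / 3 ≤ 1 - (1 + 1) ^ 2 * q := by nlinarith
      nlinarith
    refine ⟨?_, sq _ hb⟩
    rw [abs_le]
    constructor
    · have := sq_nonneg ((1 - q) * (1 - 1 * q) * (1 - (1 + 1) ^ 2 * q))
      nlinarith [sq_nonneg (1 - 6 * q), sq_nonneg q]
    · have : ((1 - q) * (1 - 1 * q) * (1 - (1 + 1) ^ 2 * q)) ^ 2 + 200 * q ^ 2 -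
          (1 - 3 * (1 + 1) ^ 2 * q) =
          q ^ 2 * (254 - 116 * q + 129 * q ^ 2 - 72 * q ^ 3 + 16 * q ^ 4) := by ring
      have h3 : q ^ 3 ≤ 1 := pow_le_one₀ h0.le (by linarith)
      have h2 : 0 ≤ q ^ 2 * (254 - 116 * q + 129 * q ^ 2 - 72 * q ^ 3 + 16 * q ^ 4) :=
        mul_nonneg (sq_nonneg q) (by nlinarith [sq_nonneg q, sq_nonneg (q ^ 2)])
      linarith
  · rw [if_neg (by norm_num), mul_one]
    refine ⟨?_, sq _ (by nlinarith)⟩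
    have : |1 - 3 * (1 + (-1 : ℝ)) ^ 2 * q| = 1 := by norm_num
    rw [this]
    nlinarith [sq_nonneg (q ^ 2), sq_nonneg q]

theorem small {c q : ℝ} (hc : c = 0 ∨ c = 1 ∨ c = -1) (h0 : 0 < q) (h2 : q ≤ 1 / 2) :
    1 / 100 ≤ ((1 - q) * (1 - c * q) * (1 - c * q)) ^ 2 := by
  have sq : ∀ t : ℝ, 1 / 10 ≤ t → 1 / 100 ≤ t ^ 2 := fun t ht => by nlinarith
  have h1 : 1 / 2 ≤ 1 - c * q := by rcases hc with rfl | rfl | rfl <;> linarith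
  apply sq
  have h3 : 1 / 4 ≤ (1 - q) * (1 - c * q) := by nlinarith
  nlinarith

theorem big {c q K₀ : ℝ} {P W W' y₁ y₂ y₃ y₄ f₁ f₂ : ℂ} (hc : c = 0 ∨ c = 1 ∨ c = -1)
    (h0 : 0 < q) (hP : (q : ℂ) * P = 1) (hW : ‖W‖ ≤ 1) (hW' : ‖W'‖ ≤ 1)
    (hf₁ : ‖f₁ - (y₁ + y₂ + c * y₃ + c * y₄)‖ ≤ K₀ * q) (hf₂ : ‖f₂‖ ≤ K₀) :
    ‖1 + (-(1 + c) * q * W' + -(1 + c) * q * W) * f₁ +
        -(1 + c) * q * W * (-(1 + c) * q * W') * (f₂ + P)‖ ≤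
      |1 - 3 * (1 + c) ^ 2 * q| + (8 * K₀ * q ^ 2 +
        12 * ((‖W - 1‖ + ‖W' - 1‖ + ‖y₁ - 1‖ + ‖y₂ - 1‖ + ‖y₃ - 1‖ + ‖y₄ - 1‖) * q)) := by
  have hc1 : ‖(c : ℂ)‖ ≤ 1 := by rcases hc with rfl | rfl | rfl <;> simp
  have hg : ‖(1 + c : ℂ)‖ ≤ 2 := (norm_add_le _ _).trans (by rw [norm_one]; linarith)
  have hq : ‖(q : ℂ)‖ = q := by rw [Complex.norm_real, Real.norm_of_nonneg h0.le]
  set r : ℂ := f₁ - (y₁ + y₂ + c * y₃ + c * y₄) with hr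
  set s : ℂ := r + (y₁ - 1) + (y₂ - 1) + c * (y₃ - 1) + c * (y₄ - 1) with hs
  have hsn : ‖s‖ ≤ K₀ * q + ‖y₁ - 1‖ + ‖y₂ - 1‖ + ‖y₃ - 1‖ + ‖y₄ - 1‖ := by
    have a3 : ‖c * (y₃ - 1)‖ ≤ ‖y₃ - 1‖ := by
      rw [norm_mul]; exact mul_le_of_le_one_left (norm_nonneg _) hc1
    have a4 : ‖c * (y₄ - 1)‖ ≤ ‖y₄ - 1‖ := by
      rw [norm_mul]; exact mul_le_of_le_one_left (norm_nonneg _) hc1
    have b1 := norm_add_le (r + (y₁ - 1) + (y₂ - 1) + c * (y₃ - 1)) (c * (y₄ - 1))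
    have b2 := norm_add_le (r + (y₁ - 1) + (y₂ - 1)) (c * (y₃ - 1))
    have b3 := norm_add_le (r + (y₁ - 1)) (y₂ - 1)
    have b4 := norm_add_le r (y₁ - 1)
    linarith
  have key : 1 + (-(1 + c) * q * W' + -(1 + c) * q * W) * f₁ +
        -(1 + c) * q * W * (-(1 + c) * q * W') * (f₂ + P) =
      ((1 - 3 * (1 + c) ^ 2 * q : ℝ) : ℂ) + (-((1 + c) * q * ((W + W') * s)) +
        -(2 * (1 + c) ^ 2 * q * ((W - 1) + (W' - 1))) + (1 + c) ^ 2 * q ^ 2 * (W * W' * f₂) +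
        (1 + c) ^ 2 * q * (W * (W' - 1) + (W - 1))) := by
    have e1 : f₁ = s + 2 * (1 + c) := by rw [hs, hr]; ring
    rw [e1]
    push_cast
    linear_combination ((1 + c) ^ 2 * q * W * W') * hP
  rw [key]
  have n1 := norm_nonneg (W - 1)
  have n2 := norm_nonneg (W' - 1)
  have n3 := norm_nonneg (y₁ - 1)
  have n4 := norm_nonneg (y₂ - 1)
  have n5 := norm_nonneg (y₃ - 1)
  have n6 := norm_nonneg (y₄ - 1)
  have hg2 : ‖(1 + c : ℂ) ^ 2‖ ≤ 4 := by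
    rw [norm_pow]; nlinarith [norm_nonneg (1 + c : ℂ)]
  have t1 : ‖-((1 + c) * q * ((W + W') * s))‖ ≤
      4 * q * (K₀ * q + ‖y₁ - 1‖ + ‖y₂ - 1‖ + ‖y₃ - 1‖ + ‖y₄ - 1‖) := by
    rw [norm_neg, norm_mul, norm_mul, norm_mul, hq]
    have u1 : ‖W + W'‖ ≤ 2 := (norm_add_le _ _).trans (by linarith)
    calc ‖(1 + c : ℂ)‖ * q * (‖W + W'‖ * ‖s‖)
        ≤ 2 * q * (2 * (K₀ * q + ‖y₁ - 1‖ + ‖y₂ - 1‖ + ‖y₃ - 1‖ + ‖y₄ - 1‖)) := by gcongr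
      _ = _ := by ring
  have t2 : ‖-(2 * (1 + c) ^ 2 * q * ((W - 1) + (W' - 1)))‖ ≤ 8 * q * (‖W - 1‖ + ‖W' - 1‖) := by
    rw [norm_neg, norm_mul, norm_mul, norm_mul, hq]
    have u1 := norm_add_le (W - 1) (W' - 1)
    have u2 : ‖(2 : ℂ)‖ = 2 := by simp
    rw [u2]
    calc 2 * ‖(1 + c : ℂ) ^ 2‖ * q * ‖W - 1 + (W' - 1)‖
        ≤ 2 * 4 * q * (‖W - 1‖ + ‖W' - 1‖) := by gcongr
      _ = _ := by ring
  have t3 : ‖(1 + c) ^ 2 * q ^ 2 * (W * W' * f₂)‖ ≤ 4 * K₀ * q ^ 2 := by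
    rw [norm_mul, norm_mul, norm_mul, norm_mul, norm_pow (q : ℂ), hq]
    calc ‖(1 + c : ℂ) ^ 2‖ * q ^ 2 * (‖W‖ * ‖W'‖ * ‖f₂‖) ≤ 4 * q ^ 2 * (1 * 1 * K₀) := by gcongr
      _ = _ := by ring
  have t4 : ‖(1 + c) ^ 2 * q * (W * (W' - 1) + (W - 1))‖ ≤ 4 * q * (‖W - 1‖ + ‖W' - 1‖) := by
    rw [norm_mul, norm_mul, hq]
    have u1 : ‖W * (W' - 1) + (W - 1)‖ ≤ ‖W - 1‖ + ‖W' - 1‖ := by
      have v1 := norm_add_le (W * (W' - 1)) (W - 1)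
      have v2 : ‖W * (W' - 1)‖ ≤ ‖W' - 1‖ := by
        rw [norm_mul]; exact mul_le_of_le_one_left n2 hW
      linarith
    gcongr
  have w0 : ‖((1 - 3 * (1 + c) ^ 2 * q : ℝ) : ℂ)‖ = |1 - 3 * (1 + c) ^ 2 * q| := by
    rw [Complex.norm_real, Real.norm_eq_abs]
  refine (norm_add_le _ _).trans ?_
  rw [w0]
  refine add_le_add le_rfl ?_
  refine (norm_add_le _ _).trans ?_
  refine (add_le_add (norm_add_le _ _) le_rfl).trans ?_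
  refine (add_le_add (add_le_add (norm_add_le _ _) le_rfl) le_rfl).trans ?_
  have m3 := mul_nonneg h0.le n3
  have m4 := mul_nonneg h0.le n4
  have m5 := mul_nonneg h0.le n5
  have m6 := mul_nonneg h0.le n6
  nlinarith

theorem low {q K₀ : ℝ} {P f₁ f₂ : ℂ} (hK : 1 ≤ K₀) (h0 : 0 < q) (h2 : q ≤ 1 / 2) (hP : ‖P‖ ≤ 5)
    (hf₁ : ‖f₁‖ ≤ 13 * K₀) (hf₂ : ‖f₂‖ ≤ K₀) :
    ‖((1 + q : ℝ) : ℂ) * ((1 + q : ℝ) : ℂ) +
        (((1 + q : ℝ) : ℂ) * -(q : ℂ) + -(q : ℂ) * ((1 + q : ℝ) : ℂ)) * f₁ +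
        -(q : ℂ) * -(q : ℂ) * (f₂ + P)‖ ≤ 24 * K₀ := by
  have hq : ‖-(q : ℂ)‖ ≤ 1 / 2 := by
    rw [norm_neg, Complex.norm_real, Real.norm_of_nonneg h0.le]; exact h2
  have h1 : ‖((1 + q : ℝ) : ℂ)‖ ≤ 3 / 2 := by
    rw [Complex.norm_real, Real.norm_of_nonneg (by linarith)]; linarith
  have t1 : ‖((1 + q : ℝ) : ℂ) * ((1 + q : ℝ) : ℂ)‖ ≤ 3 / 2 * (3 / 2) := by
    rw [norm_mul]; gcongr
  have t2 : ‖((1 + q : ℝ) : ℂ) * -(q : ℂ)‖ ≤ 3 / 2 * (1 / 2) := by rw [norm_mul]; gcongr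
  have t3 : ‖-(q : ℂ) * ((1 + q : ℝ) : ℂ)‖ ≤ 1 / 2 * (3 / 2) := by rw [norm_mul]; gcongr
  have t4 : ‖((1 + q : ℝ) : ℂ) * -(q : ℂ) + -(q : ℂ) * ((1 + q : ℝ) : ℂ)‖ ≤ 3 / 2 :=
    (norm_add_le _ _).trans (by linarith)
  have t5 : ‖(((1 + q : ℝ) : ℂ) * -(q : ℂ) + -(q : ℂ) * ((1 + q : ℝ) : ℂ)) * f₁‖ ≤
      3 / 2 * (13 * K₀) := by rw [norm_mul]; gcongr
  have t6 : ‖f₂ + P‖ ≤ K₀ + 5 := (norm_add_le _ _).trans (by linarith)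
  have t7 : ‖-(q : ℂ) * -(q : ℂ) * (f₂ + P)‖ ≤ 1 / 2 * (1 / 2) * (K₀ + 5) := by
    rw [norm_mul, norm_mul]; gcongr
  refine (norm_add_le _ _).trans ?_
  refine (add_le_add (norm_add_le _ _) le_rfl).trans ?_
  linarith

end LyA

open LyA in
theorem lyR :
  ∀ K₀ : ℝ, 1 ≤ K₀ → ∃ K : ℝ, 1 ≤ K ∧ ∀ (z c : ℝ) (p : ℕ) (W W' y₁ y₂ y₃ y₄ f₁ f₂ : ℂ), p.Prime →
    (p : ℝ) ≤ z → (c = 0 ∨ c = 1 ∨ c = -1) → ‖W‖ ≤ 1 → ‖W'‖ ≤ 1 → ‖y₁‖ ≤ 3 → ‖y₂‖ ≤ 3 →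
    ‖y₃‖ ≤ 3 → ‖y₄‖ ≤ 3 → ‖f₁ - (y₁ + y₂ + c * y₃ + c * y₄)‖ ≤ K₀ / p → ‖f₂‖ ≤ K₀ →
    ‖lb p (m0 p) (n1 z p c W) (m0 p) (n1 z p c W') f₁ f₂‖ *
        (if c = 0 then 1 - 1 / (p : ℝ) else 1) ≤
      ((1 - 1 / p) * (1 - c / p) * e0 p c) ^ 2 * Real.exp (K / (p : ℝ) ^ 2 +
        K * ((‖W - 1‖ + ‖W' - 1‖ + ‖y₁ - 1‖ + ‖y₂ - 1‖ + ‖y₃ - 1‖ + ‖y₄ - 1‖) / p)) := by
  intro K₀ hK
  refine ⟨60000 * K₀, by linarith, ?_⟩
  intro z c p W W' y₁ y₂ y₃ y₄ f₁ f₂ hp hz hc hW hW' h1 h2 h3 h4 hf₁ hf₂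
  have hp2 : (2 : ℝ) ≤ p := by exact_mod_cast hp.two_le
  have hp0 : (0 : ℝ) < p := by linarith
  have hpc : (p : ℂ) ≠ 0 := by exact_mod_cast hp.ne_zero
  obtain ⟨q, hq⟩ : ∃ q : ℝ, q = 1 / p := ⟨_, rfl⟩
  have h0 : 0 < q := by rw [hq]; positivity
  have hqc : (q : ℂ) = 1 / p := by rw [hq]; push_cast; rfl
  have hd : ∀ t : ℝ, t / p = t * q := fun t => by rw [hq]; ring
  have hd2 : ∀ t : ℝ, t / (p : ℝ) ^ 2 = t * q ^ 2 := fun t => by rw [hq]; ring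
  have hq2 : q ≤ 1 / 2 := by rw [hq]; exact one_div_le_one_div_of_le (by norm_num) hp2
  set e : ℝ := ‖W - 1‖ + ‖W' - 1‖ + ‖y₁ - 1‖ + ‖y₂ - 1‖ + ‖y₃ - 1‖ + ‖y₄ - 1‖ with he
  have he0 : 0 ≤ e := by positivity
  have heq : 0 ≤ e * q := mul_nonneg he0 h0.le
  have hi0 : (0 : ℝ) ≤ if c = 0 then 1 - q else 1 := by split_ifs <;> linarith
  have hi1 : (if c = 0 then 1 - q else 1 : ℝ) ≤ 1 := by split_ifs <;> linarith
  rw [hd K₀] at hf₁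
  rw [← hq, hd c, hd e, hd2]
  by_cases h5 : p ≤ 5
  · have hp5 : (p : ℝ) ≤ 5 := by exact_mod_cast h5
    have hq5 : 1 / 5 ≤ q := by rw [hq]; exact one_div_le_one_div_of_le hp0 hp5
    have e1 : m0 p = 1 + q := by rw [m0, if_pos h5, hq]
    have e2 : ∀ V : ℂ, n1 z p c V = -(q : ℂ) := fun V => by
      rw [n1, if_pos h5, hqc]; ring
    have e3 : e0 p c = 1 - c * q := by rw [e0, if_pos h5, hd]
    have hc1 : ‖(c : ℂ)‖ ≤ 1 := by rcases hc with rfl | rfl | rfl <;> simp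
    have hf : ‖f₁‖ ≤ 13 * K₀ := by
      have a3 : ‖c * y₃‖ ≤ 3 := by
        rw [norm_mul]; exact (mul_le_of_le_one_left (norm_nonneg _) hc1).trans h3
      have a4 : ‖c * y₄‖ ≤ 3 := by
        rw [norm_mul]; exact (mul_le_of_le_one_left (norm_nonneg _) hc1).trans h4
      have b1 := norm_add_le (y₁ + y₂ + c * y₃) (c * y₄)
      have b2 := norm_add_le (y₁ + y₂) (c * y₃)
      have b3 := norm_add_le y₁ y₂
      have b4 := norm_le_insert' f₁ (y₁ + y₂ + c * y₃ + c * y₄)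
      have b5 : K₀ * q ≤ K₀ := mul_le_of_le_one_right (by linarith) (by linarith)
      linarith
    have hl := low (P := (p : ℂ)) hK h0 hq2 (by simpa using hp5) hf hf₂
    have hB := small hc h0 hq2
    rw [lb, e1, e2, e2, e3]
    refine fin_le hB (x := 24 * K₀) (by linarith) ?_ ?_
    · refine (mul_le_of_le_one_right (norm_nonneg _) hi1).trans ?_
      linarith
    · have s1 : 1 / 25 ≤ q ^ 2 := by nlinarith
      have s2 : 0 ≤ K₀ * (e * q) := mul_nonneg (by linarith) heq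
      nlinarith
  · have hp6 : (6 : ℝ) ≤ p := by exact_mod_cast (by omega : 6 ≤ p)
    have hq6 : q ≤ 1 / 6 := by rw [hq]; exact one_div_le_one_div_of_le (by norm_num) hp6
    have e1 : m0 p = 1 := by rw [m0, if_neg h5]
    have e2 : ∀ V : ℂ, n1 z p c V = -(1 + c) * q * V := fun V => by
      rw [n1, if_neg h5, if_pos hz, hqc]; ring
    have e3 : e0 p c = 1 - (1 + c) ^ 2 * q := by rw [e0, if_neg h5, hd]
    have hl := big (P := (p : ℂ)) hc h0 (by rw [hqc]; field_simp) hW hW' hf₁ hf₂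
    obtain ⟨c1, c2⟩ := core hc h0 hq6
    rw [lb, e1, e2, e2, e3]
    simp only [Complex.ofReal_one, one_mul, mul_one]
    rw [← he] at hl
    have s0 : 0 ≤ K₀ * q ^ 2 := by positivity
    have s1 : q ^ 2 ≤ K₀ * q ^ 2 := le_mul_of_one_le_left (sq_nonneg q) hK
    have s2 : e * q ≤ K₀ * (e * q) := le_mul_of_one_le_left heq hK
    refine fin_le c2 (x := 200 * q ^ 2 + (8 * K₀ * q ^ 2 + 12 * (e * q))) (by positivity) ?_ ?_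
    · refine (mul_le_mul_of_nonneg_right hl hi0).trans ?_
      rw [add_mul]
      have s3 : (8 * K₀ * q ^ 2 + 12 * (e * q)) * (if c = 0 then 1 - q else 1) ≤
          8 * K₀ * q ^ 2 + 12 * (e * q) := mul_le_of_le_one_right (by positivity) hi1
      linarith
    · nlinarith

theorem ly : LyS := lyR

end Pool.Agent.MP_20b2fd_nt.H39
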