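import Pool.Agent.MP_20b2fd_nt.H39.SpecG

/-! The primes between two bounds, and the tail of the Euler product. -/

set_option autoImplicit false

namespace Pool.Agent.MP_20b2fd_nt.H39

open Finset Filter
open Pool.Agent.MP_20b2fd_nt.H38

namespace RoA

theorem mem_prs {x y : ℝ} {p : ℕ} : p ∈ prs x y ↔ p.Prime ∧ x < p ∧ (p : ℝ) ≤ y := by
  simp only [prs, mem_filter, mem_Icc]
  exact ⟨fun h => ⟨h.2.1, h.2.2, (Nat.le_floor_iff' h.2.1.ne_zero).1 h.1.2⟩,
    fun h => ⟨⟨h.1.pos, Nat.le_floor h.2.2⟩, h.1, h.2.1⟩⟩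

theorem mem_pz {y : ℝ} {p : ℕ} : p ∈ pz y ↔ p.Prime ∧ (p : ℝ) ≤ y :=
  mem_prs.trans (and_congr_right fun h => and_iff_right (by exact_mod_cast h.one_lt))

end RoA

open RoA in
theorem roOf : RoOf := fun ⟨D, D1, _, hD, _⟩ ⟨hE, hE'⟩ => by
  classical
  obtain ⟨C, C1, hC⟩ := hE' (1 / 10) (by norm_num) le_rfl
  refine ⟨⟨Real.exp (2 * D + C), Real.one_le_exp (by linarith), fun z x Y σ hz hx hσ => ?_⟩,
    fun z Y hz => ?_, fun z Y hz hY => ⟨?_, ?_⟩, fun σ ε hσ hε => ?_⟩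
  · have l1 : 1 / 2 ≤ Real.log z := by
      linarith [Real.log_two_gt_d9, Real.log_le_log two_pos hz]
    have l2 := Real.log_le_log (by linarith) hx
    have l3 : 0 ≤ 1 / (20 * Real.log x) := one_div_nonneg.2 (by linarith)
    have h0 : ∀ {a b : ℝ}, ∀ p ∈ prs a b, (1 : ℝ) ≤ p := fun p hp => by
      exact_mod_cast (mem_prs.1 hp).1.pos
    have h1 : ∑ p ∈ prs z x, (p : ℝ) ^ (-σ) ≤ ∑ p ∈ prs z x, (1 : ℝ) / p :=
      sum_le_sum fun p hp => by
        rw [one_div, ← Real.rpow_neg_one]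
        exact Real.rpow_le_rpow_of_exponent_le (h0 p hp) (by linarith)
    have h2 : ∑ p ∈ prs x Y, (p : ℝ) ^ (-σ) ≤ C := by
      obtain ⟨a, b⟩ := hC x (hz.trans hx)
      refine le_trans (sum_le_sum fun p hp => ?_) ((a.sum_le_tsum (prs x Y) fun n _ => ?_).trans b)
      · rw [if_pos (c := rg x p) fun q hq e => (mem_prs.1 hp).2.1.not_ge ((Nat.prime_dvd_prime_iff_eq
          (mem_pz.1 hq).1 (mem_prs.1 hp).1).1 e ▸ (mem_pz.1 hq).2)]
        refine Real.rpow_le_rpow_of_exponent_le (h0 p hp) (neg_le_neg (le_of_eq_of_le ?_ hσ))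
        ring
      · positivity
    have h3 : ∑ p ∈ prs z Y, (p : ℝ) ^ (-σ) ≤ ∑ p ∈ prs z x ∪ prs x Y, (p : ℝ) ^ (-σ) :=
      sum_le_sum_of_subset_of_nonneg (fun p hp => by
        simp only [mem_union, mem_prs] at hp ⊢
        exact (le_or_gt (p : ℝ) x).imp (fun h => ⟨hp.1, hp.2.1, h⟩) fun h => ⟨hp.1, h, hp.2.2⟩)
        fun _ _ _ => by positivity
    rw [sum_union (disjoint_left.2 fun p a b => (mem_prs.1 b).2.1.not_ge (mem_prs.1 a).2.2)] at h3
    have h4 := (abs_le.1 (hD z x hz hx)).2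
    have h5 : D / Real.log z ≤ 2 * D := by
      rw [div_le_iff₀ (by linarith)]
      nlinarith
    rw [← Real.exp_log (show 0 < Real.log x / Real.log z from div_pos (by linarith) (by linarith)),
      ← Real.exp_add]
    exact Real.exp_le_exp.2 (by linarith)
  · refine le_trans ?_ ((sum_Ioo_inv_sq_le (α := ℝ) ⌊z⌋₊ (⌊Y⌋₊ + 1)).trans
      (div_le_div_of_nonneg_left zero_le_two (by linarith) (Nat.lt_floor_add_one z).le))
    simp only [one_div]
    exact sum_le_sum_of_subset_of_nonneg (fun p hp => mem_Ioo.2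
      ⟨(Nat.floor_lt (by linarith)).2 (mem_prs.1 hp).2.1,
        Nat.lt_succ_of_le (Nat.le_floor (mem_prs.1 hp).2.2)⟩) fun _ _ _ => by positivity
  · ext p
    simp only [mem_union, mem_pz, mem_prs]
    exact ⟨fun h => (le_or_gt (p : ℝ) z).imp (fun a => ⟨h.1, a⟩) fun a => ⟨h.1, a, h.2⟩,
      fun h => h.elim (fun a => ⟨a.1, a.2.trans hY⟩) fun a => ⟨a.1, a.2.2⟩⟩
  · exact disjoint_left.2 fun p a b => (mem_prs.1 b).2.1.not_ge (mem_pz.1 a).2
  · obtain ⟨N, h1, h2⟩ := (((tendsto_sum_nat_add fun n : ℕ => (n : ℝ) ^ (-σ)).eventually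
      (ge_mem_nhds hε)).and (eventually_ge_atTop 2)).exists
    refine ⟨N, fun Y q _ χ w hY hw => ?_⟩
    have Y2 : 2 ≤ Y := le_trans (by exact_mod_cast h2) hY
    have h3 := (hasSum_nat_add_iff' N).2 (hE q χ Y w Y2 (hσ.trans_le hw)).1
    have h4 : ∀ n < N, n.minFac ≤ N := fun n hn => by
      rcases n.eq_zero_or_pos with rfl | h0
      exacts [h2, (Nat.minFac_le h0).trans hn.le]
    rw [sum_eq_single_of_mem 1 (mem_range.2 h2) fun n hn e => if_neg fun h => h n.minFac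
      (mem_pz.2 ⟨Nat.minFac_prime e, (Nat.cast_le.2 (h4 n (mem_range.1 hn))).trans hY⟩)
        n.minFac_dvd, if_pos (c := rg Y 1) fun p hp => (mem_pz.1 hp).1.not_dvd_one] at h3
    simp only [Nat.cast_one, map_one, Complex.one_cpow, mul_one] at h3
    refine (h3.norm_le_of_bounded ((summable_nat_add_iff N).2
      (Real.summable_nat_rpow.2 (neg_lt_neg hσ))).hasSum fun n => ?_).trans h1
    split_ifs
    · rw [norm_mul, Complex.norm_natCast_cpow_of_pos (by omega)]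
      exact (mul_le_of_le_one_left (by positivity) (χ.norm_le_one _)).trans
        (Real.rpow_le_rpow_of_exponent_le (by exact_mod_cast (by omega : 1 ≤ n + N))
          (neg_le_neg hw))
    · rw [norm_zero]
      positivity

end Pool.Agent.MP_20b2fd_nt.H39
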