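import Pool.Agent.MP_20b2fd_nt.H39.SpecM

/-! The rational function left by a quotient of four truncated Euler products. -/

set_option autoImplicit false

namespace Pool.Agent.MP_20b2fd_nt.H39

open MeasureTheory Complex Finset
open Pool.Agent.MP_20b2fd_nt.H38
open Pool.Agent.MP_c5bf7b_nt.H38 (Phi Ch)
open DirichletCharacter (LFunction)
open scoped Real

namespace RzA

theorem fac {x y : ℂ} (hy : ‖y‖ ≤ 1 / 2) : ‖1 - x‖ ≤ ‖1 - y‖ * Real.exp (2 * ‖x - y‖) := by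
  have h1 : 1 / 2 ≤ ‖1 - y‖ := by
    have := norm_sub_norm_le (1 : ℂ) y
    rw [norm_one] at this
    linarith
  have h2 : ‖1 - x‖ ≤ ‖1 - y‖ + ‖x - y‖ := by
    have : 1 - x = (1 - y) - (x - y) := by ring
    rw [this]
    exact norm_sub_le _ _
  have h3 := Real.add_one_le_exp (2 * ‖x - y‖)
  nlinarith [norm_nonneg (x - y)]

theorem prodle (S : Finset ℕ) (x y : ℕ → ℂ) (hy : ∀ p ∈ S, ‖y p‖ ≤ 1 / 2) (e : ℕ → ℝ)
    (he : ∀ p ∈ S, ‖x p - y p‖ ≤ e p) :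
    ‖∏ p ∈ S, (1 - x p)‖ ≤ ‖∏ p ∈ S, (1 - y p)‖ * Real.exp (2 * ∑ p ∈ S, e p) := by
  rw [norm_prod, norm_prod, mul_sum, Real.exp_sum, ← prod_mul_distrib]
  refine prod_le_prod (fun _ _ => norm_nonneg _) fun p hp => (fac (hy p hp)).trans ?_
  exact mul_le_mul_of_nonneg_left (Real.exp_le_exp.2 (by linarith [he p hp])) (norm_nonneg _)

theorem two_le {x y : ℝ} {p : ℕ} (h : p ∈ prs x y) : 2 ≤ p := (mem_filter.1 h).2.1.two_le

theorem term_le {q : ℕ} (ψ : Ch q) {p : ℕ} (hp : 2 ≤ p) {σ : ℝ} {w : ℂ} (hσ : σ ≤ w.re) :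
    ‖ψ p * (p : ℂ) ^ (-w)‖ ≤ (p : ℝ) ^ (-σ) := by
  have h1 : (1 : ℝ) ≤ p := by exact_mod_cast (by omega : 1 ≤ p)
  rw [norm_mul, Complex.norm_natCast_cpow_of_pos (by omega), neg_re]
  refine (mul_le_of_le_one_left (by positivity) (ψ.norm_le_one _)).trans ?_
  exact Real.rpow_le_rpow_of_exponent_le h1 (by linarith)

theorem term_half {q : ℕ} (ψ : Ch q) {p : ℕ} (hp : 2 ≤ p) {w : ℂ} (hw : 1 ≤ w.re) :
    ‖ψ p * (p : ℂ) ^ (-w)‖ ≤ 1 / 2 := by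
  have h2 : (2 : ℝ) ≤ p := by exact_mod_cast hp
  refine (term_le ψ hp hw).trans ?_
  rw [Real.rpow_neg_one, ← one_div]
  exact one_div_le_one_div_of_le (by norm_num) h2

theorem term_sub {q : ℕ} (ψ : Ch q) {p : ℕ} (hp : 2 ≤ p) (w : ℂ) :
    ‖ψ p * (p : ℂ) ^ (-(1 + w)) - ψ p * (p : ℂ) ^ (-(1 : ℂ))‖ ≤ ‖(p : ℂ) ^ (-w) - 1‖ / p := by
  have h0 : (p : ℂ) ≠ 0 := by exact_mod_cast (by omega : p ≠ 0)
  have e : ψ p * (p : ℂ) ^ (-(1 + w)) - ψ p * (p : ℂ) ^ (-(1 : ℂ)) =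
      ψ p * (((p : ℂ) ^ (-w) - 1) / p) := by
    rw [neg_add, Complex.cpow_add _ _ h0, Complex.cpow_neg_one]
    ring
  rw [e, norm_mul, norm_div, Complex.norm_natCast]
  exact mul_le_of_le_one_left (by positivity) (ψ.norm_le_one _)

theorem cmp {q : ℕ} (ψ : Ch q) {z Y σ G R : ℝ} {w : ℂ} (hu : pz Y = pz z ∪ prs z Y)
    (hd : Disjoint (pz z) (prs z Y)) (h1 : 1 ≤ σ) (hσ : σ ≤ 1 + w.re)
    (hG : Real.exp (2 * ds z (-w)) ≤ G) (hR : Real.exp (∑ p ∈ prs z Y, (p : ℝ) ^ (-σ)) ≤ R) :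
    ‖ez ψ Y (1 + w)‖ ≤ ‖ez ψ z 1‖ * (G * R ^ 2) ∧ ‖ez ψ z 1‖ ≤ ‖ez ψ Y (1 + w)‖ * (G * R ^ 2) := by
  have hw : σ ≤ (1 + w).re := by simpa using hσ
  have e : ez ψ Y (1 + w) = ez ψ z (1 + w) * ∏ p ∈ prs z Y, (1 - ψ p * (p : ℂ) ^ (-(1 + w))) := by
    rw [ez, hu, prod_union hd]
    rfl
  have hR2 : Real.exp (2 * ∑ p ∈ prs z Y, (p : ℝ) ^ (-σ)) ≤ R ^ 2 := by
    rw [two_mul, Real.exp_add, ← sq]
    exact pow_le_pow_left₀ (Real.exp_pos _).le hR 2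
  have a1 : ‖ez ψ z (1 + w)‖ ≤ ‖ez ψ z 1‖ * G :=
    (prodle (pz z) _ _ (fun p hp => term_half ψ (two_le hp) (by simp)) _
      fun p hp => term_sub ψ (two_le hp) w).trans (mul_le_mul_of_nonneg_left hG (norm_nonneg _))
  have a2 : ‖ez ψ z 1‖ ≤ ‖ez ψ z (1 + w)‖ * G :=
    (prodle (pz z) _ _ (fun p hp => term_half ψ (two_le hp) (h1.trans hw)) _
      fun p hp => (norm_sub_rev _ _).trans_le (term_sub ψ (two_le hp) w)).trans
      (mul_le_mul_of_nonneg_left hG (norm_nonneg _))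
  have a3 : ‖∏ p ∈ prs z Y, (1 - ψ p * (p : ℂ) ^ (-(1 + w)))‖ ≤ R ^ 2 := by
    have := prodle (prs z Y) (fun p => ψ p * (p : ℂ) ^ (-(1 + w))) (fun _ => 0)
      (fun p _ => by simp) (fun p => (p : ℝ) ^ (-σ))
      fun p hp => by rw [sub_zero]; exact term_le ψ (two_le hp) hw
    simp only [sub_zero, prod_const_one, norm_one, one_mul] at this
    exact this.trans hR2
  have a4 : 1 ≤ ‖∏ p ∈ prs z Y, (1 - ψ p * (p : ℂ) ^ (-(1 + w)))‖ * R ^ 2 := by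
    have := prodle (prs z Y) (fun _ => 0) (fun p => ψ p * (p : ℂ) ^ (-(1 + w)))
      (fun p hp => term_half ψ (two_le hp) (h1.trans hw)) (fun p => (p : ℝ) ^ (-σ))
      fun p hp => by rw [zero_sub, norm_neg]; exact term_le ψ (two_le hp) hw
    simp only [sub_zero, prod_const_one, norm_one] at this
    exact this.trans (mul_le_mul_of_nonneg_left hR2 (norm_nonneg _))
  have hG0 : 0 ≤ G := (Real.exp_pos _).le.trans hG
  rw [e, norm_mul]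
  constructor
  · rw [← mul_assoc]
    exact mul_le_mul a1 a3 (norm_nonneg _) (mul_nonneg (norm_nonneg _) hG0)
  · calc ‖ez ψ z 1‖ ≤ ‖ez ψ z (1 + w)‖ * G * 1 := by rw [mul_one]; exact a2
      _ ≤ ‖ez ψ z (1 + w)‖ * G *
          (‖∏ p ∈ prs z Y, (1 - ψ p * (p : ℂ) ^ (-(1 + w)))‖ * R ^ 2) :=
        mul_le_mul_of_nonneg_left a4 (mul_nonneg (norm_nonneg _) hG0)
      _ = _ := by ring

theorem quot {x₀ x₁ x₂ x₃ : ℂ} {e f M : ℝ} (hM : 0 ≤ M) (hf : 0 ≤ f) (h0 : e ≤ ‖x₀‖ * M)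
    (h1 : ‖x₁‖ ≤ e * M) (h2 : ‖x₂‖ ≤ e * M) (h3 : ‖x₃‖ ≤ f * M) :
    ‖x₁ * x₂ * x₃ / x₀ ^ 2‖ ≤ f * M ^ 5 := by
  rw [norm_div, norm_mul, norm_mul, norm_pow]
  refine div_le_of_le_mul₀ (by positivity) (by positivity) ?_
  have a1 : ‖x₁‖ ≤ ‖x₀‖ * M * M := h1.trans (mul_le_mul_of_nonneg_right h0 hM)
  have a2 : ‖x₂‖ ≤ ‖x₀‖ * M * M := h2.trans (mul_le_mul_of_nonneg_right h0 hM)
  calc ‖x₁‖ * ‖x₂‖ * ‖x₃‖ ≤ (‖x₀‖ * M * M) * (‖x₀‖ * M * M) * (f * M) := by gcongr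
    _ = _ := by ring

/-- close to one -/
def Nr (e : ℝ) (x : ℂ) : Prop := ‖x - 1‖ ≤ Real.exp e - 1

theorem Nr.mul {e e' : ℝ} {x y : ℂ} (h : Nr e x) (h' : Nr e' y) : Nr (e + e') (x * y) := by
  unfold Nr at h h' ⊢
  have h1 : ‖y‖ ≤ Real.exp e' := by
    have := norm_sub_norm_le y 1
    rw [norm_one] at this
    linarith
  have h2 : x * y - 1 = (x - 1) * y + (y - 1) := by ring
  have h3 : ‖(x - 1) * y‖ ≤ (Real.exp e - 1) * Real.exp e' := by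
    rw [norm_mul]
    exact mul_le_mul h h1 (norm_nonneg _) ((norm_nonneg _).trans h)
  rw [h2, Real.exp_add]
  refine (norm_add_le _ _).trans ?_
  linarith

theorem nr_of {η : ℝ} {x : ℂ} (h : ‖x - 1‖ ≤ η) : Nr η x := by
  unfold Nr
  linarith [Real.add_one_le_exp η]

theorem ne_of {η : ℝ} {x : ℂ} (h : ‖x - 1‖ ≤ η) (hη : η ≤ 1 / 2) : x ≠ 0 := by
  rintro rfl
  rw [zero_sub, norm_neg, norm_one] at h
  linarith

theorem nr_inv {η : ℝ} {x : ℂ} (h : ‖x - 1‖ ≤ η) (hη : η ≤ 1 / 2) : Nr (2 * η) x⁻¹ := by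
  have h0 := ne_of h hη
  have h1 : 1 / 2 ≤ ‖x‖ := by
    have := norm_sub_norm_le (1 : ℂ) x
    rw [norm_one, norm_sub_rev] at this
    linarith
  refine nr_of ?_
  have e : x⁻¹ - 1 = -(x - 1) / x := by field_simp; ring
  rw [e, norm_div, norm_neg, div_le_iff₀ (by linarith)]
  nlinarith [norm_nonneg (x - 1)]

theorem small {η : ℝ} (hη : η ≤ 1 / 15) {w₀ w₁ w₂ w₃ F Z₀ Z₁ Z₂ Z₃ E₀ E₁ E₂ E₃ : ℂ}
    (hw : w₃ * F ≠ 0)
    (a0 : ‖Z₀ * E₀ - 1‖ ≤ η) (a1 : ‖Z₁ * E₁ - 1‖ ≤ η) (a2 : ‖Z₂ * E₂ - 1‖ ≤ η)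
    (a3 : ‖Z₃ * E₃ - 1‖ ≤ η) (b0 : ‖w₀ * Z₀ - 1‖ ≤ η) (b1 : ‖w₁ * Z₁ - 1‖ ≤ η)
    (b2 : ‖w₂ * Z₂ - 1‖ ≤ η) (b3 : ‖Z₃ / (w₃ * F) - 1‖ ≤ η) :
    ‖E₁ * E₂ * E₃ / E₀ ^ 2 - w₁ * w₂ / (w₀ ^ 2 * w₃) / F‖ ≤
      30 * η * ‖w₁ * w₂ / (w₀ ^ 2 * w₃) / F‖ := by
  have h2 : η ≤ 1 / 2 := by linarith
  have h0 : 0 ≤ η := (norm_nonneg _).trans a0
  have key := (((((((((nr_of a1).mul (nr_of a2)).mul (nr_of a3)).mul (nr_of b0)).mul
    (nr_of b0)).mul (nr_inv a0 h2)).mul (nr_inv a0 h2)).mul (nr_inv b1 h2)).mul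
    (nr_inv b2 h2)).mul (nr_inv b3 h2)
  have n0 := mul_ne_zero_iff.1 (ne_of a0 h2)
  have n1 := mul_ne_zero_iff.1 (ne_of b0 h2)
  have n2 := mul_ne_zero_iff.1 (ne_of b1 h2)
  have n3 := mul_ne_zero_iff.1 (ne_of b2 h2)
  have n4 := (div_ne_zero_iff.1 (ne_of b3 h2)).1
  have n5 := mul_ne_zero_iff.1 hw
  obtain ⟨n01, n02⟩ := n0
  obtain ⟨n11, -⟩ := n1
  obtain ⟨n21, n22⟩ := n2
  obtain ⟨n31, n32⟩ := n3
  obtain ⟨n51, n52⟩ := n5
  have e : E₁ * E₂ * E₃ / E₀ ^ 2 - w₁ * w₂ / (w₀ ^ 2 * w₃) / F =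
      (Z₁ * E₁ * (Z₂ * E₂) * (Z₃ * E₃) * (w₀ * Z₀) * (w₀ * Z₀) * (Z₀ * E₀)⁻¹ * (Z₀ * E₀)⁻¹ *
        (w₁ * Z₁)⁻¹ * (w₂ * Z₂)⁻¹ * (Z₃ / (w₃ * F))⁻¹ - 1) * (w₁ * w₂ / (w₀ ^ 2 * w₃) / F) := by
    field_simp
  rw [e, norm_mul]
  refine mul_le_mul_of_nonneg_right (le_trans key ?_) (norm_nonneg _)
  have e2 : η + η + η + η + η + 2 * η + 2 * η + 2 * η + 2 * η + 2 * η = 15 * η := by ring
  rw [e2]
  have := Real.abs_exp_sub_one_le (x := 15 * η) (by rw [abs_of_nonneg (by linarith)]; linarith)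
  rw [abs_of_nonneg (show 0 ≤ 15 * η by linarith)] at this
  linarith [le_abs_self (Real.exp (15 * η) - 1)]

theorem pt {L : ℝ} (hL : 0 < L) {s a : ℂ} (h2 : 2 ≤ s.re * L) (h4 : s.re * L ≤ 4)
    (ha : ‖a‖ * L ≤ 1 / 2) : 3 / 2 ≤ (s + a).re * L ∧ |(s + a).re| * L ≤ 9 / 2 ∧
      ‖s + a‖ * L ≤ 1 + ‖s‖ * L ∧ ‖s + a‖ ≤ 5 / 4 * ‖s‖ := by
  have h1 := abs_le.1 (abs_re_le_norm a)
  have h3 := re_le_norm s
  have h5 := norm_add_le s a
  have b1 : -(1 / 2) ≤ a.re * L := by nlinarith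
  have b2 : a.re * L ≤ 1 / 2 := by nlinarith
  have b3 : 3 / 2 ≤ (s + a).re * L := by rw [add_re, add_mul]; linarith
  have b4 : 0 ≤ (s + a).re := by
    by_contra h
    nlinarith
  have b5 : 2 ≤ ‖s‖ * L := by nlinarith
  refine ⟨b3, ?_, by nlinarith, ?_⟩
  · rw [abs_of_nonneg b4, add_re, add_mul]
    linarith
  · refine le_of_mul_le_mul_right ?_ hL
    nlinarith

theorem rj_le {L d : ℝ} (hL : 0 < L) {s a b u : ℂ} (hd : 0 ≤ d) (h2 : 2 ≤ s.re * L)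
    (h4 : s.re * L ≤ 4) (ha : ‖a‖ * L ≤ 1 / 2) (hb : ‖b‖ * L ≤ 1 / 2) (hu : ‖u‖ * L ≤ 1 / 2) :
    3 / 2 ≤ ‖s + (u + d)‖ * L ∧ ‖rj s a b (u + d)‖ ≤ 2 * L := by
  have a1 := (pt hL h2 h4 ha).2.2.2
  have a2 := (pt hL h2 h4 hb).2.2.2
  have a3 := (pt hL h2 h4 hu).1
  have a4 : 3 / 2 ≤ ‖s + (u + d)‖ * L := by
    have h := re_le_norm (s + (u + d))
    rw [← add_assoc, add_re, ofReal_re] at h
    rw [← add_assoc]
    nlinarith
  refine ⟨a4, ?_⟩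
  rw [rj, norm_div, norm_mul, norm_mul, norm_pow]
  refine div_le_of_le_mul₀ (by positivity) (by positivity) ?_
  calc ‖s + a‖ * ‖s + b‖ ≤ (5 / 4 * ‖s‖) * (5 / 4 * ‖s‖) := by gcongr
    _ ≤ ‖s‖ ^ 2 * (2 * (3 / 2)) := by nlinarith [sq_nonneg ‖s‖]
    _ ≤ ‖s‖ ^ 2 * (2 * (‖s + (u + d)‖ * L)) := by gcongr
    _ = _ := by ring

end RzA

open RzA in
theorem rzOf : RzOf := by
  intro _ hE hR hZ c C hc hc1 hC
  obtain ⟨⟨CR, hCR, hR1⟩, -, hR3, hR4⟩ := hR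
  obtain ⟨CE, A, hCE, hE2⟩ := hE.2 2 1 (by norm_num)
  obtain ⟨CZ, hCZ, hZ⟩ := hZ
  obtain ⟨c', hc', hc'1, hc'2⟩ : ∃ c' : ℝ, 0 < c' ∧ c' ≤ c ∧ (C + CZ) * c' ≤ 1 / 20 := by
    refine ⟨min c (1 / (20 * (C + CZ))), lt_min hc (by positivity), min_le_left _ _, ?_⟩
    calc (C + CZ) * min c (1 / (20 * (C + CZ))) ≤ (C + CZ) * (1 / (20 * (C + CZ))) :=
          mul_le_mul_of_nonneg_left (min_le_right _ _) (by positivity)
      _ = 1 / 20 := by field_simp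
  obtain ⟨K, hK⟩ : ∃ K : ℝ, K = (1 + CE * 2 ^ A) * (CR / c') ^ 2 := ⟨_, rfl⟩
  have hK0 : 0 ≤ K := by rw [hK]; positivity
  have hB : 0 ≤ (C * K ^ 5 + 2) / c' := by positivity
  refine ⟨60 * (1 + C + CZ) + (C * K ^ 5 + 2) / c', (A + 3) * 5 + 1, by linarith,
    fun L ρ hL hρ hρ1 => ?_⟩
  have hL0 : 0 < L := by linarith
  obtain ⟨Y₀, hY₀⟩ := hR4 (1 + 1 / L) (ρ / 100) (by linarith [one_div_pos.2 hL0]) (by positivity)
  refine ⟨Y₀, fun Y D _ χ β z F s a b u hY hF hβ hz hzY hzL h2 h4 ha hb hu => ?_⟩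
  obtain ⟨hF0, hF1, hF2⟩ := hF
  have hd : (0 : ℝ) ≤ 1 - β := by linarith
  obtain ⟨r1, r2⟩ := rj_le hL0 hd h2 h4 ha hb hu
  push_cast at r1 r2
  refine ⟨r2, ?_⟩
  have hl : 1 ≤ Real.log z := by
    rw [Real.le_log_iff_exp_le (by linarith)]
    linarith [Real.exp_one_lt_d9]
  obtain ⟨t, ht⟩ : ∃ t : ℝ, t = 1 + ‖s‖ * L := ⟨_, rfl⟩
  have ht1 : 1 ≤ t := by rw [ht]; exact le_add_of_nonneg_right (by positivity)
  rw [← ht]
  obtain ⟨τ, hτ⟩ : ∃ τ : ℝ, τ = t * Real.log z / L := ⟨_, rfl⟩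
  have hτ0 : 0 ≤ τ := by rw [hτ]; positivity
  have hτ1 : τ ≤ ρ * t := by
    rw [hτ, div_le_iff₀ hL0]
    have := mul_le_mul_of_nonneg_left hzL (show 0 ≤ t by linarith)
    linarith
  have hLF : 0 ≤ L / F := by positivity
  have hzL0 : Real.log z ≤ 1 / 10 * L := hzL.trans (mul_le_mul_of_nonneg_right hρ1 hL0.le)
  have hzL1 : Real.log z ≤ L := by linarith
  have hτ6 : ρ * t ≤ t := mul_le_of_le_one_left (by linarith) (by linarith)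
  have r3 : ‖rj s a b (u + (1 - β)) / F‖ ≤ 2 * (L / F) := by
    rw [norm_div, Complex.norm_real, Real.norm_of_nonneg hF0.le, ← mul_div_assoc]
    exact div_le_div_of_nonneg_right r2 hF0.le
  have P : ∀ v : ℂ, ‖v‖ * L ≤ 1 / 2 → 1 / L ≤ (s + v).re ∧ |(s + v).re| * Real.log z ≤ 1 ∧
      ‖s + v‖ * Real.log z ≤ τ := fun v hv => by
    obtain ⟨p1, p2, p3, -⟩ := pt hL0 h2 h4 hv
    refine ⟨by rw [div_le_iff₀ hL0]; linarith, ?_, ?_⟩
    · have := mul_le_mul_of_nonneg_left hzL0 (abs_nonneg (s + v).re)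
      linarith
    · rw [hτ, le_div_iff₀ hL0, mul_right_comm, ht]
      exact mul_le_mul_of_nonneg_right p3 (by linarith)
  have h0 : ‖(0 : ℂ)‖ * L ≤ 1 / 2 := by simp
  have htA : t ≤ t ^ ((A + 3) * 5 + 1) := le_self_pow₀ ht1 (by omega)
  rcases le_total τ c' with hs | hs
  · have hη0 : (C + CZ) * τ ≤ 1 / 20 :=
      (mul_le_mul_of_nonneg_left hs (by linarith)).trans hc'2
    have hη : ρ / 100 + (C + CZ) * τ ≤ 1 / 15 := by linarith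
    have hτ4 : τ ≤ C * τ := le_mul_of_one_le_left hτ0 hC
    have hτ5 : (C + CZ) * τ = C * τ + CZ * τ := add_mul _ _ _
    have hτ2 : 0 ≤ C * τ := by positivity
    have hτ3 : 0 ≤ CZ * τ := by positivity
    have Q1 : ∀ (q : ℕ) [NeZero q] (ψ : Ch q) (v : ℂ), ‖v‖ * L ≤ 1 / 2 →
        ‖LFunction ψ (1 + (s + v)) * ez ψ Y (1 + (s + v)) - 1‖ ≤ ρ / 100 + (C + CZ) * τ :=
      fun q _ ψ v hv => (hY₀ Y q ψ _ hY (by
        rw [add_re, one_re]; linarith [(P v hv).1])).trans (by linarith)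
    have Q2 : ∀ v : ℂ, ‖v‖ * L ≤ 1 / 2 →
        ‖(s + v) * LFunction (1 : Ch 1) (1 + (s + v)) - 1‖ ≤ ρ / 100 + (C + CZ) * τ :=
      fun v hv => by
        obtain ⟨p1, -, p3⟩ := P v hv
        have p4 : ‖s + v‖ ≤ τ := (le_mul_of_one_le_right (norm_nonneg _) hl).trans p3
        have p5 : s + v ≠ 0 := fun h => by
          rw [h, zero_re] at p1
          linarith [one_div_pos.2 hL0]
        refine (hZ _ p5 (by linarith)).trans ?_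
        have := mul_le_mul_of_nonneg_left p4 (show 0 ≤ CZ by linarith)
        linarith
    have hw0 : s + (u + (1 - β)) ≠ 0 := fun h => by
      rw [h, norm_zero] at r1
      linarith
    have hw : (s + (u + (1 - β))) * F ≠ 0 := mul_ne_zero hw0 (by exact_mod_cast hF0.ne')
    have Q3 : ‖LFunction χ (1 + (s + u)) / ((s + (u + (1 - β))) * F) - 1‖ ≤
        ρ / 100 + (C + CZ) * τ := by
      have p3 := (P u hu).2.2
      have := hF1 (1 + (s + u)) (by rw [add_sub_cancel_left]; linarith)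
      rw [add_sub_cancel_left, show 1 + (s + u) - β = s + (u + (1 - β)) by ring] at this
      rw [div_sub_one hw, norm_div, div_le_iff₀ (norm_pos_iff.2 hw), norm_mul, Complex.norm_real,
        Real.norm_of_nonneg hF0.le, ← mul_assoc]
      refine this.trans (mul_le_mul_of_nonneg_right
        (mul_le_mul_of_nonneg_right ?_ (norm_nonneg _)) hF0.le)
      have := mul_le_mul_of_nonneg_left p3 (show 0 ≤ C by linarith)
      linarith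
    have a0 := Q1 1 1 0 h0
    have b0 := Q2 0 h0
    rw [add_zero] at a0 b0
    have := small hη hw a0 (Q1 1 1 a ha) (Q1 1 1 b hb) (Q1 D χ u hu) b0 (Q2 a ha) (Q2 b hb) Q3
    simp only [← add_assoc (1 : ℂ)] at this
    refine le_trans this ?_
    have e1 : ρ / 100 + (C + CZ) * τ ≤ (1 + C + CZ) * (ρ * t) := by
      have : (C + CZ) * τ ≤ (C + CZ) * (ρ * t) := mul_le_mul_of_nonneg_left hτ1 (by linarith)
      have : ρ ≤ ρ * t := le_mul_of_one_le_right hρ.le ht1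
      linarith
    calc 30 * (ρ / 100 + (C + CZ) * τ) * ‖rj s a b (u + (1 - β)) / F‖
        ≤ 30 * ((1 + C + CZ) * (ρ * t)) * (2 * (L / F)) := by gcongr
      _ = 60 * (1 + C + CZ) * ρ * t * (L / F) := by ring
      _ ≤ _ := by gcongr; linarith
  · obtain ⟨hu1, hu2⟩ := hR3 z Y (by linarith) hzY
    have hzx : z ≤ Real.exp L := by
      rw [← Real.log_le_iff_le_exp (by linarith)]
      exact hzL1
    have hRR := hR1 z (Real.exp L) Y (1 + 1 / (20 * L)) (by linarith) hzx (by rw [Real.log_exp])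
    rw [Real.log_exp] at hRR
    have hR5 : CR * (L / Real.log z) ≤ CR / c' * t := by
      rw [hτ, le_div_iff₀ hL0] at hs
      rw [div_mul_eq_mul_div, mul_div_assoc]
      refine mul_le_mul_of_nonneg_left ?_ (by linarith)
      rw [div_le_div_iff₀ (by linarith) hc']
      linarith
    have hM : (1 + CE * 2 ^ A) * t ^ (A + 1) * (CR / c' * t) ^ 2 = K * t ^ (A + 3) := by
      rw [hK]; ring
    have Q : ∀ (q : ℕ) (ψ : Ch q) (v : ℂ), ‖v‖ * L ≤ 1 / 2 →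
        ‖ez ψ Y (1 + (s + v))‖ ≤ ‖ez ψ z 1‖ * (K * t ^ (A + 3)) ∧
        ‖ez ψ z 1‖ ≤ ‖ez ψ Y (1 + (s + v))‖ * (K * t ^ (A + 3)) := fun q ψ v hv => by
      obtain ⟨p1, p2, p3⟩ := P v hv
      rw [← hM]
      refine cmp ψ hu1 hu2 (σ := 1 + 1 / (20 * L)) (le_add_of_nonneg_right (by positivity)) ?_ ?_
        (hRR.trans hR5)
      · have : 1 / (20 * L) ≤ 1 / L := one_div_le_one_div_of_le hL0 (by linarith)
        linarith
      · have := hE2 z t (fun _ => -(s + v)) (by linarith) (by linarith) fun _ =>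
          ⟨by rw [neg_re, abs_neg]; exact p2, by rw [norm_neg]; linarith⟩
        rw [Fin.sum_univ_one] at this
        have g1 : (1 + t) ^ A ≤ (2 * t) ^ A := pow_le_pow_left₀ (by linarith) (by linarith) A
        have g2 : 1 ≤ t ^ (A + 1) := one_le_pow₀ ht1
        have g3 : CE * t * (1 + t) ^ A ≤ CE * t * (2 * t) ^ A := by gcongr
        have g4 : CE * t * (2 * t) ^ A = CE * 2 ^ A * t ^ (A + 1) := by rw [mul_pow]; ring
        rw [add_mul, one_mul]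
        linarith
    have a0 := (Q 1 1 0 h0).2
    rw [add_zero] at a0
    have a1 := quot (by positivity) (norm_nonneg _) a0 (Q 1 1 a ha).1 (Q 1 1 b hb).1 (Q D χ u hu).1
    simp only [← add_assoc (1 : ℂ)] at a1
    have a2 : ‖ez χ z 1‖ ≤ C * (L / F) := by
      rw [← mul_div_assoc, le_div_iff₀ hF0, mul_comm]
      exact hF2.trans (mul_le_mul_of_nonneg_left hzL1 (by linarith))
    have a3 : 1 ≤ ρ * t / c' := by
      rw [le_div_iff₀ hc']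
      linarith
    have a4 : 1 ≤ t ^ ((A + 3) * 5) := one_le_pow₀ ht1
    refine (norm_sub_le _ _).trans ?_
    calc _ ≤ C * (L / F) * (K * t ^ (A + 3)) ^ 5 + 2 * (L / F) * t ^ ((A + 3) * 5) :=
          add_le_add (a1.trans (by gcongr)) (r3.trans (le_mul_of_one_le_right (by positivity) a4))
      _ = (C * K ^ 5 + 2) * t ^ ((A + 3) * 5) * (L / F) * 1 := by rw [mul_pow, ← pow_mul]; ring
      _ ≤ (C * K ^ 5 + 2) * t ^ ((A + 3) * 5) * (L / F) * (ρ * t / c') := by gcongr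
      _ = (C * K ^ 5 + 2) / c' * ρ * t ^ ((A + 3) * 5 + 1) * (L / F) := by rw [pow_succ]; ring
      _ ≤ _ := by gcongr; linarith

end Pool.Agent.MP_20b2fd_nt.H39
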