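import Pool.Agent.MP_20b2fd_nt.H39.SpecM

/-! The Euler product of the mixed moment. -/

set_option autoImplicit false

namespace Pool.Agent.MP_20b2fd_nt.H39

open MeasureTheory Complex Finset
open Pool.Agent.MP_20b2fd_nt.H38
open Pool.Agent.MP_c5bf7b_nt.H38 (Phi Ch)
open DirichletCharacter (LFunction)
open scoped Real

namespace XpA

theorem comb (P₁ P₂ R r : ℂ) (E G ρ a₁ a₂ a₃ : ℝ) (hE : 0 ≤ E) (hG : 0 ≤ G) (h0 : 0 ≤ ρ)
    (h1 : ρ ≤ 1) (k₁ : 1 ≤ a₁) (k₂ : 1 ≤ a₂) (k₃ : 1 ≤ a₃) (e₁ : ‖P₁ - E‖ ≤ ρ * a₁ * E)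
    (e₂ : ‖P₂ - 1‖ ≤ ρ * a₂) (e₃ : ‖R - r‖ ≤ ρ * a₃ * G) (e₄ : ‖r‖ ≤ 2 * G) :
    ‖P₁ * P₂ * R - E * r‖ ≤ 10 * (a₁ * a₂ * a₃) * ρ * (E * G) := by
  have nE : ‖(E : ℂ)‖ = E := by rw [norm_real, Real.norm_of_nonneg hE]
  have r₁ : ρ * a₁ ≤ a₁ := mul_le_of_le_one_left (by linarith) h1
  have r₃ : ρ * a₃ ≤ a₃ := mul_le_of_le_one_left (by linarith) h1
  have n₁ : ‖P₁‖ ≤ 2 * a₁ * E := by
    have := norm_le_insert' P₁ (E : ℂ)
    rw [nE] at this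
    nlinarith [mul_le_mul_of_nonneg_right r₁ hE, mul_le_mul_of_nonneg_right k₁ hE]
  have n₃ : ‖R‖ ≤ 3 * a₃ * G := by
    have := norm_le_insert' R r
    nlinarith [mul_le_mul_of_nonneg_right r₃ hG, mul_le_mul_of_nonneg_right k₃ hG]
  have n₂ : ‖P₁ * P₂ - E‖ ≤ 3 * (a₁ * a₂) * ρ * E := by
    have e : P₁ * P₂ - E = P₁ * (P₂ - 1) + (P₁ - E) := by ring
    rw [e]
    refine (norm_add_le _ _).trans ?_
    rw [norm_mul]
    have h2 := mul_le_mul n₁ e₂ (norm_nonneg _) (by positivity)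
    have h3 : 0 ≤ ρ * a₁ * E := by positivity
    nlinarith [mul_le_mul_of_nonneg_left k₂ h3]
  have e : P₁ * P₂ * R - E * r = (P₁ * P₂ - E) * R + E * (R - r) := by ring
  rw [e]
  refine (norm_add_le _ _).trans ?_
  rw [norm_mul, norm_mul, nE]
  have h2 := mul_le_mul n₂ n₃ (norm_nonneg _) (by positivity)
  have h3 := mul_le_mul_of_nonneg_left e₃ hE
  have h4 : 0 ≤ ρ * a₃ * (E * G) := by positivity
  nlinarith [mul_le_mul_of_nonneg_left (one_le_mul_of_one_le_of_one_le k₁ k₂) h4]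

theorem mem_prs {x y : ℝ} {p : ℕ} (hy : 0 ≤ y) (h : p ∈ prs x y) :
    p.Prime ∧ x < p ∧ (p : ℝ) ≤ y := by
  unfold prs at h
  obtain ⟨h1, h2, h3⟩ := mem_filter.1 h
  exact ⟨h2, h3, (Nat.le_floor_iff hy).1 (mem_Icc.1 h1).2⟩

theorem n_le_one {p : ℕ} (hp : p.Prime) {w : ℂ} (h : w.re ≤ 0) : ‖(p : ℂ) ^ w‖ ≤ 1 := by
  rw [norm_natCast_cpow_of_pos hp.pos]
  exact Real.rpow_le_one_of_one_le_of_nonpos (by exact_mod_cast hp.one_le) h

theorem n_le_three {p : ℕ} (hp : p.Prime) {z : ℝ} (hz : (p : ℝ) ≤ z) {w : ℂ}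
    (h : ‖w‖ * Real.log z ≤ 1) : ‖(p : ℂ) ^ w‖ ≤ 3 := by
  have h0 : (0 : ℝ) < p := by exact_mod_cast hp.pos
  rw [norm_natCast_cpow_of_pos hp.pos, Real.rpow_def_of_pos h0]
  have h1 : Real.log p * w.re ≤ 1 := by
    have a1 : 0 ≤ Real.log p := Real.log_natCast_nonneg p
    have a2 := Real.log_le_log h0 hz
    have a3 := (le_abs_self _).trans (abs_re_le_norm w)
    nlinarith [mul_le_mul_of_nonneg_left a3 a1, mul_le_mul_of_nonneg_left a2 (norm_nonneg w)]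
  exact (Real.exp_le_exp.2 h1).trans (Real.exp_one_lt_d9.le.trans (by norm_num))

theorem ne0 {p : ℕ} (hp : p.Prime) {w : ℂ} (h : ‖w‖ ≤ 1) : 1 - w / p ≠ 0 := by
  intro e
  have h1 : ‖w / p‖ = 1 := by rw [← sub_eq_zero.1 e, norm_one]
  have h2 : (1 : ℝ) < p := by exact_mod_cast hp.one_lt
  rw [norm_div, Complex.norm_natCast, div_eq_one_iff_eq (by linarith)] at h1
  linarith

theorem cp {p : ℕ} (hp : p.Prime) (s a : ℂ) :
    (p : ℂ) ^ (-(1 + s + a)) = p ^ (-s) * p ^ (-a) / p := by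
  have h : (p : ℂ) ≠ 0 := by exact_mod_cast hp.ne_zero
  rw [show -(1 + s + a) = -s + -a + -1 by ring, cpow_add _ _ h, cpow_add _ _ h, cpow_neg_one,
    div_eq_mul_inv]

theorem one_ap (p : ℕ) : (1 : Ch 1) p = 1 := MulChar.one_apply (isUnit_of_subsingleton _)

theorem vr {z : ℝ} (hz : 5 ≤ z) :
    ∏ p ∈ pz z, (if p ≤ 5 then 1 - 1 / (p : ℝ) else 1) = Vr 1 := by
  have h5 : 5 ≤ ⌊z⌋₊ := Nat.le_floor (by exact_mod_cast hz)
  have e : (pz z).filter (fun p => p ≤ 5) = {2, 3, 5} := by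
    ext p
    simp only [pz, prs, mem_filter, mem_Icc, mem_insert, mem_singleton]
    constructor
    · rintro ⟨⟨-, h1, -⟩, h2⟩
      interval_cases p <;> simp_all (config := { decide := true })
    · rintro (rfl | rfl | rfl) <;> refine ⟨⟨⟨by omega, by omega⟩, by norm_num, by norm_num⟩, by omega⟩
  have t : Nat.totient (30 * 1) = 8 := by decide
  rw [← prod_filter, e, Vr, t]
  norm_num

theorem exp_sub (x K ρ : ℝ) (h1 : ρ ≤ 1) (hK : 0 ≤ K) (h0 : 0 ≤ ρ) (hx : x ≤ K * ρ) :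
    Real.exp x - 1 ≤ ρ * (K * Real.exp K + 1) := by
  have a1 : Real.exp x ≤ Real.exp (K * ρ) := Real.exp_le_exp.2 hx
  have a2 : Real.exp (K * ρ) ≤ Real.exp K := Real.exp_le_exp.2 (mul_le_of_le_one_right hK h1)
  have a3 := mul_le_mul_of_nonneg_right (Real.add_one_le_exp (-(K * ρ))) (Real.exp_pos (K * ρ)).le
  rw [← Real.exp_add, neg_add_cancel, Real.exp_zero] at a3
  nlinarith [mul_le_mul_of_nonneg_left a2 (mul_nonneg hK h0)]

end XpA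

open XpA

theorem xpOf : XpOf := by
  rintro ⟨ez1, ez2⟩ ⟨-, ro2, ro3, -⟩ ⟨-, f2, c0, hc0, f3⟩ ⟨K, hK, lx⟩ rz c C hc hc1 hC
  obtain ⟨C₃, A₃, k₃, rz⟩ := rz c C hc hc1 hC
  obtain ⟨C₁, A₁, k₁, ez2⟩ := ez2 K 5 (by linarith)
  have k₂ : 1 ≤ 2 * K * Real.exp (2 * K) + 1 := le_add_of_nonneg_left (by positivity)
  have k₄ : (1 : ℝ) ≤ C₁ * 2 ^ A₁ := one_le_mul_of_one_le_of_one_le k₁ (one_le_pow₀ one_le_two)
  refine ⟨10 * (C₁ * 2 ^ A₁ * (2 * K * Real.exp (2 * K) + 1) * C₃), A₁ + 1 + A₃, ?_,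
    fun L ρ hL hρ hρ1 => ?_⟩
  · linarith [one_le_mul_of_one_le_of_one_le (one_le_mul_of_one_le_of_one_le k₄ k₂) k₃]
  obtain ⟨Y₀, rz⟩ := rz L ρ hL hρ hρ1
  refine ⟨Y₀, ?_⟩
  intro Y D _ χ β z F Λ ξ s a b u φ hY hχ ok hβ hz hzY hρz hΛ hΛL s1 s2 ha hb hu hφ
  have lz : 0 < Real.log z := Real.log_pos (by linarith)
  have Λ0 : 0 < Λ := (mul_pos_iff_of_pos_left hρ).1 (lz.trans_le hΛ)
  have lL : Real.log z ≤ ρ * L := hΛ.trans (mul_le_mul_of_nonneg_left hΛL hρ.le)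
  have L0 : 0 < L := by linarith
  have F0 : 0 < F := ok.1
  obtain ⟨r1, r2⟩ := rz Y D χ β z F s a b u hY ok hβ hz hzY lL s1 s2 ha hb hu
  have E0' : 0 ≤ E0 χ z := le_trans (by positivity) (f3 D χ z hχ hz).1
  have re1 : ∀ w : ℂ, ‖w‖ * L ≤ 1 / 2 → |w.re| * L ≤ 1 / 2 := fun w h =>
    (mul_le_mul_of_nonneg_right (abs_re_le_norm w) L0.le).trans h
  have re2 : ∀ w : ℂ, ‖w‖ * L ≤ 1 / 2 → -(1 / 2) ≤ w.re * L := fun w h => by
    have := mul_le_mul_of_nonneg_right (neg_abs_le w.re) L0.le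
    linarith [re1 w h]
  have sm : ∀ w : ℂ, ‖w‖ * L ≤ 1 / 2 → ‖-w‖ * Real.log z ≤ ρ := fun w h => by
    rw [norm_neg]
    nlinarith [mul_le_mul_of_nonneg_left lL (norm_nonneg w), mul_le_mul_of_nonneg_left h hρ.le]
  have neg : ∀ x : ℝ, x * L ≤ 0 → x ≤ 0 := fun x h => by
    by_contra h'
    linarith [mul_pos (not_le.1 h') L0]
  have xre : (ex Λ 0 ξ).re = 0 := by simp [ex, div_ofReal_re]
  have xn : ‖ex Λ 0 ξ‖ = |ξ| / Λ := by simp [ex, abs_of_pos Λ0]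
  have nW : ∀ p : ℕ, p.Prime → ‖(p : ℂ) ^ (-s)‖ ≤ 1 ∧
      (∀ w : ℂ, ‖w‖ * L ≤ 1 / 2 → ‖(p : ℂ) ^ (-s) * p ^ (-w)‖ ≤ 1) ∧
      ‖(p : ℂ) ^ (-s) * p ^ (-a) * p ^ (-b) * p ^ (-u)‖ ≤ 1 := by
    intro p hp
    have h : (p : ℂ) ≠ 0 := by exact_mod_cast hp.ne_zero
    refine ⟨n_le_one hp (neg _ ?_), fun w hw => ?_, ?_⟩
    · rw [neg_re]
      linarith
    · rw [← cpow_add _ _ h]
      refine n_le_one hp (neg _ ?_)
      rw [add_re, neg_re, neg_re]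
      linarith [re2 w hw]
    · rw [← cpow_add _ _ h, ← cpow_add _ _ h, ← cpow_add _ _ h]
      refine n_le_one hp (neg _ ?_)
      simp only [add_re, neg_re]
      linarith [re2 a ha, re2 b hb, re2 u hu]
  have lx' := fun (p : ℕ) (hp : p.Prime) => lx z (xr χ p) p (p ^ (-s)) (p ^ ex Λ 0 ξ) (p ^ (-a))
    (p ^ (-b)) (p ^ (-u)) hp hz (f2 D χ hχ p).2 (nW p hp).1 ((nW p hp).2.1 a ha)
    ((nW p hp).2.1 b hb) ((nW p hp).2.1 u hu)
  generalize hT : (fun p : ℕ => tx z p (xr χ p) (p ^ (-s)) (p ^ ex Λ 0 ξ) (p ^ (-a)) (p ^ (-b))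
    (p ^ (-u))) = T
  have hT' := fun p => congrFun hT p
  simp only [hT'] at lx'
  have main : ∏ p ∈ pz Y, lb p (x0 p (p ^ (-s))) (x1 p (p ^ (-s))) (m0 p)
      (n1 z p (χ p) (p ^ ex Λ 0 ξ)) (φ p) (φ (p ^ 2)) = (∏ p ∈ pz z, T p) * (∏ p ∈ prs z Y, T p) *
      (ez (1 : Ch 1) Y (1 + s + a) * ez (1 : Ch 1) Y (1 + s + b) * ez χ Y (1 + s + u) /
        ez (1 : Ch 1) Y (1 + s) ^ 2) := by
    obtain ⟨u1, u2⟩ := ro3 z Y (by linarith) hzY
    rw [← prod_union u2, ← u1]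
    unfold ez
    rw [← prod_mul_distrib, ← prod_mul_distrib, ← prod_pow, ← prod_div_distrib, ← prod_mul_distrib]
    refine prod_congr rfl fun p hp => ?_
    have hp' := (mem_prs (by linarith) hp).1
    have e0 := cp hp' s 0
    rw [add_zero, neg_zero, cpow_zero, mul_one] at e0
    have d0 := ne0 hp' (nW p hp').1
    have d1 := ne0 hp' ((nW p hp').2.1 a ha)
    have d2 := ne0 hp' ((nW p hp').2.1 b hb)
    have d3 : 1 - χ p * (p : ℂ) ^ (-s) * p ^ (-u) / p ≠ 0 := by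
      refine ne0 hp' ?_
      rw [mul_assoc, norm_mul]
      exact mul_le_one₀ (χ.norm_le_one _) (norm_nonneg _) ((nW p hp').2.1 u hu)
    have e3 : χ p * ((p : ℂ) ^ (-s) * p ^ (-u) / p) = χ p * p ^ (-s) * p ^ (-u) / p := by ring
    rw [← hT', tx, (f2 D χ hχ p).1, (hφ.2 p hp').1, (hφ.2 p hp').2, one_ap, cp hp', cp hp', cp hp',
      e0, e3, one_mul, one_mul, one_mul, div_mul_div_comm,
      eq_div_iff (mul_ne_zero (mul_ne_zero (mul_ne_zero d1 d2) d3) (pow_ne_zero 2 d0))]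
    ring
  have X1 : 1 ≤ 1 + ‖s‖ * L := le_add_of_nonneg_right (by positivity)
  have X2 : 1 ≤ 1 + |ξ| := le_add_of_nonneg_right (abs_nonneg _)
  have M1 := one_le_mul_of_one_le_of_one_le X1 X2
  have V1 : Vr 1 ≤ 1 ∧ 0 ≤ Vr 1 := by
    have t : Nat.totient (30 * 1) = 8 := by decide
    rw [Vr, t]
    norm_num
  have p1 : ‖∏ p ∈ pz z, T p - ((E0 χ z * Vr 1 : ℝ) : ℂ)‖ ≤
      ρ * (C₁ * 2 ^ A₁ * ((1 + ‖s‖ * L) * (1 + |ξ|)) ^ (A₁ + 1)) * (E0 χ z * Vr 1) := by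
    have h1 := ez1 (pz z) T
      (fun p => (((if p ≤ 5 then 1 - 1 / (p : ℝ) else 1) * e0 p (xr χ p) : ℝ) : ℂ))
      (fun p => K * ((‖(p : ℂ) ^ (-s) - 1‖ + ‖(p : ℂ) ^ ex Λ 0 ξ - 1‖ + ‖(p : ℂ) ^ (-a) - 1‖ +
        ‖(p : ℂ) ^ (-b) - 1‖ + ‖(p : ℂ) ^ (-u) - 1‖) / p)) fun p hp => by
      obtain ⟨q1, -, q3⟩ := mem_prs (by linarith) hp
      refine ⟨by positivity, ((lx' p q1).1 q3 (n_le_one q1 xre.le)
        (n_le_three q1 q3 ((sm a ha).trans (by linarith)))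
        (n_le_three q1 q3 ((sm b hb).trans (by linarith)))
        (n_le_three q1 q3 ((sm u hu).trans (by linarith)))).trans ?_⟩
      rw [norm_real]
      exact mul_le_mul_of_nonneg_left (le_abs_self _) (by positivity)
    rw [← ofReal_prod, prod_mul_distrib, vr hz, mul_comm (Vr 1), norm_real, ← E0,
      Real.norm_of_nonneg (mul_nonneg E0' V1.2)] at h1
    refine h1.trans (mul_le_mul_of_nonneg_right ?_ (mul_nonneg E0' V1.2))
    have tM : ρ ≤ ρ * ((1 + ‖s‖ * L) * (1 + |ξ|)) := le_mul_of_one_le_right hρ.le M1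
    have h2 := ez2 z (ρ * ((1 + ‖s‖ * L) * (1 + |ξ|))) ![-s, ex Λ 0 ξ, -a, -b, -u] (by linarith)
      (by positivity) fun i => by
      have g : ∀ w : ℂ, ‖w‖ * L ≤ 1 / 2 → |(-w).re| * Real.log z ≤ 1 ∧
          ‖-w‖ * Real.log z ≤ ρ * ((1 + ‖s‖ * L) * (1 + |ξ|)) := fun w h =>
        ⟨(mul_le_mul_of_nonneg_right (abs_re_le_norm _) lz.le).trans ((sm w h).trans (by linarith)),
          (sm w h).trans tM⟩
      fin_cases i
      · show |(-s).re| * Real.log z ≤ 1 ∧ ‖-s‖ * Real.log z ≤ _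
        have s0 : 0 ≤ s.re := by linarith [neg (-s.re) (by linarith)]
        rw [neg_re, abs_neg, abs_of_nonneg s0, norm_neg]
        refine ⟨by nlinarith [mul_le_mul_of_nonneg_left lL s0], ?_⟩
        have b1 := mul_le_mul_of_nonneg_left lL (norm_nonneg s)
        have b2 : ‖s‖ * L ≤ (1 + ‖s‖ * L) * (1 + |ξ|) :=
          le_trans (by linarith) (le_mul_of_one_le_right (by linarith) X2)
        nlinarith [mul_le_mul_of_nonneg_left b2 hρ.le]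
      · show |(ex Λ 0 ξ).re| * Real.log z ≤ 1 ∧ ‖ex Λ 0 ξ‖ * Real.log z ≤ _
        rw [xre, xn, abs_zero, zero_mul]
        refine ⟨zero_le_one, ?_⟩
        have b1 := mul_le_mul_of_nonneg_left hΛ (div_nonneg (abs_nonneg ξ) Λ0.le)
        have b3 : |ξ| / Λ * (ρ * Λ) = ρ * |ξ| := by field_simp
        have b2 : |ξ| ≤ (1 + ‖s‖ * L) * (1 + |ξ|) :=
          le_trans (by linarith) (le_mul_of_one_le_left (by linarith) X1)
        linarith [mul_le_mul_of_nonneg_left b2 hρ.le]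
      · exact g a ha
      · exact g b hb
      · exact g u hu
    have e : ∑ p ∈ pz z, K * ((‖(p : ℂ) ^ (-s) - 1‖ + ‖(p : ℂ) ^ ex Λ 0 ξ - 1‖ +
        ‖(p : ℂ) ^ (-a) - 1‖ + ‖(p : ℂ) ^ (-b) - 1‖ + ‖(p : ℂ) ^ (-u) - 1‖) / p) =
        K * ∑ i, ds z (![-s, ex Λ 0 ξ, -a, -b, -u] i) := by
      rw [Fin.sum_univ_five, ← mul_sum]
      simp only [ds, add_div, sum_add_distrib]
      rfl
    rw [e]
    refine h2.trans ?_
    generalize (1 + ‖s‖ * L) * (1 + |ξ|) = M at M1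
    have b1 : (1 + ρ * M) ^ A₁ ≤ (2 * M) ^ A₁ :=
      pow_le_pow_left₀ (by positivity) (by nlinarith) _
    refine (mul_le_mul_of_nonneg_left b1 (by positivity)).trans (le_of_eq ?_)
    ring
  have p2 : ‖∏ p ∈ prs z Y, T p - 1‖ ≤ ρ * (2 * K * Real.exp (2 * K) + 1) := by
    have h1 := ez1 (prs z Y) T (fun _ => 1) (fun p => K * (1 / (p : ℝ) ^ 2)) fun p hp => by
      obtain ⟨q1, q2, -⟩ := mem_prs (by linarith) hp
      refine ⟨by positivity, ?_⟩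
      rw [norm_one, mul_one, mul_one_div]
      exact (lx' p q1).2 q2 (nW p q1).2.2
    rw [prod_const_one, norm_one, mul_one, ← mul_sum] at h1
    refine h1.trans (exp_sub _ _ _ (by linarith) (by linarith) hρ.le ?_)
    have b1 : 2 / z ≤ 2 * ρ := by
      rw [div_le_iff₀ (by linarith)]
      linarith
    nlinarith [(ro2 z Y (by linarith)).trans b1]
  have p3 : C₃ * ρ * (1 + ‖s‖ * L) ^ A₃ * (L / F) ≤
      ρ * (C₃ * ((1 + ‖s‖ * L) * (1 + |ξ|)) ^ A₃) * (L / F) := by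
    refine mul_le_mul_of_nonneg_right ?_ (by positivity)
    have b1 : (1 + ‖s‖ * L) ^ A₃ ≤ ((1 + ‖s‖ * L) * (1 + |ξ|)) ^ A₃ :=
      pow_le_pow_left₀ (by linarith) (le_mul_of_one_le_right (by linarith) X2) _
    nlinarith [mul_le_mul_of_nonneg_left b1 (by positivity : 0 ≤ C₃ * ρ)]
  have p4 : ‖rj s a b (u + (1 - β)) / F‖ ≤ 2 * (L / F) := by
    rw [norm_div, norm_real, Real.norm_of_nonneg F0.le, ← mul_div_assoc]
    exact div_le_div_of_nonneg_right r1 F0.le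
  have h := comb _ _ _ _ _ _ _ _ _ _ (mul_nonneg E0' V1.2) (by positivity) hρ.le (by linarith)
    (one_le_mul_of_one_le_of_one_le k₄ (one_le_pow₀ M1)) k₂
    (one_le_mul_of_one_le_of_one_le k₃ (one_le_pow₀ M1)) p1 p2 (r2.trans p3) p4
  have e : (E0 χ z : ℂ) * Vr 1 / F * rj s a b (u + (1 - β)) =
      ((E0 χ z * Vr 1 : ℝ) : ℂ) * (rj s a b (u + (1 - β)) / F) := by
    push_cast
    ring
  rw [main, e]
  refine h.trans ?_
  have b1 : E0 χ z * Vr 1 * (L / F) ≤ L * E0 χ z / F := by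
    have := mul_le_mul_of_nonneg_left V1.1 (by positivity : 0 ≤ L * E0 χ z / F)
    refine le_trans (le_of_eq ?_) (this.trans (le_of_eq (mul_one _)))
    ring
  refine (mul_le_mul_of_nonneg_left b1 (by positivity)).trans (le_of_eq ?_)
  rw [mul_pow, mul_pow]
  ring

end Pool.Agent.MP_20b2fd_nt.H39
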