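import Pool.Agent.MP_20b2fd_nt.H39.SpecM

/-! Row Xy: the mixed moment as a double average. -/

set_option autoImplicit false

namespace Pool.Agent.MP_20b2fd_nt.H39

open MeasureTheory Complex Finset
open Pool.Agent.MP_20b2fd_nt.H38
open Pool.Agent.MP_c5bf7b_nt.H38 (Phi Ch)
open scoped Real

namespace XyA

lemma lf_av (f : ℝ → ℝ) (b : ℝ) (S : Finset ℕ) (c₀ c₁ : ℕ → ℂ) (K : ℕ → ℝ → ℂ)
    (h : ∀ n, AvI f b (K n)) :
    AvI f b (fun ξ => LF S c₀ c₁ fun n => K n ξ) ∧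
      Av f b (fun ξ => LF S c₀ c₁ fun n => K n ξ) = LF S c₀ c₁ fun n => Av f b (K n) := by
  have e : (fun ξ : ℝ => lap f (b + ξ * I) * LF S c₀ c₁ fun n => K n ξ) = fun ξ : ℝ =>
      ∑ T ∈ S.powerset, (∏ p ∈ T, c₁ p) * (∏ p ∈ S \ T, c₀ p) *
        (lap f (b + ξ * I) * K (∏ p ∈ T, p) ξ) := by
    funext ξ
    rw [LF, mul_sum]
    exact sum_congr rfl fun T _ => by ring
  have hi : ∀ T ∈ S.powerset, Integrable fun ξ : ℝ => (∏ p ∈ T, c₁ p) * (∏ p ∈ S \ T, c₀ p) *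
      (lap f (b + ξ * I) * K (∏ p ∈ T, p) ξ) := fun T _ => Integrable.const_mul (h _) _
  unfold AvI Av
  rw [e]
  refine ⟨integrable_finsetSum _ hi, ?_⟩
  rw [integral_finsetSum _ hi, mul_sum, LF]
  refine sum_congr rfl fun T _ => ?_
  rw [integral_const_mul]
  ring

lemma size {ε : ℝ} {N : ℕ} (h0 : 0 < ε) (h1 : ε ≤ 1 / 10) (hL : 1 ≤ Real.log N) (ξ : ℝ) :
    2 ≤ (-ex (Lx ε N) (-1) ξ).re * Real.log N ∧ (-ex (Lx ε N) (-1) ξ).re * Real.log N ≤ 4 ∧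
      1 + ‖-ex (Lx ε N) (-1) ξ‖ * Real.log N ≤ 5 * (1 + |ξ|) := by
  have a : 0 < 1 / 2 - 2 * ε := by linarith
  have p : 0 < Lx ε N := mul_pos a (by linarith)
  have e : (-ex (Lx ε N) (-1) ξ).re = 1 / Lx ε N := by
    simp [ex, div_ofReal_re, neg_div]
  have n : ‖-ex (Lx ε N) (-1) ξ‖ ≤ (1 + |ξ|) / Lx ε N := by
    rw [norm_neg, ex, norm_div, norm_real, Real.norm_eq_abs, abs_of_pos p]
    gcongr
    exact (norm_add_le _ _).trans (by simp)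
  have k : Real.log N ≤ 4 * Lx ε N := by
    unfold Lx
    nlinarith
  have k' : 2 * Lx ε N ≤ Real.log N := by
    unfold Lx
    nlinarith
  have x := abs_nonneg ξ
  rw [e, div_mul_eq_mul_div, one_mul, le_div_iff₀ p, div_le_iff₀ p]
  refine ⟨k', k, ?_⟩
  have : ‖-ex (Lx ε N) (-1) ξ‖ * Real.log N ≤ (1 + |ξ|) / Lx ε N * (4 * Lx ε N) := by gcongr
  rw [mul_comm 4, ← mul_assoc, div_mul_cancel₀ _ p.ne'] at this
  linarith

lemma cont {ε β : ℝ} {N : ℕ} {a b u : ℂ} (h0 : 0 < ε) (h1 : ε ≤ 1 / 10) (hL : 1 ≤ Real.log N)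
    (hβ : β ≤ 1) (hu : ‖u‖ * Real.log N ≤ 1 / 2) :
    Continuous fun ξ : ℝ => rj (-ex (Lx ε N) (-1) ξ) a b (u + (1 - β)) := by
  have c : Continuous fun ξ : ℝ => -ex (Lx ε N) (-1) ξ := by
    unfold ex
    fun_prop
  unfold rj
  refine Continuous.div (by fun_prop) (by fun_prop) fun ξ => ?_
  have k := (size h0 h1 hL ξ).1
  refine mul_ne_zero (pow_ne_zero _ fun e => ?_) fun e => ?_
  · rw [e, zero_re] at k
    linarith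
  · have r := congrArg re e
    simp only [add_re, sub_re, one_re, ofReal_re, zero_re] at r
    have := (abs_le.1 (abs_re_le_norm u)).1
    nlinarith

end XyA

theorem xyOf : XyOf := by
  intro hB hA hF hFx hFn hR hX c C ε hc hc1 hC h0 h1
  obtain ⟨C₁, A, hC₁, hX⟩ := hX c C hc hc1 hC
  obtain ⟨C₂, A₂, -, hR⟩ := hR c C hc hc1 hC
  obtain ⟨-, a2, -, a4⟩ := hA (f1 ε) 2 (-1) (hF.1 ε h0 (by linarith)).1
  obtain ⟨g1, g2⟩ := hF.1 (1 / 2) (by norm_num) (by norm_num)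
  obtain ⟨-, -, b3, b4⟩ := hA (f1 (1 / 2)) 2 0 g1
  obtain ⟨Ca, hCa, a5⟩ := a4 A
  obtain ⟨C₀, -, a6⟩ := a4 0
  obtain ⟨Cb, hCb, b5⟩ := b4 A
  obtain ⟨c₃, hc₃, hE⟩ := hF.2.2
  refine ⟨Ca * (Cb * (C₁ * 5 ^ A)), one_le_mul_of_one_le_of_one_le hCa
    (one_le_mul_of_one_le_of_one_le hCb (one_le_mul_of_one_le_of_one_le hC₁
      (one_le_pow₀ (by norm_num)))), ?_⟩
  intro N D _ χ β z F Λ ρ a b u φ hN hχ hO hβ hz hρ hρ1 hρz hΛ hΛL ha hb hu hφ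
  have hL : 1 ≤ Real.log N := by
    rw [Real.le_log_iff_exp_le (by positivity)]
    exact (Real.exp_one_lt_three.le).trans (by exact_mod_cast hN)
  obtain ⟨Y₁, hX⟩ := hX _ ρ hL hρ hρ1
  obtain ⟨Y₂, hR⟩ := hR _ ρ hL hρ hρ1
  obtain ⟨Y, y1, y2, y3, y4⟩ : ∃ Y : ℝ, Y₁ ≤ Y ∧ Y₂ ≤ Y ∧ (N : ℝ) ≤ Y ∧ z ≤ Y :=
    ⟨max (max Y₁ Y₂) (max N z), by simp, by simp, by simp, by simp⟩
  have lz : 0 < Real.log z := Real.log_pos (by linarith)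
  have l0 : 0 < Λ := (mul_pos_iff_of_pos_left hρ).1 (lz.trans_le hΛ)
  have e0 : 0 ≤ E0 χ z := le_trans (by positivity) (hE D χ z hχ hz).1
  have f0 := hO.1
  have q0 : 0 ≤ Real.log N * E0 χ z / F := by positivity
  obtain ⟨i1, s1⟩ := hFx ε N Y (fun n => ∑ l ∈ Icc 1 (Mz Λ), (nu χ z Λ l : ℂ) * Bh φ n l) h0 h1
    (by omega) (by linarith) y3
  have hn := (hFn D χ z Λ Y hχ hz y4 l0).1
  have i2 : AvI (f1 ε) (-1) fun ξ => rj (-ex (Lx ε N) (-1) ξ) a b (u + (1 - β)) :=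
    (a6 _ (2 * Real.log N) fun ξ => by
      obtain ⟨k1, k2, -⟩ := XyA.size h0 h1 hL ξ
      rw [pow_zero, mul_one]
      exact (hR Y D χ β z F _ a b u y2 hO hβ hz y4
        (hΛ.trans (mul_le_mul_of_nonneg_left hΛL hρ.le)) k1 k2 ha hb hu).1).2.1
      (XyA.cont h0 h1 hL hβ hu)
  obtain ⟨-, -, -, -, i3, s3⟩ := a2 _ _ (E0 χ z * Vr 1 / F) i2 i2
  simp only [mul_assoc, ← mul_sum]
  rw [s1, JM, ← s3]
  refine ((a5 _ (Cb * (C₁ * 5 ^ A * ρ * (Real.log N * E0 χ z / F))) fun ξ => ?_).2.2 _ _ i1 i3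
    fun ξ => rfl).trans (le_of_eq (by ring))
  obtain ⟨k1, k2, k3⟩ := XyA.size h0 h1 hL ξ
  obtain ⟨j1, j2⟩ := XyA.lf_av (f1 (1 / 2)) 0 (pz Y) (fun p => x0 p (p ^ ex (Lx ε N) (-1) ξ))
    (fun p => x1 p (p ^ ex (Lx ε N) (-1) ξ)) _ fun n => (hn (Bh φ n)).1
  obtain ⟨j3, j4⟩ := b3 (E0 χ z * Vr 1 / F * rj (-ex (Lx ε N) (-1) ξ) a b (u + (1 - β)))
  rw [(g2 0).2.2.1 (by norm_num) (by norm_num), ofReal_one, mul_one] at j4
  simp only [fun n => (hn (Bh φ n)).2]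
  rw [← j2, ← j4]
  refine ((b5 _ (C₁ * ρ * (5 * (1 + |ξ|)) ^ A * (Real.log N * E0 χ z / F)) fun ξ' => ?_).2.2 _ _
    j1 j3 fun ξ' => rfl).trans (le_of_eq (by rw [mul_pow]; ring))
  have k := hX Y D χ β z F Λ ξ' _ a b u φ y1 hχ hO hβ hz y4 hρz hΛ hΛL k1 k2 ha hb hu hφ
  rw [neg_neg] at k
  rw [(hB (pz Y) _ _ _ _ φ (fun p hp => (mem_filter.1 hp).2.1) hφ.1).2]
  refine k.trans ?_
  calc _ ≤ C₁ * ρ * (5 * (1 + |ξ|)) ^ A * (1 + |ξ'|) ^ A * (Real.log N * E0 χ z / F) := by gcongr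
    _ = _ := by ring

end Pool.Agent.MP_20b2fd_nt.H39
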