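import Pool.Agent.MP_20b2fd_nt.H39.SpecM

/-! The second moment of the short mollifier. -/

set_option autoImplicit false

namespace Pool.Agent.MP_20b2fd_nt.H39

open Complex Finset
open Pool.Agent.MP_20b2fd_nt.H38
open Pool.Agent.MP_c5bf7b_nt.H38 (Ch)

namespace YyA

theorem lin (S : Finset ℕ) (c₀ c₁ : ℕ → ℂ) (J : Finset ℕ) (x : ℕ → ℂ) (G : ℕ → ℕ → ℂ) :
    LF S c₀ c₁ (fun l => ∑ k ∈ J, x k * G k l) = ∑ k ∈ J, x k * LF S c₀ c₁ (G k) := by
  simp only [LF, mul_sum]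
  rw [sum_comm]
  simp only [mul_left_comm (x _)]

theorem mem {z : ℝ} (hz : 0 ≤ z) {p : ℕ} : p ∈ pz z ↔ p.Prime ∧ (p : ℝ) ≤ z := by
  simp only [pz, prs, mem_filter, mem_Icc, Nat.le_floor_iff hz, Nat.one_lt_cast]
  exact ⟨fun h => ⟨h.2.1, h.1.2⟩, fun h => ⟨⟨h.1.one_le, h.2⟩, h.1, h.1.one_lt⟩⟩

theorem tot {D : ℕ} [NeZero D] (χ : Ch D) {z : ℝ} (h : (D : ℝ) ≤ z)
    (hx : ∀ n : ℕ, ((xr χ n : ℝ) : ℂ) = χ n) :
    (D.totient : ℝ) / D = ∏ p ∈ pz z, if xr χ p = 0 then 1 - 1 / (p : ℝ) else 1 := by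
  have d0 := NeZero.ne D
  have e := congrArg (Rat.cast (K := ℝ)) (Nat.totient_eq_mul_prod_factors D)
  push_cast at e
  rw [e, mul_div_cancel_left₀ _ (Nat.cast_ne_zero.2 d0), ← prod_filter]
  refine prod_congr (ext fun p => ?_) fun p _ => by rw [one_div]
  rw [mem_filter, mem ((Nat.cast_nonneg D).trans h), ← ofReal_eq_zero, hx,
    MulChar.apply_eq_zero_iff, Nat.mem_primeFactors_of_ne_zero d0]
  refine ⟨fun k => ⟨⟨k.1, le_trans ?_ h⟩, by simp [ZMod.isUnit_prime_iff_not_dvd k.1, k.2]⟩,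
    fun k => ⟨k.1.1, by simpa [ZMod.isUnit_prime_iff_not_dvd k.1.1] using k.2⟩⟩
  exact_mod_cast Nat.le_of_dvd (Nat.pos_of_ne_zero d0) k.2

theorem sq2 (z : ℝ) : ∑ p ∈ pz z, 1 / (p : ℝ) ^ 2 ≤ 2 := by
  refine (sum_le_sum_of_subset_of_nonneg (t := Ioo 0 (⌊z⌋₊ + 1)) (fun p hp => ?_)
    fun _ _ _ => by positivity).trans
      (by simpa using sum_Ioo_inv_sq_le (α := ℝ) 0 (⌊z⌋₊ + 1))
  have := mem_Icc.1 (mem_filter.1 hp).1
  exact mem_Ioo.2 (by omega)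

theorem nrm {p : ℕ} (hp : p.Prime) {z : ℝ} (h : (p : ℝ) ≤ z) {a : ℂ} (ha : ‖a‖ * Real.log z ≤ 1) :
    ‖(p : ℂ) ^ (-a)‖ ≤ 3 := by
  have p0 : (0 : ℝ) < p := by exact_mod_cast hp.pos
  rw [norm_natCast_cpow_of_pos hp.pos, Real.rpow_def_of_pos p0]
  refine (Real.exp_le_exp.2 ?_).trans (Real.exp_one_lt_d9.le.trans (by norm_num))
  have := mul_le_mul (Real.log_le_log p0 h) ((re_le_norm (-a)).trans_eq (norm_neg a))
  rcases le_total (-a).re 0 with k | k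
  · exact (mul_nonpos_of_nonneg_of_nonpos (Real.log_natCast_nonneg p) k).trans zero_le_one
  · exact (this k ((Real.log_natCast_nonneg p).trans (Real.log_le_log p0 h))).trans
      ((mul_comm _ _).trans_le ha)

end YyA

open YyA in
theorem yyOf : YyOf := by
  rintro ⟨M, -, -, -, hM⟩ hB hA hE ⟨hF, hX, -⟩ hN hL c C K₀ hC hK
  obtain ⟨K, K1, hL⟩ := hL K₀ hK
  obtain ⟨Ce, A, e1, hE⟩ := hE.2 K 6 (by linarith)
  obtain ⟨Ca, a1, hA⟩ := (hA _ _ 0 (hF (1 / 2) (by norm_num) (by norm_num)).1).2.2.2 (A + 1)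
  set G := (C * Real.exp M) ^ 2 * Real.exp (2 * K) * (1 + Ce * 2 ^ A) with hG
  refine ⟨max 1 (Ca * (Ca * G)), le_max_left _ _, ?_⟩
  intro D _ χ β z F Λ a b u v φ h2 ⟨F0, _, hO⟩ z5 hD hΛ ha hb hu hv hφ hp
  have z0 : 0 ≤ z := by linarith
  have l0 : 0 < Real.log z := Real.log_pos (by linarith)
  have Λ0 := l0.trans_le hΛ
  have hx := hX D χ h2
  have R0 : 0 < F ^ 2 * (D.totient / D) := by
    have := Nat.totient_pos.2 (NeZero.pos D)
    have := NeZero.pos D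
    positivity
  have pr : ∀ p ∈ pz z, p.Prime := fun p k => ((mem z0).1 k).1
  have q0 : ∀ p ∈ pz z, 1 / (p : ℝ) ≤ 1 := fun p k =>
    div_le_one_of_le₀ (by exact_mod_cast (pr p k).one_le) (Nat.cast_nonneg p)
  have b1 : F * |∏ p ∈ pz z, (1 - xr χ p / p)| ≤ C * Real.log z := by
    refine le_of_eq_of_le ?_ hO
    rw [← Real.norm_eq_abs, ← norm_real, ez]
    simp [(hx _).1, cpow_neg_one, div_eq_mul_inv]
  have b2 : Real.log z * ∏ p ∈ pz z, (1 - 1 / (p : ℝ)) ≤ Real.exp M := by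
    have := (abs_le.1 (hM z (by linarith))).1
    refine (mul_le_mul_of_nonneg_left (prod_le_prod (fun p k => sub_nonneg.2 (q0 p k))
      fun p _ => Real.one_sub_le_exp_neg _) l0.le).trans ?_
    rw [← Real.exp_sum, ← Real.exp_log l0, ← Real.exp_add, sum_neg_distrib]
    exact Real.exp_le_exp.2 (by linarith)
  have b3 : (F * ((∏ p ∈ pz z, (1 - 1 / (p : ℝ))) * ∏ p ∈ pz z, (1 - xr χ p / p))) ^ 2 ≤
      (C * Real.exp M) ^ 2 := by
    have k := prod_nonneg fun p k => sub_nonneg.2 (q0 p k)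
    refine sq_le_sq.2 (le_trans ?_ (le_abs_self _))
    rw [abs_mul, abs_mul, abs_of_pos F0, abs_of_nonneg k, mul_left_comm]
    refine (mul_le_mul_of_nonneg_left b1 k).trans ?_
    rw [mul_left_comm, mul_comm _ (Real.log z)]
    exact mul_le_mul_of_nonneg_left b2 (by linarith)
  have key : ∀ ξ ξ' : ℝ, ‖∏ p ∈ pz z, lb p (m0 p) (n1 z p (χ p) (p ^ ex Λ 0 ξ)) (m0 p)
      (n1 z p (χ p) (p ^ ex Λ 0 ξ')) (φ p) (φ (p ^ 2))‖ ≤
      G * E0 χ z ^ 2 / (F ^ 2 * (D.totient / D)) * (1 + |ξ'|) ^ (A + 1) * (1 + |ξ|) ^ (A + 1) := by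
    intro ξ ξ'
    have x0 := abs_nonneg ξ
    have x1 := abs_nonneg ξ'
    have t1 : 1 ≤ (1 + |ξ'|) * (1 + |ξ|) := by nlinarith
    have r : ∀ ξ : ℝ, (ex Λ 0 ξ).re = 0 ∧ ‖ex Λ 0 ξ‖ * Real.log z ≤ |ξ| := fun ξ => by
      refine ⟨by simp [ex], ?_⟩
      have : ‖ex Λ 0 ξ‖ = |ξ| / Λ := by simp [ex, abs_of_pos Λ0]
      rw [this, div_mul_eq_mul_div, div_le_iff₀ Λ0]
      exact mul_le_mul_of_nonneg_left hΛ (abs_nonneg _)
    have r' : ∀ w : ℂ, ‖w‖ * Real.log z ≤ 1 → |(-w).re| * Real.log z ≤ 1 ∧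
        ‖-w‖ * Real.log z ≤ (1 + |ξ'|) * (1 + |ξ|) := fun w h =>
      ⟨(mul_le_mul_of_nonneg_right ((abs_re_le_norm _).trans_eq (norm_neg w)) l0.le).trans h,
        norm_neg w ▸ h.trans t1⟩
    have e := hE z _ ![ex Λ 0 ξ, ex Λ 0 ξ', -a, -b, -u, -v] (by linarith) (zero_le_one.trans t1)
      fun i => by
        fin_cases i
        exacts [⟨by simp [(r ξ).1], (r ξ).2.trans (by nlinarith)⟩,
          ⟨by simp [(r ξ').1], (r ξ').2.trans (by nlinarith)⟩, r' a ha, r' b hb, r' u hu, r' v hv]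
    have n1' : ∀ p ∈ pz z, ∀ ξ : ℝ, ‖(p : ℂ) ^ ex Λ 0 ξ‖ ≤ 1 := fun p k ξ => by
      rw [norm_natCast_cpow_of_pos (pr p k).pos, (r ξ).1, Real.rpow_zero]
    have f := prod_le_prod (s := pz z) (fun p k => mul_nonneg (norm_nonneg _) (by
      split_ifs
      exacts [sub_nonneg.2 (q0 p k), zero_le_one])) fun p k => hL z (xr χ p) p _ _ _ _ _ _ _ _
        (pr p k) ((mem z0).1 k).2 (hx p).2 (n1' p k ξ) (n1' p k ξ')
        (nrm (pr p k) ((mem z0).1 k).2 ha) (nrm (pr p k) ((mem z0).1 k).2 hb)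
        (nrm (pr p k) ((mem z0).1 k).2 hu) (nrm (pr p k) ((mem z0).1 k).2 hv)
        ((hx p).1 ▸ (hp p (pr p k) ((mem z0).1 k).2).1) (hp p (pr p k) ((mem z0).1 k).2).2
    simp only [(hx _).1, prod_mul_distrib, prod_pow, ← norm_prod, ← tot χ hD fun n => (hx n).1,
      ← Real.exp_sum, sum_add_distrib, ← mul_sum, add_div, Real.exp_add, mul_pow] at f
    simp only [Fin.sum_univ_six, ds, Matrix.cons_val] at e
    have g1 : Real.exp (∑ p ∈ pz z, K / (p : ℝ) ^ 2) ≤ Real.exp (2 * K) := by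
      refine Real.exp_le_exp.2 ?_
      simp only [div_eq_mul_one_div K, ← mul_sum]
      nlinarith [sq2 z]
    rw [mul_assoc, ← mul_pow]
    generalize (1 + |ξ'|) * (1 + |ξ|) = t at e t1 ⊢
    have g2 : 1 + Ce * t * (1 + t) ^ A ≤ (1 + Ce * 2 ^ A) * t ^ (A + 1) := by
      have : (1 + t) ^ A ≤ (2 * t) ^ A := pow_le_pow_left₀ (by linarith) (by linarith) A
      have k1 := mul_le_mul_of_nonneg_left this (by positivity : 0 ≤ Ce * t)
      have k2 := one_le_pow₀ (n := A + 1) t1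
      rw [mul_pow] at k1
      rw [pow_succ] at k2 ⊢
      linarith
    rw [div_mul_eq_mul_div, le_div_iff₀ R0, mul_left_comm]
    refine (mul_le_mul_of_nonneg_left f (sq_nonneg F)).trans ?_
    have g3 := mul_le_mul (mul_le_mul_of_nonneg_right b3 (sq_nonneg (E0 χ z)))
      (mul_le_mul g1 ((sub_le_iff_le_add'.1 e).trans g2) (by positivity) (by positivity))
      (by positivity) (by positivity)
    refine le_trans (le_of_eq ?_) (g3.trans_eq (by rw [hG]; ring))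
    rw [E0]
    ring
  have hN := (hN D χ z Λ z h2 z5 le_rfl Λ0).1
  rw [sum_comm, mul_comm, ← le_div_iff₀ R0]
  simp only [mul_right_comm (nu χ z Λ _ : ℂ) _ (Bh _ _ _), ← sum_mul]
  simp only [mul_comm _ (nu χ z Λ _ : ℂ)]
  rw [(hN _).2]
  refine (hA _ (Ca * (G * E0 χ z ^ 2 / (F ^ 2 * (D.totient / D)))) fun ξ' => ?_).1.trans ?_
  · rw [lin, (hN _).2, mul_assoc]
    refine (hA _ _ fun ξ => ?_).1
    rw [(hB _ _ _ _ _ _ pr hφ).2]
    exact key ξ ξ'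
  · rw [← mul_div_assoc, ← mul_div_assoc, ← mul_assoc Ca G, ← mul_assoc]
    exact div_le_div_of_nonneg_right
      (mul_le_mul_of_nonneg_right (le_max_right _ _) (sq_nonneg _)) R0.le

end Pool.Agent.MP_20b2fd_nt.H39
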