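import Pool.Agent.MP_20b2fd_nt.H39.SpecM

/-! The pole of the zeta function. -/

set_option autoImplicit false

namespace Pool.Agent.MP_20b2fd_nt.H39

open DirichletCharacter

theorem zt : ZtS := by
  have hd := differentiable_LFunctionTrivChar₁ 1
  have hc : ContinuousOn (dslope (LFunctionTrivChar₁ 1) 1) Set.univ :=
    (continuousOn_dslope Filter.univ_mem).2 ⟨hd.continuous.continuousOn, hd 1⟩
  obtain ⟨C, hC⟩ := (isCompact_closedBall (1 : ℂ) (1 / 2)).exists_bound_of_continuousOn
    (hc.mono (Set.subset_univ _))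
  refine ⟨max 1 C, le_max_left _ _, fun s hs h => ?_⟩
  have h1 := hC (1 + s) (by simpa using h)
  have h2 := sub_smul_dslope (LFunctionTrivChar₁ 1) 1 (1 + s)
  rw [LFunctionTrivChar₁, Function.update_of_ne (by simpa using hs), Function.update_self,
    add_sub_cancel_left, Nat.primeFactors_one, Finset.prod_empty] at h2
  rw [← show _ = s * LFunction (1 : DirichletCharacter ℂ 1) (1 + s) - 1 from h2, norm_smul,
    mul_comm]
  refine mul_le_mul_of_nonneg_right (le_trans ?_ (le_max_right _ _)) (norm_nonneg _)
  simpa [LFunctionTrivChar₁] using h1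

end Pool.Agent.MP_20b2fd_nt.H39
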