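import Pool.Agent.MP_20b2fd_nt.H38.Mer
import Pool.Agent.MP_20b2fd_nt.H38.Fl
import Pool.Agent.MP_20b2fd_nt.H38.Eu
import Pool.Agent.MP_20b2fd_nt.H38.Ms
import Pool.Agent.MP_20b2fd_nt.H39.Bm
import Pool.Agent.MP_20b2fd_nt.H39.Av
import Pool.Agent.MP_20b2fd_nt.H39.Ji
import Pool.Agent.MP_20b2fd_nt.H39.Ez
import Pool.Agent.MP_20b2fd_nt.H39.Ro
import Pool.Agent.MP_20b2fd_nt.H39.F1
import Pool.Agent.MP_20b2fd_nt.H39.Fx1
import Pool.Agent.MP_20b2fd_nt.H39.Fx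
import Pool.Agent.MP_20b2fd_nt.H39.Fn
import Pool.Agent.MP_20b2fd_nt.H39.Ey
import Pool.Agent.MP_20b2fd_nt.H39.Lx
import Pool.Agent.MP_20b2fd_nt.H39.Zt
import Pool.Agent.MP_20b2fd_nt.H39.Rz
import Pool.Agent.MP_20b2fd_nt.H39.Xp
import Pool.Agent.MP_20b2fd_nt.H39.Xy
import Pool.Agent.MP_20b2fd_nt.H39.Ly
import Pool.Agent.MP_20b2fd_nt.H39.Yy

/-! The sums over the mollifiers put together. -/

namespace Pool.Agent.MP_20b2fd_nt.H39.All

open H38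

theorem avS : AvS := avOf fl
theorem jiS : JiS := jiOf fl avS
theorem ezS : EzS := ezOf mer (msOf mer)
theorem roS : RoS := roOf mer (euOf mer)
theorem f1S : F1S := f1Of mer
theorem fxS : FxS := fxOf avS f1S fx1
theorem fnS : FnS := fnOf bm avS f1S
theorem eyS : EyS := eyOf bm avS ezS f1S fnS
theorem rzS : RzS := rzOf mer ezS roS zt
theorem xpS : XpS := xpOf ezS roS f1S lx rzS
theorem xyS : XyS := xyOf bm avS f1S fxS fnS rzS xpS
theorem yyS : YyS := yyOf mer bm avS ezS f1S fnS ly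

end Pool.Agent.MP_20b2fd_nt.H39.All
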