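import Pool.Agent.MP_20b2fd_nt.H39.SpecH
import Pool.Agent.MP_20b2fd_nt.H75.SpecE

/-! The two forms of the statement on the main terms. -/

set_option autoImplicit false

namespace Pool.Agent.MP_20b2fd_nt.H39

open Complex Finset
open Pool.Agent.MP_20b2fd_nt.H38
open scoped Real

namespace BrA

theorem bh_re (R : ℕ → ℂ) (m n : ℕ) : (Bh R m n).re = Bh (fun k => (R k).re) m n := by
  simp only [Bh, re_sum]
  refine sum_congr rfl fun d _ => ?_
  rw [← ofReal_natCast, re_ofReal_mul]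

end BrA

open BrA in
theorem ms_of (h : MmS) : H75.MS := by
  intro C₀ c C hc hc1 hC
  have h0 : 0 < max C₀ 1 := lt_max_of_lt_right one_pos
  refine ⟨π * Real.exp (-(max C₀ 1) / 2), 2 + max C₀ 1, by positivity, by linarith,
    fun ε hε hε1 => ?_⟩
  obtain ⟨ρ₀, hρ₀, h⟩ := h c C (max C₀ 1) ε hc hc1 hC h0 hε hε1
  refine ⟨ρ₀, 0, hρ₀, fun N D _ χ β z F Λ ρ j _ hρ s => ?_⟩
  have z0 : 0 < z := by linarith [s.z5]
  have r0 : 0 < ρ := (pos_iff_pos_of_mul_pos (lt_of_lt_of_le one_pos s.zr)).2 z0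
  have l1 : 1 ≤ Real.log z := by
    rw [Real.le_log_iff_exp_le z0]
    linarith [Real.exp_one_lt_d9, s.z5]
  have hy : Hy c C (max C₀ 1) ρ N D χ β z F Λ :=
    ⟨s.sq, s.ne, s.lo, s.b1, s.b0.trans (le_max_left _ _), s.z5, s.zD, s.zr,
      l1.trans (s.zL.trans (mul_le_mul_of_nonneg_left s.LN r0.le)), s.zL, s.LN⟩
  have hj : j = 0 ∨ j = 1 := by have := s.hj; omega
  obtain ⟨h1, h2⟩ := h ρ N D χ β z F Λ j r0 hρ hy hj
  have e : H75.y0 χ β z F j = y0 j β F (E0 χ z) := by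
    rcases hj with rfl | rfl <;> simp [H75.y0, y0]
  have e1 : ∑ l ∈ Icc 1 (Mz Λ), nu χ z Λ l * (F5.R1 χ j (Qc D N) l).re =
      (∑ l ∈ Icc 1 (Mz Λ), (nu χ z Λ l : ℂ) * F5.R1 χ j (Qc D N) l).re := by
    simp only [re_sum, re_ofReal_mul]
  rw [e, e1]
  refine ⟨(abs_re_le_norm _).trans h1, h2.trans (le_of_eq ?_)⟩
  rw [sub_re]
  congr 1
  · rw [show (4 * π * AX N : ℂ) = ((4 * π * AX N : ℝ) : ℂ) by push_cast; rfl, re_ofReal_mul]
  · simp only [re_sum]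
    refine sum_congr rfl fun i _ => sum_congr rfl fun l _ => ?_
    rw [← ofReal_mul, re_ofReal_mul, bh_re]

end Pool.Agent.MP_20b2fd_nt.H39
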