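import Pool.Agent.MP_20b2fd_nt.H39.SpecH

/-! Row Co: three functions near the origin. -/

set_option autoImplicit false

namespace Pool.Agent.MP_20b2fd_nt.H39

open Complex

namespace CoA

theorem cauchy {f : ℂ → ℂ} {f' : ℂ} {L C : ℝ} (hL : 0 < L) (hd : DifferentiableOn ℂ f (Metric.ball 0 (1 / L)))
    (hf : HasDerivAt f f' 0) (hC : ∀ u : ℂ, ‖u‖ * L ≤ 1 / 4 → ‖f u‖ ≤ C) : ‖f'‖ ≤ 4 * L * C := by
  have h1 : Metric.closedBall (0 : ℂ) (1 / (4 * L)) ⊆ Metric.ball 0 (1 / L) :=
    Metric.closedBall_subset_ball (one_div_lt_one_div_of_lt hL (by linarith))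
  have h2 := norm_deriv_le_of_forall_mem_sphere_norm_le (C := C) (show 0 < 1 / (4 * L) by positivity)
    (hd.diffContOnCl_ball h1) fun z hz => hC z (by
      rw [mem_sphere_zero_iff_norm.mp hz]
      exact le_of_eq (by field_simp))
  rw [hf.deriv] at h2
  exact h2.trans_eq (by field_simp)

theorem re_ge {a r : ℂ} {x c : ℝ} (h : x ≤ a.re) (hr : ‖r‖ ≤ c) : x - c ≤ (a + r).re := by
  rw [add_re]
  have := (abs_le.mp ((abs_re_le_norm r).trans hr)).1
  linarith

end CoA

theorem co : CoS := by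
  intro C₀ hC
  obtain ⟨x, hx⟩ : ∃ x : ℝ, x = Real.exp (-C₀ / 2) := ⟨_, rfl⟩
  have hx0 : 0 < x := hx ▸ Real.exp_pos _
  have hx1 : x ≤ 1 := hx ▸ Real.exp_le_one_iff.mpr (by linarith)
  obtain ⟨η, hη⟩ : ∃ η : ℝ, η = x / (100 * (1 + C₀)) := ⟨_, rfl⟩
  have hη0 : 0 < η := by rw [hη]; positivity
  have hη1 : η * (100 * (1 + C₀)) = x := by rw [hη]; field_simp
  have hη2 : η ≤ 1 / 100 := by nlinarith
  refine ⟨η, hη0, fun L d F E V j P e G k hL hd hdL hF hE hV hV1 hj hP he hG hk hP0 hb hk0 hk1 => ?_⟩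
  have hL0 : 0 < L := by linarith
  have hxe : L * x ≤ L * Real.exp (-(d * L / 2)) :=
    mul_le_mul_of_nonneg_left (hx ▸ Real.exp_le_exp.mpr (by linarith)) hL0.le
  replace hk0 := hxe.trans hk0
  replace hk1 := hxe.trans hk1
  rw [← hx]
  have hK : ∀ u : ℂ, ‖u‖ * L ≤ 1 / 4 → ‖2 * V * L * e u - G u - E * V * k u‖ ≤ 3 * η * L * E * V := by
    intro u hu
    obtain ⟨-, h2, h3, -⟩ := hb u hu
    have e1 : 2 * V * L * e u - G u - E * V * k u =
        (2 * V * L * E - G u - E * V * k u) + ((2 * V * L : ℝ) : ℂ) * (e u - E) := by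
      push_cast
      ring
    rw [e1]
    refine (norm_add_le _ _).trans ?_
    rw [norm_mul, norm_real, Real.norm_of_nonneg (by positivity)]
    have h4 : 2 * V * L * ‖e u - E‖ ≤ 2 * 1 * L * (η * V * E) := by gcongr
    linarith
  have h00 : ‖(0 : ℂ)‖ * L ≤ 1 / 4 := by simp
  obtain ⟨-, he0, -, hkn⟩ := hb 0 h00
  have he1 : ‖e 0‖ ≤ (1 + η) * E := by
    have h1 := norm_add_le (e 0 - E) E
    rw [sub_add_cancel, norm_real, Real.norm_of_nonneg hE.le] at h1
    have h2 : η * V * E ≤ η * 1 * E := by gcongr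
    linarith
  obtain ⟨r3, hr3⟩ : ∃ r : ℂ, r = 2 * V * L * e 0 - G 0 - E * V * k 0 := ⟨_, rfl⟩
  have n3 : ‖r3‖ ≤ 3 * η * L * E * V := hr3 ▸ hK 0 h00
  have hFEV : 0 < F * E * V := by positivity
  rcases hj with rfl | rfl
  · simp only [iteratedDeriv_zero, y0, if_true, sub_sub_cancel, hP0]
    constructor
    · rw [norm_mul, ← ofReal_mul, norm_real, Real.norm_of_nonneg (by positivity)]
      have h1 : d * F * ‖e 0‖ ≤ d * F * ((2 + C₀) * E) := by
        gcongr
        exact he1.trans (mul_le_mul_of_nonneg_right (by linarith) hE.le)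
      linarith
    · have e1 : 2 * V * L * (d * F * e 0) - d * F * G 0 =
          ((d * F * E * V : ℝ) : ℂ) * k 0 + ((d * F : ℝ) : ℂ) * r3 := by
        rw [hr3]
        push_cast
        ring
      rw [e1]
      refine le_trans ?_ (CoA.re_ge (x := d * F * E * V * (L * x)) (c := d * F * (3 * η * L * E * V)) ?_ ?_)
      · have : 0 ≤ d * (F * E * V) * L * (x / 2 - 3 * η) := by
          have : 0 ≤ x / 2 - 3 * η := by nlinarith
          positivity
        linarith
      · rw [re_ofReal_mul]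
        exact mul_le_mul_of_nonneg_left hk0 (by positivity)
      · rw [norm_mul, norm_real, Real.norm_of_nonneg (by positivity)]
        exact mul_le_mul_of_nonneg_left n3 (by positivity)
  · have dP : HasDerivAt P (deriv P 0) 0 :=
      (hP.differentiableAt (Metric.ball_mem_nhds _ (by positivity))).hasDerivAt
    have de : HasDerivAt e (deriv e 0) 0 := (he 0).hasDerivAt
    have dG : HasDerivAt G (deriv G 0) 0 := (hG 0).hasDerivAt
    have dk : HasDerivAt k (deriv k 0) 0 := (hk 0).hasDerivAt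
    have dm : HasDerivAt (fun u : ℂ => F * exp (u * L / 2) * (u + d)) (F * (1 + d * L / 2)) 0 := by
      have h1 := (((((hasDerivAt_id (0 : ℂ)).mul_const (L : ℂ)).div_const 2).cexp.const_mul (F : ℂ)).mul
        ((hasDerivAt_id (0 : ℂ)).add_const (d : ℂ)))
      refine h1.congr_deriv ?_
      simp only [id, zero_mul, zero_div, exp_zero]
      ring
    have n1 := CoA.cauchy hL0 (hP.sub (by fun_prop)) (dP.sub dm) fun u hu => (hb u hu).1
    have n2 := CoA.cauchy hL0 (he.sub_const (E : ℂ)).differentiableOn (de.sub_const (E : ℂ))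
      fun u hu => (hb u hu).2.1
    have n4 := CoA.cauchy (f := fun u => 2 * V * L * e u - G u - E * V * k u) hL0
      (Differentiable.differentiableOn (by fun_prop))
      (((de.const_mul (2 * V * L : ℂ)).sub dG).sub (dk.const_mul (E * V : ℂ))) hK
    have eP : deriv (fun u => P u * e u) 0 = deriv P 0 * e 0 + P 0 * deriv e 0 := (dP.mul de).deriv
    have eG : deriv (fun u => P u * G u) 0 = deriv P 0 * G 0 + P 0 * deriv G 0 := (dP.mul dG).deriv
    simp only [iteratedDeriv_one, y0, one_ne_zero, if_false, mul_one, eP, eG, hP0]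
    obtain ⟨r1, hr1⟩ : ∃ r : ℂ, r = deriv P 0 - F * (1 + d * L / 2) := ⟨_, rfl⟩
    obtain ⟨r2, hr2⟩ : ∃ r : ℂ, r = 2 * V * L * deriv e 0 - deriv G 0 - E * V * deriv k 0 := ⟨_, rfl⟩
    rw [← hr1] at n1
    rw [← hr2] at n4
    replace n1 : ‖r1‖ ≤ 4 * η * F := n1.trans_eq (by field_simp)
    have nm : ‖((F * (1 + d * L / 2) : ℝ) : ℂ)‖ ≤ F * (1 + C₀ / 2) := by
      rw [norm_real, Real.norm_of_nonneg (by positivity)]
      gcongr
    have ndF : ‖((d * F : ℝ) : ℂ)‖ = d * F := by rw [norm_real, Real.norm_of_nonneg (by positivity)]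
    constructor
    · have e1 : deriv P 0 * e 0 + d * F * deriv e 0 =
          (((F * (1 + d * L / 2) : ℝ) : ℂ) + r1) * e 0 + ((d * F : ℝ) : ℂ) * deriv e 0 := by
        rw [hr1]
        push_cast
        ring
      rw [e1]
      refine (norm_add_le _ _).trans ?_
      rw [norm_mul, norm_mul, ndF]
      have h1 : ‖((F * (1 + d * L / 2) : ℝ) : ℂ) + r1‖ * ‖e 0‖ ≤
          (F * (1 + C₀ / 2) + 4 * η * F) * ((1 + η) * E) :=
        mul_le_mul ((norm_add_le _ _).trans (add_le_add nm n1)) he1 (norm_nonneg _) (by positivity)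
      have h2 : d * F * ‖deriv e 0‖ ≤ 4 * C₀ * η * (F * E) := by
        calc d * F * ‖deriv e 0‖ ≤ d * F * (4 * L * (η * V * E)) := by gcongr
          _ = 4 * (d * L) * η * (F * E) * V := by ring
          _ ≤ 4 * C₀ * η * (F * E) * 1 := by gcongr
          _ = _ := mul_one _
      have h3 : (1 + C₀ / 2 + 4 * η) * (1 + η) + 4 * C₀ * η ≤ 2 + C₀ := by nlinarith
      have h4 := mul_le_mul_of_nonneg_right h3 (show 0 ≤ F * E by positivity)
      linarith
    · have e1 : 2 * V * L * (deriv P 0 * e 0 + d * F * deriv e 0) - (deriv P 0 * G 0 + d * F * deriv G 0) =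
          ((F * E * V : ℝ) : ℂ) * ((1 + d * L / 2) * k 0 + d * deriv k 0) +
          (((F * (1 + d * L / 2) : ℝ) : ℂ) * r3 + r1 * (((E * V : ℝ) : ℂ) * k 0) + r1 * r3 +
            ((d * F : ℝ) : ℂ) * r2) := by
        rw [hr1, hr2, hr3]
        push_cast
        ring
      rw [e1]
      refine le_trans ?_ (CoA.re_ge (x := F * E * V * (L * x)) (c := F * E * V * L * (x / 2)) ?_ ?_)
      · exact le_of_eq (by ring)
      · rw [re_ofReal_mul]
        exact mul_le_mul_of_nonneg_left hk1 hFEV.le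
      · have a1 : ‖((F * (1 + d * L / 2) : ℝ) : ℂ) * r3‖ ≤ F * (1 + C₀ / 2) * (3 * η * L * E * V) := by
          rw [norm_mul]
          exact mul_le_mul nm n3 (norm_nonneg _) (by positivity)
        have a2 : ‖r1 * (((E * V : ℝ) : ℂ) * k 0)‖ ≤ 4 * η * F * (E * V * ((7 + 2 * C₀) * L)) := by
          rw [norm_mul, norm_mul, norm_real, Real.norm_of_nonneg (by positivity)]
          gcongr
        have a3 : ‖r1 * r3‖ ≤ 4 * η * F * (3 * η * L * E * V) := by
          rw [norm_mul]
          gcongr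
        have a4 : ‖((d * F : ℝ) : ℂ) * r2‖ ≤ 12 * C₀ * η * (F * E * V * L) := by
          rw [norm_mul, ndF]
          calc d * F * ‖r2‖ ≤ d * F * (4 * L * (3 * η * L * E * V)) := by gcongr
            _ = 12 * (d * L) * η * (F * E * V * L) := by ring
            _ ≤ 12 * C₀ * η * (F * E * V * L) := by gcongr
        have a5 : η * (3 * (1 + C₀ / 2) + 4 * (7 + 2 * C₀) + 12 * η + 12 * C₀) ≤ x / 2 := by
          have b1 := mul_le_mul_of_nonneg_left hη2 hη0.le
          have b2 := mul_pos hη0 hC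
          linarith
        have a6 := mul_le_mul_of_nonneg_left a5 (show 0 ≤ F * E * V * L by positivity)
        refine (norm_add_le _ _).trans ((add_le_add (norm_add₃_le.trans (add_le_add (add_le_add a1 a2) a3))
          a4).trans (le_trans (le_of_eq ?_) a6))
        ring

end Pool.Agent.MP_20b2fd_nt.H39
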