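import Pool.Agent.MP_20b2fd_nt.H39.SpecH

/-! The inequalities for the transform of the cutoff. -/

set_option autoImplicit false

namespace Pool.Agent.MP_20b2fd_nt.H39

open MeasureTheory Complex Finset
open Pool.Agent.MP_20b2fd_nt.H38
open scoped Real Topology

namespace IaA

theorem der (f : ℝ → ℝ) (Λ : ℝ) (hΛ : 0 < Λ) (hf : Continuous f) (hf1 : ∀ t, |f t| ≤ 1) (α : ℂ) :
    HasDerivAt (fun x : ℂ => ∫ t in (0 : ℝ)..Λ, exp (-x * t) * (f t : ℂ))
      (∫ t in (0 : ℝ)..Λ, -(t : ℂ) * exp (-α * t) * (f t : ℂ)) α := by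
  have hc : ∀ x : ℂ, Continuous fun t : ℝ => exp (-x * t) * (f t : ℂ) := fun x => by fun_prop
  have hc' : ∀ x : ℂ, Continuous fun t : ℝ => -(t : ℂ) * exp (-x * t) * (f t : ℂ) :=
    fun x => by fun_prop
  refine (intervalIntegral.hasDerivAt_integral_of_dominated_loc_of_deriv_le
    (F := fun (x : ℂ) (t : ℝ) => exp (-x * t) * (f t : ℂ))
    (F' := fun (x : ℂ) (t : ℝ) => -(t : ℂ) * exp (-x * t) * (f t : ℂ))
    (bound := fun _ => Λ * Real.exp ((‖α‖ + 1) * Λ)) (Metric.ball_mem_nhds α one_pos)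
    (Filter.Eventually.of_forall fun x => (hc x).aestronglyMeasurable)
    ((hc α).intervalIntegrable _ _) (hc' α).aestronglyMeasurable
    (Filter.Eventually.of_forall ?_) intervalIntegrable_const
    (Filter.Eventually.of_forall ?_)).2
  · intro t ht x hx
    rw [Set.uIoc_of_le hΛ.le] at ht
    have ht0 : 0 ≤ t := ht.1.le
    have hx1 : ‖x‖ ≤ ‖α‖ + 1 := by
      have h1 : ‖x - α‖ < 1 := by rwa [← dist_eq_norm, ← Metric.mem_ball]
      calc ‖x‖ = ‖α + (x - α)‖ := by ring_nf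
        _ ≤ ‖α‖ + ‖x - α‖ := norm_add_le _ _
        _ ≤ ‖α‖ + 1 := by linarith
    have h2 : ‖exp (-x * t)‖ ≤ Real.exp ((‖α‖ + 1) * Λ) := by
      refine (Complex.norm_exp_le_exp_norm _).trans (Real.exp_le_exp.2 ?_)
      rw [norm_mul, norm_neg, Complex.norm_real, Real.norm_eq_abs, abs_of_nonneg ht0]
      exact mul_le_mul hx1 ht.2 ht0 (by positivity)
    rw [norm_mul, norm_mul, norm_neg, Complex.norm_real, Complex.norm_real, Real.norm_eq_abs,
      Real.norm_eq_abs, abs_of_nonneg ht0]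
    calc t * ‖exp (-x * t)‖ * |f t| ≤ t * ‖exp (-x * t)‖ * 1 :=
          mul_le_mul_of_nonneg_left (hf1 t) (by positivity)
      _ = t * ‖exp (-x * t)‖ := mul_one _
      _ ≤ _ := mul_le_mul ht.2 h2 (norm_nonneg _) hΛ.le
  · intro t _ x _
    have h1 : HasDerivAt (fun x : ℂ => -x * t) (-(t : ℂ)) x := by
      simpa using ((hasDerivAt_id x).neg.mul_const (t : ℂ))
    have h2 := (h1.cexp).mul_const (f t : ℂ)
    exact h2.congr_deriv (by ring)

theorem cmp (f g G : ℝ → ℝ) (Λ : ℝ) (hΛ : 0 < Λ) (hf : Continuous f) (hg : Continuous g)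
    (hf1 : ∀ t, f t ≤ 1) (hg0 : ∀ t, 0 ≤ t → t ≤ Λ → 0 ≤ g t) (hG : ∀ t, HasDerivAt G (g t) t) :
    ∫ t in (0 : ℝ)..Λ, g t * f t ≤ G Λ - G 0 := by
  rw [← intervalIntegral.integral_eq_sub_of_hasDerivAt (fun t _ => hG t)
    (hg.intervalIntegrable _ _)]
  refine intervalIntegral.integral_mono_on hΛ.le ((hg.mul hf).intervalIntegrable _ _)
    (hg.intervalIntegrable _ _) fun t ht => ?_
  calc g t * f t ≤ g t * 1 := mul_le_mul_of_nonneg_left (hf1 t) (hg0 t ht.1 ht.2)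
    _ = g t := mul_one _

end IaA

theorem iaOf : IaOf := by
  intro hF1 ε Λ L d hε hε1 hΛ hL hd
  obtain ⟨hBp, hf⟩ := hF1.1 ε hε hε1
  obtain ⟨f, hfd⟩ : ∃ f : ℝ → ℝ, f = fun t => f1 ε (t / Λ) := ⟨_, rfl⟩
  have hfc : Continuous f := by
    rw [hfd]
    exact (hBp.2.1 0).continuous.comp (continuous_id.div_const Λ)
  have hf0 : ∀ t, 0 ≤ f t := fun t => by rw [hfd]; exact (hf _).1
  have hf1 : ∀ t, f t ≤ 1 := fun t => by rw [hfd]; exact (hf _).2.1
  have hfa : ∀ t, |f t| ≤ 1 := fun t => by rw [abs_of_nonneg (hf0 t)]; exact hf1 t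
  have hI : Ia ε Λ = fun x : ℂ => ∫ t in (0 : ℝ)..Λ, exp (-x * t) * (f t : ℂ) := by
    funext x
    unfold Ia
    rw [intervalIntegral.integral_of_le hΛ.le, hfd]
    refine setIntegral_eq_of_subset_of_forall_sdiff_eq_zero measurableSet_Ioi
      Set.Ioc_subset_Ioi_self fun t ht => ?_
    have h1 : Λ < t := by
      by_contra h
      exact ht.2 ⟨ht.1, not_lt.1 h⟩
    have h2 : f1 ε (t / Λ) = 0 := (hf _).2.2.2 ((one_le_div hΛ).2 h1.le)
    rw [h2]; simp
  have hD : ∀ α : ℂ, HasDerivAt (Ia ε Λ)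
      (∫ t in (0 : ℝ)..Λ, -(t : ℂ) * exp (-α * t) * (f t : ℂ)) α := fun α => by
    rw [hI]; exact IaA.der f Λ hΛ hfc hfa α
  refine ⟨fun α => (hD α).differentiableAt, ?_⟩
  intro k hk
  obtain ⟨a0, ha0⟩ : ∃ a0 : ℝ, a0 = ∫ t in (0 : ℝ)..Λ, Real.exp (-d * t) * f t := ⟨_, rfl⟩
  obtain ⟨a1, ha1⟩ : ∃ a1 : ℝ, a1 = ∫ t in (0 : ℝ)..Λ, t * Real.exp (-d * t) * f t := ⟨_, rfl⟩
  obtain ⟨b0, hb0⟩ : ∃ b0 : ℝ, b0 = ∫ t in (0 : ℝ)..Λ, 1 * f t := ⟨_, rfl⟩
  have e0 : Ia ε Λ 0 = b0 := by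
    rw [hI, hb0, ← intervalIntegral.integral_ofReal]
    simp
  have e1 : Ia ε Λ d = a0 := by
    rw [hI, ha0, ← intervalIntegral.integral_ofReal]
    push_cast
    rfl
  have e2 : (∫ t in (0 : ℝ)..Λ, -(t : ℂ) * exp (-(d : ℂ) * t) * (f t : ℂ)) = -(a1 : ℂ) := by
    rw [ha1, ← intervalIntegral.integral_ofReal, ← intervalIntegral.integral_neg]
    congr 1
    funext t
    push_cast
    ring
  have hk0 : k 0 = ((2 * L - 2 * b0 - L * d * a0 : ℝ) : ℂ) := by
    rw [hk]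
    simp only [zero_add]
    rw [e0, e1]
    push_cast
    ring
  have hk1 : deriv k 0 = ((-(L * (a0 - d * a1)) : ℝ) : ℂ) := by
    have h1 : HasDerivAt (fun u : ℂ => u + d) 1 0 := (hasDerivAt_id (0 : ℂ)).add_const _
    have h2 : HasDerivAt (Ia ε Λ) (-(a1 : ℂ)) ((0 : ℂ) + d) := by
      rw [zero_add, ← e2]; exact hD d
    have h3 : HasDerivAt (fun u : ℂ => Ia ε Λ (u + d)) (-(a1 : ℂ) * 1) 0 :=
      HasDerivAt.comp (h₂ := Ia ε Λ) (h := fun u : ℂ => u + d) (0 : ℂ) h2 h1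
    have h4 := ((h1.const_mul (L : ℂ)).mul h3).const_sub (2 * L - 2 * Ia ε Λ 0)
    have h5 : HasDerivAt k (-((L : ℂ) * 1 * Ia ε Λ (0 + d) + L * (0 + d) * (-(a1 : ℂ) * 1))) 0 := by
      rw [hk]; exact h4
    rw [h5.deriv, zero_add, e1]
    push_cast
    ring
  have hexp : ∀ t : ℝ, HasDerivAt (fun t : ℝ => Real.exp (-d * t)) (Real.exp (-d * t) * -d) t :=
    fun t => by
      have h1 : HasDerivAt (fun t : ℝ => -d * t) (-d) t := by
        simpa using (hasDerivAt_id t).const_mul (-d)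
      exact h1.exp
  have i0 : b0 ≤ Λ := by
    have := IaA.cmp f (fun _ => 1) (fun t => t) Λ hΛ hfc continuous_const hf1
      (fun _ _ _ => zero_le_one) (fun t => hasDerivAt_id t)
    rw [hb0]
    linarith
  have i1 : d * a0 ≤ 1 - Real.exp (-d * Λ) := by
    have := IaA.cmp f (fun t => d * Real.exp (-d * t)) (fun t => -Real.exp (-d * t)) Λ hΛ hfc
      (by fun_prop) hf1 (fun _ _ _ => by positivity) (fun t =>
        (hexp t).neg.congr_deriv (by ring))
    rw [ha0, ← intervalIntegral.integral_const_mul]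
    simp only [mul_zero, Real.exp_zero] at this
    simp only [← mul_assoc]
    linarith
  obtain ⟨δ, hδ⟩ : ∃ δ : ℝ, δ = d * L / 2 := ⟨_, rfl⟩
  have hδ1 : d * Λ ≤ δ := by rw [hδ]; nlinarith
  have hδ0 : 0 ≤ δ := le_trans (by positivity) hδ1
  have i2 : d * ((2 + δ) * a0 - d * a1) ≤ (1 + δ) - Real.exp (-d * Λ) * (1 + δ - d * Λ) := by
    have := IaA.cmp f (fun t => d * (Real.exp (-d * t) * (2 + δ - d * t)))
      (fun t => -(Real.exp (-d * t) * (1 + δ - d * t))) Λ hΛ hfc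
      (by fun_prop) hf1 (fun t _ ht => by
        have : d * t ≤ d * Λ := mul_le_mul_of_nonneg_left ht hd.le
        have : 0 ≤ 2 + δ - d * t := by linarith
        positivity) (fun t => by
        have h1 : HasDerivAt (fun t : ℝ => 1 + δ - d * t) (-d) t := by
          simpa using ((hasDerivAt_id t).const_mul d).const_sub (1 + δ)
        exact ((hexp t).mul h1).neg.congr_deriv (by ring))
    have h2 : d * ((2 + δ) * a0 - d * a1) =
        ∫ t in (0 : ℝ)..Λ, d * (Real.exp (-d * t) * (2 + δ - d * t)) * f t := by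
      rw [ha0, ha1, ← intervalIntegral.integral_const_mul, ← intervalIntegral.integral_const_mul,
        ← intervalIntegral.integral_sub
          (Continuous.intervalIntegrable (by fun_prop) _ _)
          (Continuous.intervalIntegrable (by fun_prop) _ _),
        ← intervalIntegral.integral_const_mul]
      congr 1
      funext t
      ring
    rw [h2]
    simp only [mul_zero, Real.exp_zero] at this
    linarith
  have hL0 : 0 < L := by linarith
  have i3 : Real.exp (-δ) ≤ Real.exp (-d * Λ) := Real.exp_le_exp.2 (by linarith)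
  have i4 : 0 < Real.exp (-d * Λ) := Real.exp_pos _
  have j1 : L * (1 - d * a0) ≤ 2 * L - 2 * b0 - L * d * a0 := by linarith
  constructor
  · rw [hk0, Complex.ofReal_re, ← hδ]
    refine le_trans ?_ j1
    exact mul_le_mul_of_nonneg_left (by linarith) hL0.le
  · have h1 : (1 + (d : ℂ) * L / 2) * k 0 + d * deriv k 0 =
        (((1 + δ) * (2 * L - 2 * b0 - L * d * a0) + d * -(L * (a0 - d * a1)) : ℝ) : ℂ) := by
      rw [hk0, hk1, hδ]
      push_cast
      ring
    rw [h1, Complex.ofReal_re, ← hδ]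
    have h2 : (1 + δ) * (L * (1 - d * a0)) ≤ (1 + δ) * (2 * L - 2 * b0 - L * d * a0) :=
      mul_le_mul_of_nonneg_left j1 (by linarith)
    have h3 : Real.exp (-δ) ≤ (1 + δ) - d * ((2 + δ) * a0 - d * a1) := by
      have : Real.exp (-d * Λ) * 1 ≤ Real.exp (-d * Λ) * (1 + δ - d * Λ) :=
        mul_le_mul_of_nonneg_left (by linarith) i4.le
      linarith
    have h4 := mul_le_mul_of_nonneg_left h3 hL0.le
    linarith

end Pool.Agent.MP_20b2fd_nt.H39
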