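import Pool.Agent.MP_20b2fd_nt.H39.SpecH
import Pool.Agent.MP_20b2fd_nt.H75.Jm

/-! The shape of the main term of the mixed moment. -/

set_option autoImplicit false

namespace Pool.Agent.MP_20b2fd_nt.H39

open MeasureTheory Complex

namespace JmA

theorem bd (hF : F1S) (ε : ℝ) (N : ℕ) (α : ℂ) (h0 : 0 < ε) (h1 : ε ≤ 1 / 10) (hN : 3 ≤ N)
    (hα : -1 ≤ α.re * Real.log N) : ‖Ia ε (Lx ε N) α‖ ≤ 2 * Real.log N := by
  have hL : 0 < Real.log N := Real.log_pos (by exact_mod_cast (by omega : 1 < N))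
  have hΛ : 0 < Lx ε N := mul_pos (by linarith) hL
  have hΛ2 : Lx ε N ≤ Real.log N / 2 := by unfold Lx; nlinarith
  have hf := (hF.1 ε h0 (by linarith)).2
  have e : Ia ε (Lx ε N) α = ∫ t in Set.Ioc (0 : ℝ) (Lx ε N), exp (-α * t) * f1 ε (t / Lx ε N) := by
    unfold Ia
    refine setIntegral_eq_of_subset_of_forall_sdiff_eq_zero measurableSet_Ioi Set.Ioc_subset_Ioi_self ?_
    intro t ht
    have h2 : Lx ε N < t := by
      by_contra h
      exact ht.2 ⟨ht.1, not_lt.1 h⟩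
    rw [(hf (t / Lx ε N)).2.2.2 ((one_le_div hΛ).2 h2.le)]
    simp
  rw [e]
  have hb : ∀ t ∈ Set.Ioc (0 : ℝ) (Lx ε N), ‖exp (-α * t) * f1 ε (t / Lx ε N)‖ ≤ 3 := by
    intro t ht
    obtain ⟨a, b, -⟩ := hf (t / Lx ε N)
    rw [norm_mul, norm_exp, norm_real, Real.norm_eq_abs, abs_of_nonneg a]
    have h2 : (-α * t).re ≤ 1 := by
      have e2 : (-α * t).re = -α.re * t := by simp
      rw [e2]
      have t0 := ht.1
      have t1 : t ≤ Real.log N := by linarith [ht.2]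
      rcases le_or_gt 0 α.re with z | z
      · nlinarith [mul_nonneg z t0.le]
      · nlinarith [mul_le_mul_of_nonneg_left t1 (neg_pos.2 z).le]
    have h3 : Real.exp (-α * t).re ≤ 3 :=
      (Real.exp_le_exp.2 h2).trans (by linarith [Real.exp_one_lt_d9])
    nlinarith [Real.exp_pos (-α * t).re]
  refine (norm_setIntegral_le_of_norm_le_const (by simp) hb).trans ?_
  rw [Real.volume_real_Ioc_of_le hΛ.le]
  linarith

end JmA

theorem jmOf : JmOf := by
  intro hA hJ hF ε N α h0 h1 hN hα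
  obtain ⟨J₁, J₂, a, b⟩ := H75.jmOf hA hJ hF ε N α h0 h1 (by omega) hα
  exact ⟨J₁, J₂, a, b, JmA.bd hF ε N α h0 h1 hN hα⟩

end Pool.Agent.MP_20b2fd_nt.H39
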