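import Pool.Agent.MP_20b2fd_nt.H39.SpecH

/-! The main terms of the first and of the mixed moment. -/

set_option autoImplicit false

namespace Pool.Agent.MP_20b2fd_nt.H39

open MeasureTheory Complex Finset
open Pool.Agent.MP_20b2fd_nt.H38
open Pool.Agent.MP_c5bf7b_nt.H38 (Phi Ch SiegS)
open DirichletCharacter (LFunction)
open scoped Real

namespace MmA

theorem ls {ι : Type} (I : Finset ι) (f : ι → ℂ → ℂ) {j : ℕ} (hj : j = 0 ∨ j = 1)
    (hf : ∀ i ∈ I, DifferentiableAt ℂ (f i) 0) :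
    iteratedDeriv j (fun u => ∑ i ∈ I, f i u) 0 = ∑ i ∈ I, iteratedDeriv j (f i) 0 := by
  rcases hj with rfl | rfl
  · simp only [iteratedDeriv_zero]
  · simp only [iteratedDeriv_one]
    exact deriv_fun_sum hf

variable {D : ℕ} [NeZero D] (χ : Ch D)

omit [NeZero D] in
theorem de (l : ℕ) : Differentiable ℂ fun u : ℂ => ∑ d ∈ l.divisors, χ d * (d : ℂ) ^ (-u) := by
  refine Differentiable.fun_sum fun d hd => Differentiable.const_mul ?_ _
  refine differentiable_id.neg.const_cpow (Or.inl ?_)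
  exact_mod_cast (Nat.pos_of_mem_divisors hd).ne'

theorem one {j : ℕ} (hj : j = 0 ∨ j = 1) (I : Finset ℕ) (a : ℕ → ℂ) (Q : ℝ)
    (hP : DifferentiableAt ℂ (fun u => F5.gm u * (Q : ℂ) ^ u * LFunction χ (1 + u)) 0) :
    ∑ l ∈ I, a l * F5.R1 χ j Q l = iteratedDeriv j (fun u =>
      F5.gm u * (Q : ℂ) ^ u * LFunction χ (1 + u) *
        ∑ l ∈ I, a l * ∑ d ∈ l.divisors, χ d * (d : ℂ) ^ (-u)) 0 := by
  have e : (fun u => F5.gm u * (Q : ℂ) ^ u * LFunction χ (1 + u) *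
      ∑ l ∈ I, a l * ∑ d ∈ l.divisors, χ d * (d : ℂ) ^ (-u)) = fun u => ∑ l ∈ I, a l *
      (F5.gm u * (Q : ℂ) ^ u * LFunction χ (1 + u) * ∑ d ∈ l.divisors, χ d * (d : ℂ) ^ (-u)) := by
    funext u
    rw [mul_sum]
    exact sum_congr rfl fun l _ => by ring
  rw [e, ls _ _ hj]
  · refine sum_congr rfl fun l _ => ?_
    rw [iteratedDeriv_const_mul_field, F5.R1]
    simp only [mul_assoc]
  · exact fun l _ => (hP.mul (de χ l 0)).const_mul _

theorem two {j : ℕ} (hj : j = 0 ∨ j = 1) (ε z Λ Q : ℝ) (N : ℕ)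
    (hg : DifferentiableAt ℂ (fun u => F5.gm u * (Q : ℂ) ^ u) 0)
    (hH : ∀ n, Differentiable ℂ (F5.Hf χ (F5.LN N) n)) :
    ∑ i ∈ JX ε N, ∑ l ∈ Icc 1 (Mz Λ), (xX ε N i : ℂ) * nu χ z Λ l *
      Bh (F5.Rn χ j (F5.LN N) Q) (nn i) l = π * iteratedDeriv j (fun u =>
      F5.gm u * (Q : ℂ) ^ u * LFunction χ (1 + u) * GG χ ε z Λ N u) 0 := by
  have e : (fun u => F5.gm u * (Q : ℂ) ^ u * LFunction χ (1 + u) * GG χ ε z Λ N u) =
      fun u => ∑ i ∈ JX ε N, ∑ l ∈ Icc 1 (Mz Λ), (xX ε N i : ℂ) * nu χ z Λ l *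
        ∑ d ∈ ((nn i).gcd l).divisors, (d : ℂ) *
          (F5.gm u * (Q : ℂ) ^ u * F5.Hf χ (F5.LN N) (nn i * l / d ^ 2) u) := by
    funext u
    simp only [GG, Bh, mul_sum]
    refine sum_congr rfl fun i _ => sum_congr rfl fun l _ => sum_congr rfl fun d _ => ?_
    rw [F5.Hf]
    ring
  have h1 : ∀ (n : ℕ) (c : ℂ), DifferentiableAt ℂ
      (fun u => c * (F5.gm u * (Q : ℂ) ^ u * F5.Hf χ (F5.LN N) n u)) 0 :=
    fun n c => (hg.mul (hH n 0)).const_mul _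
  rw [e, ls _ _ hj fun i _ => DifferentiableAt.fun_sum fun l _ =>
    (DifferentiableAt.fun_sum fun d _ => h1 _ _).const_mul _, mul_sum]
  refine sum_congr rfl fun i _ => ?_
  rw [ls _ _ hj fun l _ => (DifferentiableAt.fun_sum fun d _ => h1 _ _).const_mul _, mul_sum]
  refine sum_congr rfl fun l _ => ?_
  rw [iteratedDeriv_const_mul_field, ls _ _ hj fun d _ => h1 _ _, mul_left_comm (π : ℂ), Bh,
    mul_sum _ _ (π : ℂ)]
  congr 1
  refine sum_congr rfl fun d _ => ?_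
  rw [iteratedDeriv_const_mul_field, F5.Rn, mul_left_comm]

theorem kb (hJ : JmS) {ε d C₀ : ℝ} {N : ℕ} (h1 : 0 < ε) (h2 : ε ≤ 1 / 10) (hN : 3 ≤ N)
    (hL : 1 ≤ Real.log N) (hd : 0 < d) (hC : d * Real.log N ≤ C₀) {u : ℂ}
    (hu : ‖u‖ * Real.log N ≤ 1 / 4) :
    ‖2 * (Real.log N : ℂ) - 2 * Ia ε (Lx ε N) 0 - (Real.log N : ℝ) * (u + d) *
      Ia ε (Lx ε N) (u + d)‖ ≤ (7 + 2 * C₀) * Real.log N := by
  obtain ⟨-, -, -, -, a1⟩ := hJ ε N 0 h1 h2 hN (by simp)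
  obtain ⟨-, -, -, -, a2⟩ := hJ ε N (u + d) h1 h2 hN (by
    have := (abs_le.1 (abs_re_le_norm u)).1
    rw [add_re, ofReal_re]
    nlinarith)
  set L := Real.log N
  have a3 : ‖(L : ℂ) * (u + d)‖ ≤ 1 / 4 + C₀ := by
    have := norm_add_le u d
    rw [norm_real, Real.norm_of_nonneg hd.le] at this
    rw [norm_mul, norm_real, Real.norm_of_nonneg (by linarith)]
    nlinarith
  have a4 : ‖(L : ℂ) * (u + d) * Ia ε (Lx ε N) (u + d)‖ ≤ (1 / 4 + C₀) * (2 * L) := by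
    rw [norm_mul]
    exact mul_le_mul a3 a2 (norm_nonneg _) ((norm_nonneg _).trans a3)
  have a5 : ‖2 * (L : ℂ)‖ = 2 * L := by
    rw [norm_mul, norm_real, Real.norm_of_nonneg (by linarith), norm_ofNat]
  have a6 : ‖2 * Ia ε (Lx ε N) 0‖ ≤ 2 * (2 * L) := by
    rw [norm_mul, norm_ofNat]
    linarith
  have a7 := norm_sub_le (2 * (L : ℂ)) (2 * Ia ε (Lx ε N) 0)
  refine (norm_sub_le _ _).trans ?_
  nlinarith

end MmA

open MmA in
theorem mmOf : MmOf := by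
  intro hV hA hD hF hE hAp hJ hI hCo hP hG c C C₀ ε hc hc1 hC hC₀ hε hε1
  obtain ⟨η, hη, hCo⟩ := hCo C₀ hC₀
  obtain ⟨ρ₁, hρ₁, hP⟩ := hP c C C₀ η hc hC hC₀ hη
  obtain ⟨ρ₂, hρ₂, hG⟩ := hG c C C₀ ε η hc hc1 hC hC₀ hε hε1 hη
  obtain ⟨K, hK, hE⟩ := hE
  obtain ⟨-, -, hV, -⟩ := hV
  obtain ⟨_, -, hA⟩ := hA
  obtain ⟨-, -, c', hc', hF⟩ := hF
  obtain ⟨-, -, -, v1, v2, -⟩ := hD.2 1 le_rfl
  refine ⟨min (min ρ₁ ρ₂) (min (1 / 2) (η / (30 * K))), by positivity, ?_⟩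
  intro ρ N D _ χ β z F Λ j hρ hρ' H hj
  simp only [le_min_iff] at hρ'
  obtain ⟨⟨r1, r2⟩, r3, r4⟩ := hρ'
  obtain ⟨p1, p2, p3⟩ := hP ρ N D χ β z F Λ hρ r1 H
  obtain ⟨g1, g2⟩ := hG ρ N D χ β z F Λ hρ r2 H
  have hL2 : 2 ≤ Real.log N := by
    have := H.r2
    nlinarith [Real.log_natCast_nonneg N]
  have hN : 3 ≤ N := by
    have h0 : (0 : ℝ) < N := by
      rcases Nat.eq_zero_or_pos N with rfl | h
      · norm_num at hL2
      · exact_mod_cast h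
    have := Real.log_le_sub_one_of_pos h0
    exact_mod_cast (by linarith : (3 : ℝ) ≤ N)
  have hd : 0 < 1 - β := sub_pos.2 H.b1
  have hz : 0 < Real.log z := Real.log_pos (by linarith [H.z5])
  have hE0 : 0 < E0 χ z := lt_of_lt_of_le (by positivity) (hF D χ z H.sq H.z5).1
  have v3 : 1 / 30 ≤ Vr 1 := by simpa using v1
  obtain ⟨i1, i2⟩ := hI ε (Lx ε N) (Real.log N) (1 - β) hε (by linarith)
    (mul_pos (by linarith) (by linarith)) (by unfold Lx; nlinarith) hd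
  obtain ⟨i2, i3⟩ := i2 _ rfl
  have hb : (0 : ℂ) ∈ Metric.ball (0 : ℂ) (1 / Real.log N) := Metric.mem_ball_self (by positivity)
  have hQ : (Qc D N : ℂ) ≠ 0 := by
    have : 0 < D := Nat.pos_of_ne_zero (NeZero.ne D)
    have : 0 < N := by omega
    rw [ofReal_ne_zero, Qc]
    positivity
  have key := hCo (Real.log N) (1 - β) F (E0 χ z) (Vr 1) j _
    (fun u => ∑ l ∈ Icc 1 (Mz Λ), (nu χ z Λ l : ℂ) * ∑ d ∈ l.divisors, χ d * (d : ℂ) ^ (-u))
    (GG χ ε z Λ N) (fun u => 2 * (Real.log N : ℝ) - 2 * Ia ε (Lx ε N) 0 - (Real.log N : ℝ) *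
      (u + (1 - β : ℝ)) * Ia ε (Lx ε N) (u + (1 - β : ℝ))) (by linarith) hd H.b2 H.lo.1 hE0 (by linarith) v2 hj p1
    (Differentiable.fun_sum fun l _ => (de χ l).const_mul _) g1
    (((differentiable_const _).sub (differentiable_const _)).sub
      (((differentiable_id.add_const _).const_mul _).mul (i1.comp (differentiable_id.add_const _))))
    p2 (fun u hu => ⟨(p3 u hu).1, ?_, ?_, kb hJ hε hε1 hN (by linarith) hd H.b2 hu⟩) i2 i3
  · rw [sub_sub_cancel, ← one χ hj _ _ _ (p1.differentiableAt (Metric.isOpen_ball.mem_nhds hb))]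
      at key
    refine ⟨key.1, ?_⟩
    rw [two χ hj ε z Λ _ N ((hV 0 (by simp)).mul (differentiableAt_id.const_cpow (Or.inl hQ)))
      fun n => ?_]
    · have e : ∀ S T : ℂ, (4 * π * AX N * S - π * T).re =
          π * (2 * Vr 1 * Real.log N * S - T).re := fun S T => by
        rw [← re_ofReal_mul, AX]
        congr 1
        push_cast
        ring
      rw [e, AX, mul_assoc, mul_assoc, ← mul_assoc (Real.exp _)]
      exact mul_le_mul_of_nonneg_left key.2 Real.pi_pos.le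
    · rcases Nat.eq_zero_or_pos n with rfl | h
      · have : F5.Hf χ (F5.LN N) 0 = fun _ => 0 := by
          funext u
          simp [F5.Hf, F5.Af, F5.A1]
        rw [this]
        exact differentiable_const _
      · exact ((hA D χ n h).2.2.2.2.2.2 H.ne _).1
  · refine (hE D χ z Λ ρ u _ H.sq H.z5 (by linarith) H.r3 ?_ (hAp D χ u 0).2.1
      (hAp D χ u 0).2.2).trans (mul_le_mul_of_nonneg_right ?_ hE0.le)
    · have a1 : Real.log z ≤ ρ * Real.log N :=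
        H.r3.trans (mul_le_mul_of_nonneg_left H.hΛ hρ.le)
      nlinarith [mul_le_mul_of_nonneg_left a1 (norm_nonneg u)]
    · rw [le_div_iff₀ (by positivity)] at r4
      nlinarith
  · refine le_trans (le_of_eq ?_) (g2 u hu)
    rw [← norm_neg]
    congr 1
    ring

end Pool.Agent.MP_20b2fd_nt.H39
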