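import Pool.Agent.MP_20b2fd_nt.H39.SpecH

/-! The completed function of the character near the origin. -/

set_option autoImplicit false

namespace Pool.Agent.MP_20b2fd_nt.H39

open MeasureTheory Complex Finset
open Pool.Agent.MP_20b2fd_nt.H38
open Pool.Agent.MP_c5bf7b_nt.H38 (Phi Ch SiegS)
open DirichletCharacter (LFunction)
open scoped Real

namespace PuA

theorem gm_near (h : F5.VS) : ∃ K : ℝ, 0 < K ∧ ∀ u : ℂ, ‖u‖ < 1 / 2 → ‖F5.gm u - 1‖ ≤ K * ‖u‖ := by
  obtain ⟨C, hC, h1, h2, h3, -⟩ := h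
  refine ⟨(C + 1) / (1 / 2), by positivity, fun u hu => ?_⟩
  have key : ∀ w : ℂ, w ∈ Metric.ball (0 : ℂ) (1 / 2) → -1 / 2 ≤ w.re ∧ w.re ≤ 2 := fun w hw => by
    rw [mem_ball_zero_iff] at hw
    have := abs_le.1 (abs_re_le_norm w)
    constructor <;> linarith
  have := Complex.dist_le_div_mul_dist_of_mapsTo_ball (f := F5.gm) (c := 0) (R₁ := 1 / 2)
    (R₂ := C + 1) (z := u)
    (fun w hw => (h1 w (by linarith [(key w hw).1])).differentiableWithinAt)
    (fun w hw => by
      rw [h2, Metric.mem_closedBall, dist_eq_norm]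
      refine (norm_sub_le _ _).trans ?_
      rw [norm_one]
      have h4 := h3 w (key w hw).1 (key w hw).2
      have h5 : C / (1 + |w.im|) ^ 10 ≤ C :=
        div_le_self (by linarith) (one_le_pow₀ (by linarith [abs_nonneg w.im]))
      linarith) (mem_ball_zero_iff.2 hu)
  rwa [h2, dist_eq_norm, dist_zero_right] at this

theorem qc_pow {D N : ℕ} (hD : 0 < D) (hN : 0 < N) (u : ℂ) :
    (Qc D N : ℂ) ^ u = exp (u * Real.log D) * exp (u * Real.log N / 2) := by
  have h1 : (0 : ℝ) < D := by exact_mod_cast hD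
  have h2 : (0 : ℝ) < N := by exact_mod_cast hN
  have h3 : 0 < √(N : ℝ) := Real.sqrt_pos.2 h2
  have h4 : 0 < Qc D N := mul_pos h1 h3
  rw [Complex.cpow_def_of_ne_zero (by exact_mod_cast h4.ne'), ← Complex.ofReal_log h4.le, Qc,
    Real.log_mul h1.ne' h3.ne', Real.log_sqrt h2.le, ← Complex.exp_add]
  congr 1
  rw [Complex.ofReal_add, Complex.ofReal_div]
  simp only [Complex.ofReal_ofNat]
  ring

theorem near_mul {x y : ℂ} {a b : ℝ} (hx : ‖x - 1‖ ≤ a) (hy : ‖y - 1‖ ≤ b) (hb : b ≤ 1) :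
    ‖x * y - 1‖ ≤ 2 * a + b := by
  have h1 : ‖y‖ ≤ 2 := by
    have := norm_sub_norm_le y 1
    rw [norm_one] at this
    linarith
  have h2 : x * y - 1 = (x - 1) * y + (y - 1) := by ring
  have h3 : ‖(x - 1) * y‖ ≤ a * 2 := by
    rw [norm_mul]
    exact mul_le_mul hx h1 (norm_nonneg _) ((norm_nonneg _).trans hx)
  rw [h2]
  refine (norm_add_le _ _).trans ?_
  linarith

end PuA

open PuA in
theorem puOf : PuOf := by
  intro hV c C C₀ η hc hC hC₀ hη
  obtain ⟨K₁, hK₁, hg⟩ := gm_near hV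
  obtain ⟨-, -, hdg, hg0, -⟩ := hV
  obtain ⟨K, hK⟩ : ∃ K : ℝ, K = 2 * K₁ + 1 := ⟨_, rfl⟩
  obtain ⟨T, hT⟩ : ∃ T : ℝ, T = 1 / 2 + C₀ := ⟨_, rfl⟩
  have hK0 : 0 < K := by rw [hK]; positivity
  have hT0 : 0 < T := by rw [hT]; positivity
  have hC0 : 0 < C := by linarith
  obtain ⟨B, hB⟩ : ∃ B : ℝ, B = 2 * (2 * C + K) * T + C + 4 * C * T := ⟨_, rfl⟩
  have hB0 : 0 < B := by rw [hB]; positivity
  refine ⟨min (min (1 / 10) c) (min (1 / K) (η / B)), by positivity,
    fun ρ N D _ χ β z F Λ hρ hρ0 H => ?_⟩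
  have ρ1 : ρ ≤ 1 / 10 := hρ0.trans ((min_le_left _ _).trans (min_le_left _ _))
  have ρ2 : ρ ≤ c := hρ0.trans ((min_le_left _ _).trans (min_le_right _ _))
  have ρ3 : ρ * K ≤ 1 :=
    (le_div_iff₀ hK0).1 (hρ0.trans ((min_le_right _ _).trans (min_le_left _ _)))
  have ρ4 : ρ * B ≤ η :=
    (le_div_iff₀ hB0).1 (hρ0.trans ((min_le_right _ _).trans (min_le_right _ _)))
  have η1 : 0 ≤ ρ * (2 * (2 * C + K) * T) := by positivity
  have η2 : 0 ≤ ρ * C := by positivity
  have η3 : 0 ≤ ρ * (4 * C * T) := by positivity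
  rw [hB, mul_add, mul_add] at ρ4
  obtain ⟨hF0, hF1, -⟩ := H.lo
  have hent := DirichletCharacter.differentiable_LFunction H.ne
  have r2 := H.r2
  have b2 := H.b2
  have hL0 : 0 < Real.log N := by
    by_contra h
    have := mul_nonpos_of_nonneg_of_nonpos hρ.le (not_lt.1 h)
    linarith
  have hL10 : 10 ≤ Real.log N := by
    have := mul_le_mul_of_nonneg_right ρ1 hL0.le
    linarith
  have hN : 0 < N := Nat.pos_of_ne_zero fun h => by simp [h] at hL0
  have hD : 0 < D := Nat.pos_of_ne_zero (NeZero.ne D)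
  have hQ : (Qc D N : ℂ) ≠ 0 := by
    have h1 : (0 : ℝ) < D := by exact_mod_cast hD
    have h2 : (0 : ℝ) < N := by exact_mod_cast hN
    exact_mod_cast (mul_pos h1 (Real.sqrt_pos.2 h2)).ne'
  have hzL : Real.log z ≤ ρ * Real.log N := H.r3.trans (mul_le_mul_of_nonneg_left H.hΛ hρ.le)
  have hD1 : (1 : ℝ) ≤ D := by exact_mod_cast hD
  have hD2 : 0 ≤ Real.log D := Real.log_nonneg hD1
  have hD3 : Real.log D ≤ Real.log z := Real.log_le_log (by linarith) H.hD
  have hd : 0 < 1 - β := by linarith [H.b1]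
  generalize hL : Real.log N = L at *
  have A1 : ∀ w : ℂ, ‖w‖ * L ≤ 1 / 2 →
      ‖LFunction χ (1 + w) - (w + (1 - β : ℝ)) * F‖ ≤ ρ * C * ‖w + (1 - β : ℝ)‖ * F := fun w hw => by
    have h1 : ‖w‖ * Real.log z ≤ ρ := by
      have h2 := mul_le_mul_of_nonneg_left hzL (norm_nonneg w)
      have h3 := mul_le_mul_of_nonneg_left hw hρ.le
      linarith
    have := hF1 (1 + w) (by rw [add_sub_cancel_left]; linarith)
    rw [add_sub_cancel_left, show 1 + w - β = w + (1 - β : ℝ) by push_cast; ring] at this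
    refine this.trans (mul_le_mul_of_nonneg_right
      (mul_le_mul_of_nonneg_right ?_ (norm_nonneg _)) hF0.le)
    rw [mul_comm]
    exact mul_le_mul_of_nonneg_right h1 hC0.le
  have A2 : ∀ w : ℂ, ‖w‖ * L ≤ 1 / 2 → ‖w + (1 - β : ℝ)‖ ≤ T / L := fun w hw => by
    refine (norm_add_le _ _).trans ?_
    rw [Complex.norm_real, Real.norm_of_nonneg hd.le, le_div_iff₀ hL0, add_mul, hT]
    linarith
  refine ⟨fun u hu => ?_, ?_, fun u hu => ⟨?_, ?_, ?_⟩⟩
  · rw [mem_ball_zero_iff, lt_div_iff₀ hL0] at hu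
    have h1 : -1 < u.re := by
      have h2 := abs_le.1 (abs_re_le_norm u)
      have h3 := mul_le_mul_of_nonneg_left hL10 (norm_nonneg u)
      linarith
    refine DifferentiableAt.differentiableWithinAt (((hdg u h1).mul
      (differentiableAt_id.const_cpow (Or.inl hQ))).mul ?_)
    exact (hent (1 + u)).comp u (differentiableAt_id.const_add 1)
  · have := hF1 1 (by simp [hc.le])
    simp only [sub_self, norm_zero, zero_mul, mul_zero, norm_le_zero_iff, sub_eq_zero] at this
    rw [hg0, cpow_zero, add_zero, this]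
    push_cast
    ring
  · have h1 : ‖u‖ ≤ ρ := by
      refine le_of_mul_le_mul_right ?_ hL0
      linarith
    have h2 : ‖F5.gm u - 1‖ ≤ K₁ * ρ :=
      (hg u (by linarith)).trans (mul_le_mul_of_nonneg_left h1 hK₁.le)
    have h3 : ‖u * Real.log D‖ ≤ ρ / 2 := by
      rw [norm_mul, Complex.norm_real, Real.norm_of_nonneg hD2]
      have h4 := mul_le_mul_of_nonneg_left (hD3.trans hzL) (norm_nonneg u)
      have h5 := mul_le_mul_of_nonneg_left hu hρ.le
      linarith
    have h4 : ‖exp (u * Real.log D) - 1‖ ≤ ρ :=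
      (Complex.norm_exp_sub_one_le (by linarith)).trans (by linarith)
    have h5 := near_mul h2 h4 (by linarith)
    have h6 : ‖exp (u * L / 2)‖ ≤ 2 := by
      have h7 : ‖u * L / 2‖ ≤ 1 / 8 := by
        rw [norm_div, norm_mul, Complex.norm_real, Real.norm_of_nonneg hL0.le, Complex.norm_ofNat]
        linarith
      have h8 := Complex.norm_exp_sub_one_le (x := u * L / 2) (by linarith)
      have h9 := norm_sub_norm_le (exp (u * L / 2)) 1
      rw [norm_one] at h9
      linarith
    rw [qc_pow hD hN, hL]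
    generalize exp (u * L / 2) = E at h6 ⊢
    have h7 : 2 * (K₁ * ρ) + ρ = ρ * K := by rw [hK]; ring
    rw [h7] at h5
    have h8 : ‖F5.gm u * exp (u * Real.log D)‖ ≤ 2 := by
      have h9 := norm_sub_norm_le (F5.gm u * exp (u * Real.log D)) 1
      rw [norm_one] at h9
      linarith
    have e : F5.gm u * (exp (u * Real.log D) * E) * LFunction χ (1 + u) -
        F * E * (u + (1 - β : ℝ)) =
        E * (F5.gm u * exp (u * Real.log D) * (LFunction χ (1 + u) - (u + (1 - β : ℝ)) * F) +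
          (F5.gm u * exp (u * Real.log D) - 1) * ((u + (1 - β : ℝ)) * F)) := by ring
    have a1 := A1 u (by linarith)
    have a2 := A2 u (by linarith)
    rw [e, norm_mul]
    calc _ ≤ 2 * (2 * (ρ * C * (T / L) * F) + ρ * K * (T / L * F)) := by
          refine mul_le_mul h6 ((norm_add_le _ _).trans (add_le_add ?_ ?_)) (norm_nonneg _)
            (by norm_num)
          · rw [norm_mul]
            refine mul_le_mul h8 (a1.trans ?_) (norm_nonneg _) (by norm_num)
            gcongr
          · rw [norm_mul, norm_mul, Complex.norm_real, Real.norm_of_nonneg hF0.le]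
            gcongr
      _ = ρ * (2 * (2 * C + K) * T) * F / L := by ring
      _ ≤ η * F / L := by gcongr; linarith
  · refine (A1 u (by linarith)).trans ?_
    gcongr
    linarith
  · have h1 : Differentiable ℂ fun w : ℂ => LFunction χ (1 + w) - (w + (1 - β : ℝ)) * F :=
      (hent.comp (differentiable_id.const_add 1)).sub (by fun_prop)
    have h2 := Complex.norm_deriv_le_of_forall_mem_sphere_norm_le (c := u) (R := 1 / (4 * L))
      (C := ρ * C * (T / L) * F) (by positivity) h1.diffContOnCl fun w hw => by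
        have h3 : ‖w‖ * L ≤ 1 / 2 := by
          rw [mem_sphere_iff_norm, eq_div_iff (by positivity)] at hw
          have h4 := mul_le_mul_of_nonneg_right (norm_sub_norm_le w u) hL0.le
          linarith
        refine (A1 w h3).trans ?_
        have := A2 w h3
        gcongr
    have h3 : HasDerivAt (fun w : ℂ => LFunction χ (1 + w) - (w + (1 - β : ℝ)) * F)
        (deriv (LFunction χ) (1 + u) - F) u := by
      have h4 := (hent (1 + u)).hasDerivAt.comp_const_add 1 u
      have h5 := ((hasDerivAt_id u).add_const ((1 - β : ℝ) : ℂ)).mul_const (F : ℂ)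
      rw [one_mul] at h5
      exact h4.sub h5
    rw [h3.deriv] at h2
    refine h2.trans ?_
    calc ρ * C * (T / L) * F / (1 / (4 * L)) = ρ * (4 * C * T) * F := by field_simp
      _ ≤ η * F := by gcongr; linarith

end Pool.Agent.MP_20b2fd_nt.H39
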