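import Pool.Agent.MP_20b2fd_nt.H38.E1
import Pool.Agent.MP_20b2fd_nt.H38.Dl
import Pool.Agent.MP_20b2fd_nt.F5.V
import Pool.Agent.MP_20b2fd_nt.F5.AR0
import Pool.Agent.MP_20b2fd_nt.H75.Ap
import Pool.Agent.MP_20b2fd_nt.H39.All
import Pool.Agent.MP_20b2fd_nt.H39.Br
import Pool.Agent.MP_20b2fd_nt.H39.Jm
import Pool.Agent.MP_20b2fd_nt.H39.Ia
import Pool.Agent.MP_20b2fd_nt.H39.Co
import Pool.Agent.MP_20b2fd_nt.H39.Pu
import Pool.Agent.MP_20b2fd_nt.H39.Gg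
import Pool.Agent.MP_20b2fd_nt.H39.Mm

/-! The main terms of the first and of the mixed moment. -/

namespace Pool.Agent.MP_20b2fd_nt.H39.All

open H38

theorem apS : ApS := fun D χ u w => ⟨(H75.apS D χ u).1 w, (H75.apS D χ u).2⟩
theorem jmS : JmS := jmOf avS jiS f1S
theorem puS : PuS := puOf F5.v
theorem ggS : GgS := ggOf F5.ar0 f1S xyS apS jmS puS
theorem mmS : MmS := mmOf F5.v F5.ar0 (dlOf e1) f1S eyS apS jmS (iaOf f1S) co puS ggS
theorem ms : H75.MS := ms_of mmS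

end Pool.Agent.MP_20b2fd_nt.H39.All
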