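import Pool.Agent.MP_20b2fd_nt.H39.SpecM

/-! Row Fx: the long mollifier as a Fourier average of linear forms. -/

set_option autoImplicit false

namespace Pool.Agent.MP_20b2fd_nt.H39

open MeasureTheory Complex Finset
open Pool.Agent.MP_20b2fd_nt.H38
open scoped Real

namespace FxA

theorem split {S T : Finset ℕ} (h : T ⊆ S) (f g : ℕ → ℂ) :
    (∏ p ∈ T, f p) * ∏ p ∈ S \ T, g p = ∏ p ∈ S, if p ∈ T then f p else g p := by
  rw [prod_ite, filter_mem_eq_inter, inter_eq_right.mpr h, filter_notMem_eq_sdiff]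

theorem expand {S R : Finset ℕ} (h : R ⊆ S) (a b W : ℕ → ℂ) :
    ∏ p ∈ S, ((if p ∈ R then W p * b p else 0) + a p) =
      ∑ B ∈ R.powerset, (∏ p ∈ B, W p) * ∏ p ∈ S, if p ∈ B then b p else a p := by
  rw [prod_add]
  symm
  rw [← sum_subset (powerset_mono.mpr h)]
  · refine sum_congr rfl fun B hB => ?_
    have hB' := mem_powerset.mp hB
    rw [← split (hB'.trans h), ← mul_assoc, ← prod_mul_distrib]
    congr 1
    exact prod_congr rfl fun p hp => (if_pos (hB' hp)).symm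
  · intro B _ hB
    obtain ⟨p, hp, hp'⟩ := not_subset.mp fun h' => hB (mem_powerset.mpr h')
    rw [prod_eq_zero hp (if_neg hp'), zero_mul]

theorem mem_prs {x Y : ℝ} {p : ℕ} : p ∈ prs x Y ↔ (1 ≤ p ∧ p ≤ ⌊Y⌋₊) ∧ p.Prime ∧ x < p := by
  unfold prs
  rw [mem_filter, mem_Icc]

theorem sub5 (Y : ℝ) : prs 5 Y ⊆ pz Y := fun p hp => by
  have h := mem_prs.mp hp
  exact mem_prs.mpr ⟨h.1, h.2.1, by linarith [h.2.2]⟩

theorem iff5 {Y : ℝ} {p : ℕ} (hp : p ∈ pz Y) : p ∈ prs 5 Y ↔ ¬p ≤ 5 := by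
  have h := mem_prs.mp hp
  rw [mem_prs, not_le]
  exact ⟨fun h' => by exact_mod_cast h'.2.2, fun h' => ⟨h.1, h.2.1, by exact_mod_cast h'⟩⟩

open Classical in
theorem lf (Y : ℝ) (W G : ℕ → ℂ) :
    LF (pz Y) (fun p => x0 p (W p)) (fun p => x1 p (W p)) G =
      ∑ B ∈ (prs 5 Y).powerset,
        LF (pz Y) (fun p => if p ≤ 5 then 1 + 1 / p else if p ∈ B then 2 / (p - 1) else 1)
          (fun p => if p ≤ 5 then -1 / p else if p ∈ B then -1 / (p - 1) else 0) G * ∏ p ∈ B, W p := by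
  unfold LF
  simp only [sum_mul]
  rw [sum_comm]
  refine sum_congr rfl fun T hT => ?_
  have hT' := mem_powerset.mp hT
  have key := expand (sub5 Y)
    (fun p => if p ∈ T then (if p ≤ 5 then -1 / (p : ℂ) else 0) else (if p ≤ 5 then 1 + 1 / (p : ℂ) else 1))
    (fun p => if p ∈ T then -1 / ((p : ℂ) - 1) else 2 / ((p : ℂ) - 1)) W
  rw [split hT', prod_congr rfl (g := fun p => (if p ∈ prs 5 Y then
      W p * (if p ∈ T then -1 / ((p : ℂ) - 1) else 2 / ((p : ℂ) - 1)) else 0) +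
      if p ∈ T then (if p ≤ 5 then -1 / (p : ℂ) else 0) else (if p ≤ 5 then 1 + 1 / (p : ℂ) else 1))
    (fun p hp => by
      simp only [iff5 hp, x0, x1]
      by_cases h1 : p ∈ T <;> by_cases h2 : p ≤ 5 <;> simp only [h1, h2, if_true, if_false, not_true,
        not_false_iff] <;> ring), key, sum_mul]
  refine sum_congr rfl fun B hB => ?_
  have hB' := mem_powerset.mp hB
  rw [split hT', mul_right_comm _ _ (∏ p ∈ B, W p), mul_comm _ (∏ p ∈ B, W p)]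
  refine congrArg (fun x => (∏ p ∈ B, W p) * x * G (∏ p ∈ T, p)) (prod_congr rfl fun p hp => ?_)
  by_cases h3 : p ∈ B
  · have h2 := (iff5 hp).mp (hB' h3)
    simp only [h2, h3, if_true, if_false]
  · by_cases h1 : p ∈ T <;> simp only [h1, h3, if_true, if_false]

theorem prod_cpow (Y L ξ : ℝ) (B : Finset ℕ) (hB : B ⊆ prs 5 Y) :
    ∏ p ∈ B, (p : ℂ) ^ ex L (-1) ξ =
      exp ((((-1 : ℝ) : ℂ) + ξ * I) * ((Real.log ((∏ p ∈ B, p : ℕ) : ℝ) / L : ℝ) : ℂ)) := by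
  have h0 : ∀ p ∈ B, p ≠ 0 := fun p hp => (mem_prs.mp (hB hp)).2.1.ne_zero
  rw [Nat.cast_prod, Real.log_prod fun p hp => Nat.cast_ne_zero.mpr (h0 p hp), sum_div, ofReal_sum, mul_sum,
    exp_sum]
  refine prod_congr rfl fun p hp => ?_
  rw [cpow_def_of_ne_zero (Nat.cast_ne_zero.mpr (h0 p hp)), ← natCast_log, ex, ofReal_div]
  congr 1
  ring

end FxA

theorem fxOf : FxOf := by
  intro hAv hF hFx ε N Y G hε hε' hN hY hNY
  obtain ⟨hBp, hf⟩ := hF.1 ε hε (by linarith)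
  have hN1 : (1 : ℝ) < N := by exact_mod_cast hN
  have hL : 0 < Lx ε N := mul_pos (by linarith) (Real.log_pos hN1)
  have hK : (Kx ε N : ℝ) ≤ Y := by
    refine (Nat.floor_le (by positivity)).trans (le_trans ?_ hNY)
    calc (N : ℝ) ^ (1 / 2 - 2 * ε) ≤ (N : ℝ) ^ (1 : ℝ) :=
          Real.rpow_le_rpow_of_exponent_le hN1.le (by linarith)
      _ = N := Real.rpow_one _
  have h0 : ∀ k, Kx ε N < k → f1 ε (Real.log k / Lx ε N) = 0 := by
    intro k hk
    refine (hf _).2.2.2 ((one_le_div hL).mpr ?_)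
    have h1 : (N : ℝ) ^ (1 / 2 - 2 * ε) < k := (Nat.floor_lt (by positivity)).mp hk
    have h2 := Real.log_le_log (by positivity) h1.le
    rwa [Real.log_rpow (by linarith)] at h2
  have e1 := hFx (Kx ε N) (fun k => f1 ε (Real.log k / Lx ε N)) Y G hY hK h0
  obtain ⟨e2, e3⟩ := (hAv (f1 ε) 2 (-1) hBp).1 (Finset ℕ) (prs 5 Y).powerset
    (fun B => LF (pz Y) (fun p => if p ≤ 5 then 1 + 1 / p else if p ∈ B then 2 / (p - 1) else 1)
      (fun p => if p ≤ 5 then -1 / p else if p ∈ B then -1 / (p - 1) else 0) G)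
    (fun B => Real.log ((∏ p ∈ B, p : ℕ) : ℝ) / Lx ε N)
  have e4 : (fun ξ : ℝ => LF (pz Y) (fun p => x0 p (p ^ ex (Lx ε N) (-1) ξ))
      (fun p => x1 p (p ^ ex (Lx ε N) (-1) ξ)) G) = fun ξ : ℝ => ∑ B ∈ (prs 5 Y).powerset,
        LF (pz Y) (fun p => if p ≤ 5 then 1 + 1 / p else if p ∈ B then 2 / (p - 1) else 1)
          (fun p => if p ≤ 5 then -1 / p else if p ∈ B then -1 / (p - 1) else 0) G *
        exp ((((-1 : ℝ) : ℂ) + ξ * I) * ((Real.log ((∏ p ∈ B, p : ℕ) : ℝ) / Lx ε N : ℝ) : ℂ)) := by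
    funext ξ
    rw [FxA.lf Y fun p => (p : ℂ) ^ ex (Lx ε N) (-1) ξ]
    exact sum_congr rfl fun B hB => by rw [FxA.prod_cpow Y _ ξ B (mem_powerset.mp hB)]
  rw [e4]
  refine ⟨e2, ?_⟩
  rw [e3]
  exact e1.trans (sum_congr rfl fun B _ => mul_comm _ _)

end Pool.Agent.MP_20b2fd_nt.H39
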