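import Pool.Agent.MP_20b2fd_nt.H39.SpecH

/-! The factor that carries the mixed moment. -/

set_option autoImplicit false

namespace Pool.Agent.MP_20b2fd_nt.H39

open MeasureTheory Complex Finset
open Pool.Agent.MP_20b2fd_nt.H38
open Pool.Agent.MP_c5bf7b_nt.H38 (Phi Ch SiegS)
open DirichletCharacter (LFunction)
open scoped Real

namespace GgA

/-- the functional of the two mollifiers -/
noncomputable def Sg {D : ℕ} (χ : Ch D) (ε z Λ : ℝ) (N : ℕ) (φ : ℕ → ℂ) : ℂ :=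
  ∑ i ∈ JX ε N, ∑ l ∈ Icc 1 (Mz Λ), (xX ε N i : ℂ) * nu χ z Λ l * Bh φ (nn i) l

theorem ss_lin {D : ℕ} (χ : Ch D) (ε z Λ : ℝ) (N : ℕ) (a b : ℂ) (φ ψ : ℕ → ℂ) :
    Sg χ ε z Λ N (fun n => a * φ n + b * ψ n) = a * Sg χ ε z Λ N φ + b * Sg χ ε z Λ N ψ := by
  unfold Sg Bh
  simp only [mul_sum, ← sum_add_distrib]
  refine sum_congr rfl fun i _ => sum_congr rfl fun l _ => sum_congr rfl fun d _ => ?_
  ring

theorem ss_der {D : ℕ} (χ : Ch D) (ε z Λ : ℝ) (N : ℕ) (f : ℂ → ℕ → ℂ) (g : ℕ → ℂ) (x : ℂ)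
    (h : ∀ n, HasDerivAt (fun w => f w n) (g n) x) :
    HasDerivAt (fun w => Sg χ ε z Λ N (f w)) (Sg χ ε z Λ N g) x := by
  unfold Sg Bh
  exact HasDerivAt.fun_sum fun i _ => HasDerivAt.fun_sum fun l _ =>
    (HasDerivAt.fun_sum fun d _ => (h _).const_mul _).const_mul _

theorem ss_diff {D : ℕ} (χ : Ch D) (ε z Λ : ℝ) (N : ℕ) (f : ℂ → ℕ → ℂ)
    (h : ∀ n, Differentiable ℂ fun w => f w n) :
    Differentiable ℂ fun w => Sg χ ε z Λ N (f w) := fun x =>
  (ss_der χ ε z Λ N f (fun n => deriv (fun w => f w n) x) x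
    fun n => (h n x).hasDerivAt).differentiableAt

theorem af_der {D : ℕ} (χ : Ch D) (u : ℂ) (n : ℕ) :
    HasDerivAt (fun w => F5.Af χ u w n) (-F5.A1 χ u n) 0 := by
  unfold F5.Af F5.A1
  rw [← sum_neg_distrib]
  refine HasDerivAt.fun_sum fun x _ => ?_
  rw [← mul_neg]
  refine HasDerivAt.const_mul _ ?_
  rw [← sum_neg_distrib]
  refine HasDerivAt.fun_sum fun y hy => ?_
  have h1 : y.1 ≠ 0 := Nat.left_ne_zero_of_mem_divisorsAntidiagonal hy
  have h2 : y.2 ≠ 0 := Nat.right_ne_zero_of_mem_divisorsAntidiagonal hy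
  have h1' : (y.1 : ℂ) ≠ 0 := by exact_mod_cast h1
  have h2' : (y.2 : ℂ) ≠ 0 := by exact_mod_cast h2
  have e1 : HasDerivAt (fun w : ℂ => -1 - u - 2 * w) (-2) 0 := by
    simpa using ((hasDerivAt_id (0 : ℂ)).const_mul 2).const_sub (-1 - u)
  have e2 : HasDerivAt (fun w : ℂ => -w) (-1) 0 := hasDerivAt_neg' 0
  have e3 := ((e1.const_cpow (c := (y.1 : ℂ)) (Or.inl h1')).const_mul
    ((ArithmeticFunction.moebius y.1 : ℂ) * χ y.1)).mul
    ((e2.const_cpow (c := (y.2 : ℂ)) (Or.inl h2')).const_mul ((tau y.2 : ℝ) : ℂ))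
  refine e3.congr_deriv ?_
  rw [Real.log_mul (by exact_mod_cast pow_ne_zero 2 h1) (by exact_mod_cast h2), Real.log_pow]
  push_cast
  simp only [mul_zero, sub_zero, neg_zero, cpow_zero]
  ring

theorem ln_bd {N : ℕ} (h : 10 ≤ Real.log N) :
    |F5.LN N - Real.log N| ≤ 4 ∧ |F5.LN N| ≤ Real.log N := by
  have hN : (N : ℝ) ≠ 0 := by
    intro h0
    rw [h0, Real.log_zero] at h
    linarith
  have hπ := Real.pi_gt_three
  have hπ' := Real.pi_lt_d2
  have e : F5.LN N = Real.log N - Real.log (4 * π ^ 2) := by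
    unfold F5.LN
    rw [Real.log_div hN (by positivity)]
  have h0 : 0 ≤ Real.log (4 * π ^ 2) := Real.log_nonneg (by nlinarith)
  have h4 : Real.log (4 * π ^ 2) ≤ 4 := by
    rw [Real.log_le_iff_le_exp (by positivity)]
    have h1 := Real.exp_one_gt_d9
    have h2 : Real.exp 4 = Real.exp 1 ^ 4 := by rw [← Real.exp_nat_mul]; norm_num
    have h3 : (2.7 : ℝ) ^ 4 ≤ Real.exp 1 ^ 4 := by gcongr; linarith
    rw [h2]
    nlinarith
  rw [e]
  constructor
  · rw [abs_le]; constructor <;> linarith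
  · rw [abs_le]; constructor <;> linarith

theorem alg (α Ia J r r' R0 R1 : ℂ) (L LN F P A m ρ η' : ℝ) (hL : 0 < L) (hF : 0 < F)
    (hP : 0 < P) (hη : 0 ≤ η') (hρ : 0 ≤ ρ) (hρm : ρ ≤ m) (hm : m ≤ 1)
    (ha : ‖α‖ * L ≤ A) (hI : ‖Ia‖ ≤ 2 * L) (hJ : ‖α * J‖ ≤ 4 * L) (h1 : |LN - L| ≤ 4 * ρ * L)
    (h2 : |LN| ≤ L) (hr : ‖r‖ ≤ η' * ‖α‖ * F) (hr' : ‖r'‖ ≤ η' * F) (h0 : ‖R0‖ ≤ m * L * P)
    (hR : ‖R1‖ ≤ 2 * m * L ^ 2 * P) :
    ‖(α * F + r) * (LN * (P * Ia + R0) + (P * (2 * J) + R1)) + 2 * (F + r') * (P * Ia + R0) -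
      F * P * (L * α * Ia + 2 * (α * J + Ia))‖ ≤
      (m * (11 * A + 2) + η' * (5 * A + 14)) * (F * P * L) := by
  have hm0 : 0 ≤ m := hρ.trans hρm
  have e : (α * F + r) * (LN * (P * Ia + R0) + (P * (2 * J) + R1)) + 2 * (F + r') * (P * Ia + R0) -
      F * P * (L * α * Ia + 2 * (α * J + Ia)) =
      α * F * P * ((LN - L : ℝ) : ℂ) * Ia + α * F * (LN * R0 + R1) +
        r * (LN * P * Ia + (LN * R0 + R1)) + 2 * r * P * J + 2 * F * R0 +
        2 * r' * (P * Ia + R0) := by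
    push_cast
    ring
  have nF : ‖(F : ℂ)‖ = F := by rw [norm_real, Real.norm_of_nonneg hF.le]
  have nP : ‖(P : ℂ)‖ = P := by rw [norm_real, Real.norm_of_nonneg hP.le]
  have nL : ‖(LN : ℂ)‖ ≤ L := by rw [norm_real]; exact h2
  have hα := norm_nonneg α
  have hQ : 0 < F * P * L := by positivity
  have b0 : ‖LN * R0 + R1‖ ≤ 3 * m * L ^ 2 * P := by
    calc ‖LN * R0 + R1‖ ≤ ‖(LN : ℂ)‖ * ‖R0‖ + ‖R1‖ := by
          rw [← norm_mul]; exact norm_add_le _ _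
      _ ≤ L * (m * L * P) + 2 * m * L ^ 2 * P := by gcongr
      _ = _ := by ring
  have t1 : ‖α * F * P * ((LN - L : ℝ) : ℂ) * Ia‖ ≤ 8 * m * A * (F * P * L) := by
    rw [norm_mul, norm_mul, norm_mul, norm_mul, nF, nP, norm_real, Real.norm_eq_abs]
    calc ‖α‖ * F * P * |LN - L| * ‖Ia‖ ≤ ‖α‖ * F * P * (4 * m * L) * (2 * L) := by
          gcongr
          exact h1.trans (by gcongr)
      _ = 8 * m * (‖α‖ * L) * (F * P * L) := by ring
      _ ≤ _ := by gcongr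
  have t2 : ‖α * F * (LN * R0 + R1)‖ ≤ 3 * m * A * (F * P * L) := by
    rw [norm_mul, norm_mul, nF]
    calc ‖α‖ * F * ‖LN * R0 + R1‖ ≤ ‖α‖ * F * (3 * m * L ^ 2 * P) := by gcongr
      _ = 3 * m * (‖α‖ * L) * (F * P * L) := by ring
      _ ≤ _ := by gcongr
  have t3 : ‖r * (LN * P * Ia + (LN * R0 + R1))‖ ≤ 5 * η' * A * (F * P * L) := by
    have b1 : ‖LN * P * Ia + (LN * R0 + R1)‖ ≤ 5 * L ^ 2 * P := by
      calc ‖LN * P * Ia + (LN * R0 + R1)‖ ≤ ‖(LN : ℂ)‖ * P * ‖Ia‖ + ‖LN * R0 + R1‖ := by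
            rw [← nP, ← norm_mul, ← norm_mul, nP]; exact norm_add_le _ _
        _ ≤ L * P * (2 * L) + 3 * 1 * L ^ 2 * P := by
            gcongr
            exact b0.trans (by gcongr)
        _ = _ := by ring
    rw [norm_mul]
    calc ‖r‖ * ‖LN * P * Ia + (LN * R0 + R1)‖ ≤ η' * ‖α‖ * F * (5 * L ^ 2 * P) := by gcongr
      _ = 5 * η' * (‖α‖ * L) * (F * P * L) := by ring
      _ ≤ _ := by gcongr
  have t4 : ‖2 * r * P * J‖ ≤ 8 * η' * (F * P * L) := by
    rw [norm_mul, norm_mul, norm_mul, nP, Complex.norm_two]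
    rw [norm_mul] at hJ
    calc 2 * ‖r‖ * P * ‖J‖ ≤ 2 * (η' * ‖α‖ * F) * P * ‖J‖ := by gcongr
      _ = 2 * η' * F * P * (‖α‖ * ‖J‖) := by ring
      _ ≤ 2 * η' * F * P * (4 * L) := by gcongr
      _ = _ := by ring
  have t5 : ‖2 * F * R0‖ ≤ 2 * m * (F * P * L) := by
    rw [norm_mul, norm_mul, nF, Complex.norm_two]
    calc 2 * F * ‖R0‖ ≤ 2 * F * (m * L * P) := by gcongr
      _ = _ := by ring
  have t6 : ‖2 * r' * (P * Ia + R0)‖ ≤ 6 * η' * (F * P * L) := by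
    have b1 : ‖P * Ia + R0‖ ≤ 3 * L * P := by
      calc ‖P * Ia + R0‖ ≤ P * ‖Ia‖ + ‖R0‖ := by
            rw [← nP, ← norm_mul, nP]; exact norm_add_le _ _
        _ ≤ P * (2 * L) + 1 * L * P := by
            gcongr
            exact h0.trans (by gcongr)
        _ = _ := by ring
    rw [norm_mul, norm_mul, Complex.norm_two]
    calc 2 * ‖r'‖ * ‖P * Ia + R0‖ ≤ 2 * (η' * F) * (3 * L * P) := by gcongr
      _ = _ := by ring
  rw [e]
  refine (norm_add_le _ _).trans ?_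
  refine (add_le_add_left (norm_add_le _ _) _).trans ?_
  refine (add_le_add_left (add_le_add_left (norm_add_le _ _) _) _).trans ?_
  refine (add_le_add_left (add_le_add_left (add_le_add_left (norm_add_le _ _) _) _) _).trans ?_
  refine (add_le_add_left (add_le_add_left (add_le_add_left (add_le_add_left
    (norm_add_le _ _) _) _) _) _).trans ?_
  calc _ ≤ 8 * m * A * (F * P * L) + 3 * m * A * (F * P * L) + 5 * η' * A * (F * P * L) +
        8 * η' * (F * P * L) + 2 * m * (F * P * L) + 6 * η' * (F * P * L) := by gcongr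
    _ = _ := by ring

theorem vr_one : Vr 1 = 4 / 15 := by
  unfold Vr
  have : Nat.totient (30 * 1) = 8 := by decide
  rw [this]
  norm_num

end GgA

open GgA in
theorem ggOf : GgOf := by
  rintro ⟨C₁, -, hAR⟩ hF1 hXy hAp hJm hPu c C C₀ ε η hc hc1 hC hC₀ hε hε1 hη
  obtain ⟨C', hC', hX⟩ := hXy c C ε hc hc1 hC hε hε1
  set A : ℝ := 1 / 4 + C₀ with hAdef
  have hA : 0 < A := by positivity
  set η' : ℝ := η / (2 * (5 * A + 14)) with hη'def
  have hη' : 0 < η' := by positivity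
  obtain ⟨ρP, hρP, hP⟩ := hPu c C C₀ η' hc hC hC₀ hη'
  refine ⟨min ρP (min (1 / (10 * C')) (η / (8 * C' * (11 * A + 2)))), by positivity, ?_⟩
  intro ρ N D _ χ β z F Λ hρ hρ0 hy
  have hρ1 : ρ ≤ ρP := hρ0.trans (min_le_left _ _)
  have hρ2 : ρ ≤ 1 / (10 * C') := hρ0.trans ((min_le_right _ _).trans (min_le_left _ _))
  have hρ3 : ρ ≤ η / (8 * C' * (11 * A + 2)) :=
    hρ0.trans ((min_le_right _ _).trans (min_le_right _ _))
  rw [le_div_iff₀ (by positivity)] at hρ2 hρ3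
  have hρ4 : ρ ≤ 1 / 10 := by nlinarith
  have hL : 10 ≤ Real.log N := by
    have := hy.r2
    by_contra h
    push Not at h
    have h0 : 0 ≤ Real.log N := Real.log_natCast_nonneg N
    nlinarith
  have hN : 3 ≤ N := by
    have := Real.log_le_self (Nat.cast_nonneg N)
    have h3 : (3 : ℝ) ≤ N := by linarith
    exact_mod_cast h3
  have hF : 0 < F := hy.lo.1
  have hE : 0 < E0 χ z := by
    obtain ⟨c₁, hc₁, h⟩ := hF1.2.2
    have h1 := (h D χ z hy.sq hy.z5).1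
    have h2 : 0 < Real.log z := Real.log_pos (by linarith [hy.z5])
    exact lt_of_lt_of_le (by positivity) h1
  have dL : Differentiable ℂ (LFunction χ) := DirichletCharacter.differentiable_LFunction hy.ne
  have dL' : Differentiable ℂ (deriv (LFunction χ)) :=
    differentiableOn_univ.1 (dL.differentiableOn.deriv isOpen_univ)
  have dAu : ∀ n, Differentiable ℂ fun u => F5.Af χ u 0 n := by
    intro n
    rcases Nat.eq_zero_or_pos n with rfl | hn
    · simp [F5.Af]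
    · exact (hAR D χ n hn).1 0
  have dAw : ∀ u n, Differentiable ℂ fun w => F5.Af χ u w n := by
    intro u n
    rcases Nat.eq_zero_or_pos n with rfl | hn
    · simp [F5.Af]
    · exact (hAR D χ n hn).2.1 u
  have dB : ∀ n, Differentiable ℂ fun u => F5.A1 χ u n := by
    intro n
    rcases Nat.eq_zero_or_pos n with rfl | hn
    · simp [F5.A1]
    · exact (hAR D χ n hn).2.2.1
  have d1 : Differentiable ℂ fun u : ℂ => 1 + u := by fun_prop
  constructor
  · exact ss_diff χ ε z Λ N (fun u n => LFunction χ (1 + u) *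
      (F5.LN N * F5.Af χ u 0 n - F5.A1 χ u n) + 2 * deriv (LFunction χ) (1 + u) * F5.Af χ u 0 n)
      fun n => ((dL.comp d1).mul (((dAu n).const_mul _).sub (dB n))).add
        (((dL'.comp d1).const_mul 2).mul (dAu n))
  intro u hu
  set L := Real.log N with hLdef
  have hL0 : 0 < L := by linarith
  set α : ℂ := u + (1 - β : ℝ) with hα
  have hα' : u + (1 - (β : ℂ)) = α := by rw [hα]; push_cast; ring
  have hb := hy.b1
  have hb2 := hy.b2
  have hre : -1 ≤ α.re * L := by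
    have h1 : α.re = u.re + (1 - β) := by rw [hα]; simp
    have h2 : -‖u‖ ≤ u.re := (abs_le.1 (abs_re_le_norm u)).1
    rw [h1]
    nlinarith
  have ha : ‖α‖ * L ≤ A := by
    have h1 : ‖α‖ ≤ ‖u‖ + (1 - β) := by
      rw [hα]
      refine (norm_add_le _ _).trans ?_
      rw [norm_real, Real.norm_of_nonneg (by linarith)]
    calc ‖α‖ * L ≤ (‖u‖ + (1 - β)) * L := by gcongr
      _ = ‖u‖ * L + (1 - β) * L := by ring
      _ ≤ A := by rw [hAdef]; linarith
  obtain ⟨J₁, J₂, hJ, hJ1, hI⟩ := hJm ε N α hε hε1 hN hre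
  obtain ⟨-, -, -, -, hI0⟩ := hJm ε N 0 hε hε1 hN (by simp)
  obtain ⟨-, hp1, hp2⟩ := (hP ρ N D χ β z F Λ hρ hρ1 hy).2.2 u hu
  set P : ℝ := E0 χ z * Vr 1 / F with hPdef
  have hV := vr_one
  have hP0 : 0 < P := by rw [hPdef, hV]; positivity
  have hFP : F * P = E0 χ z * Vr 1 := by rw [hPdef]; field_simp
  set m : ℝ := 4 * C' * ρ with hm
  set Ia₁ := Ia ε (Lx ε N) α with hIa
  let R : ℂ → ℂ := fun w => Sg χ ε z Λ N (F5.Af χ u w) - P * (Ia₁ + 2 * w * J₁ + w ^ 2 * J₂)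
  have hR : ∀ w : ℂ, ‖w‖ * L ≤ 1 / 2 → ‖R w‖ ≤ m * L * P := by
    intro w hw
    have h := hX N D χ β z F Λ ρ w w u (F5.Af χ u w) hN hy.sq hy.lo hb.le hy.z5 hρ hρ4 hy.r1 hy.r3
      hy.hΛ hw hw (by linarith) (hAp D χ u w).1
    rw [hα', hJ w] at h
    have e : ((E0 χ z : ℝ) : ℂ) * (Vr 1 : ℝ) / (F : ℝ) = (P : ℝ) := by rw [hPdef]; push_cast; rfl
    rw [e] at h
    refine le_trans h ?_
    have e2 : m * L * P = C' * ρ * (L * E0 χ z / F) * (16 / 15) := by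
      rw [hm, hPdef, hV]; ring
    rw [e2]
    have : 0 ≤ C' * ρ * (L * E0 χ z / F) := by positivity
    linarith
  have dR : Differentiable ℂ R :=
    (ss_diff χ ε z Λ N (fun w => F5.Af χ u w) (dAw u)).sub (by fun_prop)
  have hd : HasDerivAt R (Sg χ ε z Λ N (fun n => -F5.A1 χ u n) - P * (2 * J₁)) 0 := by
    refine (ss_der χ ε z Λ N (fun w => F5.Af χ u w) _ 0 (af_der χ u)).sub ?_
    refine HasDerivAt.const_mul _ ?_
    have h1 : HasDerivAt (fun w : ℂ => 2 * w * J₁) (2 * J₁) 0 := by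
      simpa using ((hasDerivAt_id (0 : ℂ)).const_mul 2).mul_const J₁
    have h2 : HasDerivAt (fun w : ℂ => w ^ 2 * J₂) 0 0 := by
      simpa using (hasDerivAt_pow 2 (0 : ℂ)).mul_const J₂
    exact ((h1.const_add Ia₁).add h2).congr_deriv (add_zero _)
  have hR1 : ‖Sg χ ε z Λ N (fun n => -F5.A1 χ u n) - P * (2 * J₁)‖ ≤ 2 * m * L ^ 2 * P := by
    rw [← hd.deriv]
    have h := Complex.norm_deriv_le_of_forall_mem_sphere_norm_le (c := 0) (R := 1 / (2 * L))
      (C := m * L * P) (f := R) (by positivity) dR.diffContOnCl fun w hw => hR w (by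
        rw [mem_sphere_zero_iff_norm] at hw
        rw [hw]
        field_simp
        rfl)
    refine h.trans (le_of_eq ?_)
    field_simp
  have hR0 : ‖Sg χ ε z Λ N (F5.Af χ u 0) - P * Ia₁‖ ≤ m * L * P := by
    have := hR 0 (by simp)
    simpa [R] using this
  obtain ⟨hl1, hl2⟩ := ln_bd hL
  have hJb : ‖α * J₁‖ ≤ 4 * L := by
    rw [hJ1]
    refine (norm_sub_le _ _).trans ?_
    linarith
  have key := alg α Ia₁ J₁ (LFunction χ (1 + u) - α * F) (deriv (LFunction χ) (1 + u) - F)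
    (Sg χ ε z Λ N (F5.Af χ u 0) - P * Ia₁) (Sg χ ε z Λ N (fun n => -F5.A1 χ u n) - P * (2 * J₁))
    L (F5.LN N) F P A m ρ η' hL0 hF hP0 hη'.le hρ.le (by rw [hm]; nlinarith)
    (by rw [hm]; nlinarith) ha hI hJb (hl1.trans (by have := hy.r2; linarith)) hl2 hp1 hp2 hR0 hR1
  have eG : GG χ ε z Λ N u =
      (LFunction χ (1 + u) * F5.LN N + 2 * deriv (LFunction χ) (1 + u)) *
        Sg χ ε z Λ N (F5.Af χ u 0) +
      LFunction χ (1 + u) * Sg χ ε z Λ N (fun n => -F5.A1 χ u n) := by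
    rw [← ss_lin]
    unfold GG Sg
    congr 1
    funext i
    congr 1
    funext l
    congr 2
    funext n
    ring
  have eI : Ia ε (Lx ε N) 0 = α * J₁ + Ia₁ := by rw [hJ1]; ring
  have eE : ((E0 χ z : ℝ) : ℂ) * (Vr 1 : ℝ) = (F : ℝ) * (P : ℝ) := by exact_mod_cast hFP.symm
  rw [eG, eI, eE]
  refine le_trans (le_of_eq ?_) (key.trans ?_)
  · congr 1
    ring
  · have h1 : m * (11 * A + 2) ≤ η / 2 := by rw [hm]; linarith
    have h2 : η' * (5 * A + 14) = η / 2 := by rw [hη'def]; field_simp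
    calc _ ≤ η * (F * P * L) := by
          gcongr
          linarith
      _ = _ := by rw [hFP]; ring

end Pool.Agent.MP_20b2fd_nt.H39
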