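import Pool.Agent.MP_20b2fd_nt.H38.SpecC

/-! Generic tools for mollifier sums: sums over sets of primes, Fourier averages, perturbation
of Euler products. Paper proof: /team-store/MP_20b2fd_H39_M.md -/

set_option autoImplicit false

namespace Pool.Agent.MP_20b2fd_nt.H39

open MeasureTheory Complex Finset
open Pool.Agent.MP_20b2fd_nt.H38
open Pool.Agent.MP_c5bf7b_nt.H38 (Phi Ch)
open DirichletCharacter (LFunction)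
open scoped Real

/-- a linear form over the squarefree numbers made of the primes of `S` -/
noncomputable def LF (S : Finset ℕ) (c₀ c₁ G : ℕ → ℂ) : ℂ :=
  ∑ T ∈ S.powerset, (∏ p ∈ T, c₁ p) * (∏ p ∈ S \ T, c₀ p) * G (∏ p ∈ T, p)

/-- multiplicative functions -/
def Mu (φ : ℕ → ℂ) : Prop := φ 1 = 1 ∧ ∀ m n : ℕ, m.Coprime n → φ (m * n) = φ m * φ n

/-- the local factor of a product of two linear forms -/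
noncomputable def lb (p : ℕ) (c₀ c₁ e₀ e₁ f₁ f₂ : ℂ) : ℂ :=
  c₀ * e₀ + (c₀ * e₁ + c₁ * e₀) * f₁ + c₁ * e₁ * (f₂ + p)

def BmS : Prop :=
  ∀ (S : Finset ℕ) (c₀ c₁ e₀ e₁ φ : ℕ → ℂ), (∀ p ∈ S, p.Prime) → Mu φ →
    LF S c₀ c₁ φ = ∏ p ∈ S, (c₀ p + c₁ p * φ p) ∧
    LF S c₀ c₁ (fun m => LF S e₀ e₁ fun n => Bh φ m n) =
      ∏ p ∈ S, lb p (c₀ p) (c₁ p) (e₀ p) (e₁ p) (φ p) (φ (p ^ 2))

/-- smooth with support in `[-R, R]` -/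
def Bp (f : ℝ → ℝ) (R : ℝ) : Prop :=
  0 ≤ R ∧ (∀ n : ℕ, ContDiff ℝ n f) ∧ ∀ u, R < |u| → f u = 0

/-- the average against the transform of `f` on the line of abscissa `b` -/
noncomputable def Av (f : ℝ → ℝ) (b : ℝ) (H : ℝ → ℂ) : ℂ :=
  1 / (2 * π) * ∫ ξ : ℝ, lap f (b + ξ * I) * H ξ

def AvI (f : ℝ → ℝ) (b : ℝ) (H : ℝ → ℂ) : Prop := Integrable fun ξ : ℝ => lap f (b + ξ * I) * H ξ

/-- the exponent attached to the frequency `ξ` -/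
noncomputable def ex (Λ b ξ : ℝ) : ℂ := (b + ξ * I) / Λ

def AvS : Prop :=
  ∀ (f : ℝ → ℝ) (R b : ℝ), Bp f R →
    (∀ (ι : Type) (J : Finset ι) (c : ι → ℂ) (u : ι → ℝ),
      AvI f b (fun ξ => ∑ i ∈ J, c i * exp ((b + ξ * I) * u i)) ∧
      Av f b (fun ξ => ∑ i ∈ J, c i * exp ((b + ξ * I) * u i)) = ∑ i ∈ J, c i * f (u i)) ∧
    (∀ (H H' : ℝ → ℂ) (c : ℂ), AvI f b H → AvI f b H' →
      AvI f b (fun ξ => H ξ + H' ξ) ∧ Av f b (fun ξ => H ξ + H' ξ) = Av f b H + Av f b H' ∧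
      AvI f b (fun ξ => H ξ - H' ξ) ∧ Av f b (fun ξ => H ξ - H' ξ) = Av f b H - Av f b H' ∧
      AvI f b (fun ξ => c * H ξ) ∧ Av f b (fun ξ => c * H ξ) = c * Av f b H) ∧
    (∀ c : ℂ, AvI f b (fun _ => c) ∧ Av f b (fun _ => c) = c * f 0) ∧
    ∀ A : ℕ, ∃ C : ℝ, 1 ≤ C ∧ ∀ (H : ℝ → ℂ) (ε : ℝ), (∀ ξ, ‖H ξ‖ ≤ ε * (1 + |ξ|) ^ A) →
      ‖Av f b H‖ ≤ C * ε ∧ (Continuous H → AvI f b H) ∧
      ∀ H₁ H₂ : ℝ → ℂ, AvI f b H₁ → AvI f b H₂ → (∀ ξ, H ξ = H₁ ξ - H₂ ξ) →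
        ‖Av f b H₁ - Av f b H₂‖ ≤ C * ε

/-- the average of a simple fraction -/
def JiS : Prop :=
  ∀ (f : ℝ → ℝ) (R b Λ : ℝ) (α : ℂ), Bp f R → 0 < Λ → b / Λ < α.re →
    AvI f b (fun ξ => 1 / (α - ex Λ b ξ)) ∧
    Av f b (fun ξ => 1 / (α - ex Λ b ξ)) = ∫ t in Set.Ioi (0 : ℝ), exp (-α * t) * f (t / Λ)

/-- the distance from one of the powers of the primes up to `z` -/
noncomputable def ds (z : ℝ) (ω : ℂ) : ℝ := ∑ p ∈ pz z, ‖(p : ℂ) ^ ω - 1‖ / p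

def EzS : Prop :=
  (∀ (S : Finset ℕ) (a b : ℕ → ℂ) (e : ℕ → ℝ), (∀ p ∈ S, 0 ≤ e p ∧ ‖a p - b p‖ ≤ e p * ‖b p‖) →
    ‖∏ p ∈ S, a p - ∏ p ∈ S, b p‖ ≤ (Real.exp (∑ p ∈ S, e p) - 1) * ‖∏ p ∈ S, b p‖) ∧
  ∀ (K : ℝ) (n : ℕ), 0 ≤ K → ∃ (C : ℝ) (A : ℕ), 1 ≤ C ∧ ∀ (z t : ℝ) (ω : Fin n → ℂ), 2 ≤ z →
    0 ≤ t → (∀ i, |(ω i).re| * Real.log z ≤ 1 ∧ ‖ω i‖ * Real.log z ≤ t) →
    Real.exp (K * ∑ i, ds z (ω i)) - 1 ≤ C * t * (1 + t) ^ A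

/-- the primes between `z` and `Y`, and the tail of the Euler product -/
def RoS : Prop :=
  (∃ C : ℝ, 1 ≤ C ∧ ∀ (z x Y σ : ℝ), 2 ≤ z → z ≤ x → 1 + 1 / (20 * Real.log x) ≤ σ →
    Real.exp (∑ p ∈ prs z Y, (p : ℝ) ^ (-σ)) ≤ C * (Real.log x / Real.log z)) ∧
  (∀ z Y : ℝ, 2 ≤ z → ∑ p ∈ prs z Y, 1 / (p : ℝ) ^ 2 ≤ 2 / z) ∧
  (∀ z Y : ℝ, 1 ≤ z → z ≤ Y → pz Y = pz z ∪ prs z Y ∧ Disjoint (pz z) (prs z Y)) ∧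
  ∀ σ ε : ℝ, 1 < σ → 0 < ε → ∃ Y₀ : ℝ, ∀ (Y : ℝ) (q : ℕ) [NeZero q] (χ : Ch q) (w : ℂ), Y₀ ≤ Y →
    σ ≤ w.re → ‖LFunction χ w * ez χ Y w - 1‖ ≤ ε

/-! ### rows -/

def AvOf : Prop := FlS → AvS
def JiOf : Prop := FlS → AvS → JiS
def EzOf : Prop := MerS → MsS → EzS
def RoOf : Prop := MerS → EuS → RoS

end Pool.Agent.MP_20b2fd_nt.H39
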