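import Pool.Agent.MP_20b2fd_nt.H39.SpecM
import Pool.Agent.MP_20b2fd_nt.F5.Spec
import Pool.Agent.MP_20b2fd_nt.H80.SpecT
import Pool.Agent.MP_20b2fd_nt.H80.SpecL

/-! From the sums over the mollifiers to the three moments. -/

set_option autoImplicit false

namespace Pool.Agent.MP_20b2fd_nt.H39

open MeasureTheory Complex Finset
open Pool.Agent.MP_20b2fd_nt.H38
open Pool.Agent.MP_c5bf7b_nt.H38 (Phi Ch SiegS)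
open DirichletCharacter (LFunction)
open scoped Real

/-- the arithmetic functions of the main terms are of the expected shape -/
def ApS : Prop :=
  ∀ (D : ℕ) (χ : Ch D) (u w : ℂ), AP χ w w u (F5.Af χ u w) ∧
    Mu (fun l => ∑ d ∈ l.divisors, χ d * (d : ℂ) ^ (-u)) ∧
    ∀ p : ℕ, p.Prime → ∑ d ∈ p.divisors, χ d * (d : ℂ) ^ (-u) = 1 + χ p * p ^ (-u)

def XeS : Prop :=
  ∀ (ε : ℝ) (N : ℕ), 0 < ε → ε ≤ 1 / 4 →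
    JX ε N = H20.JX ε N ∧ xX ε N = H20.xX ε N ∧ AX N = H20.AN N

/-- the data near the exceptional zero, at the scale `z = N ^ κ` -/
def LkS : Prop :=
  ∃ c C : ℝ, 0 < c ∧ c ≤ 1 ∧ 1 ≤ C ∧ ∀ C₀ θ : ℝ, 0 < C₀ → 0 < θ → ∃ κ₀ : ℝ, 0 < κ₀ ∧
    ∀ κ : ℝ, 0 < κ → κ ≤ κ₀ → ∃ N₀ : ℕ, ∀ (N D : ℕ) [NeZero D] (χ : Ch D) (β : ℝ), N₀ ≤ N →
    QC χ N κ → H80.Ze χ β C₀ N → ∃ F : ℝ, LOk χ β ((N : ℝ) ^ κ) c C F ∧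
      (N : ℝ) ^ (-θ) ≤ F * E0 χ ((N : ℝ) ^ κ) * (1 - β) ∧ 1 - β ≤ 1 ∧ 5 ≤ (N : ℝ) ^ κ ∧
      ‖LFunction χ 1‖ = (1 - β) * F ∧
      ∀ s : ℂ, ‖s‖ ≤ 4 / Real.log N → ‖LFunction χ (1 + s)‖ ≤ 2 * (4 + C₀) * F / Real.log N

noncomputable def y0 (j : ℕ) (β F E : ℝ) : ℝ := F * E * if j = 0 then 1 - β else 1

/-- the transform of the cutoff -/
noncomputable def Ia (ε Λ : ℝ) (α : ℂ) : ℂ :=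
  ∫ t in Set.Ioi (0 : ℝ), exp (-α * t) * f1 ε (t / Λ)

/-- the shape of the main term of the mixed moment -/
def JmS : Prop :=
  ∀ (ε : ℝ) (N : ℕ) (α : ℂ), 0 < ε → ε ≤ 1 / 10 → 3 ≤ N →
    -1 ≤ α.re * Real.log N → ∃ J₁ J₂ : ℂ,
      (∀ w : ℂ, JM ε N w w α = Ia ε (Lx ε N) α + 2 * w * J₁ + w ^ 2 * J₂) ∧
      α * J₁ = Ia ε (Lx ε N) 0 - Ia ε (Lx ε N) α ∧ ‖Ia ε (Lx ε N) α‖ ≤ 2 * Real.log N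

/-- the inequalities for the transform -/
def IaS : Prop :=
  ∀ (ε Λ L d : ℝ), 0 < ε → ε ≤ 1 → 0 < Λ → 2 * Λ ≤ L → 0 < d →
    Differentiable ℂ (Ia ε Λ) ∧ ∀ k : ℂ → ℂ,
      (k = fun u => 2 * L - 2 * Ia ε Λ 0 - L * (u + d) * Ia ε Λ (u + d)) →
      L * Real.exp (-(d * L / 2)) ≤ (k 0).re ∧
      L * Real.exp (-(d * L / 2)) ≤ ((1 + d * L / 2) * k 0 + d * deriv k 0).re

/-- three functions near the origin -/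
def CoS : Prop :=
  ∀ C₀ : ℝ, 0 < C₀ → ∃ η : ℝ, 0 < η ∧ ∀ (L d F E V : ℝ) (j : ℕ) (P e G k : ℂ → ℂ), 1 ≤ L → 0 < d →
    d * L ≤ C₀ → 0 < F → 0 < E → 0 < V → V ≤ 1 → j = 0 ∨ j = 1 →
    DifferentiableOn ℂ P (Metric.ball 0 (1 / L)) →
    Differentiable ℂ e → Differentiable ℂ G → Differentiable ℂ k → P 0 = d * F →
    (∀ u : ℂ, ‖u‖ * L ≤ 1 / 4 → ‖P u - F * exp (u * L / 2) * (u + d)‖ ≤ η * F / L ∧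
      ‖e u - E‖ ≤ η * V * E ∧ ‖2 * V * L * E - G u - E * V * k u‖ ≤ η * L * E * V ∧
      ‖k u‖ ≤ (7 + 2 * C₀) * L) →
    L * Real.exp (-(d * L / 2)) ≤ (k 0).re →
    L * Real.exp (-(d * L / 2)) ≤ ((1 + d * L / 2) * k 0 + d * deriv k 0).re →
    ‖iteratedDeriv j (fun u => P u * e u) 0‖ ≤ (2 + C₀) * y0 j (1 - d) F E ∧
    Real.exp (-C₀ / 2) * (V * (L / 2)) * y0 j (1 - d) F E ≤
      (2 * V * L * iteratedDeriv j (fun u => P u * e u) 0 -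
        iteratedDeriv j (fun u => P u * G u) 0).re

/-- the factor that carries the mixed moment -/
noncomputable def GG {D : ℕ} [NeZero D] (χ : Ch D) (ε z Λ : ℝ) (N : ℕ) (u : ℂ) : ℂ :=
  ∑ i ∈ JX ε N, ∑ l ∈ Icc 1 (Mz Λ), (xX ε N i : ℂ) * nu χ z Λ l *
    Bh (fun n => LFunction χ (1 + u) * (F5.LN N * F5.Af χ u 0 n - F5.A1 χ u n) +
      2 * deriv (LFunction χ) (1 + u) * F5.Af χ u 0 n) (nn i) l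

/-- the standing hypotheses of the main terms -/
structure Hy (c C C₀ ρ : ℝ) (N D : ℕ) [NeZero D] (χ : Ch D) (β z F Λ : ℝ) : Prop where
  sq : χ ^ 2 = 1
  ne : χ ≠ 1
  lo : LOk χ β z c C F
  b1 : β < 1
  b2 : (1 - β) * Real.log N ≤ C₀
  z5 : 5 ≤ z
  hD : (D : ℝ) ≤ z
  r1 : 1 ≤ ρ * z
  r2 : 1 ≤ ρ * Real.log N
  r3 : Real.log z ≤ ρ * Λ
  hΛ : Λ ≤ Real.log N

def PuS : Prop :=
  ∀ c C C₀ η : ℝ, 0 < c → 1 ≤ C → 0 < C₀ → 0 < η → ∃ ρ₀ : ℝ, 0 < ρ₀ ∧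
    ∀ (ρ : ℝ) (N D : ℕ) [NeZero D] (χ : Ch D) (β z F Λ : ℝ), 0 < ρ → ρ ≤ ρ₀ →
    Hy c C C₀ ρ N D χ β z F Λ →
    DifferentiableOn ℂ (fun u => F5.gm u * (Qc D N : ℂ) ^ u * LFunction χ (1 + u))
      (Metric.ball 0 (1 / Real.log N)) ∧
    F5.gm 0 * (Qc D N : ℂ) ^ (0 : ℂ) * LFunction χ (1 + 0) = (1 - β : ℝ) * F ∧
    ∀ u : ℂ, ‖u‖ * Real.log N ≤ 1 / 4 →
      ‖F5.gm u * (Qc D N : ℂ) ^ u * LFunction χ (1 + u) -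
        F * exp (u * Real.log N / 2) * (u + (1 - β : ℝ))‖ ≤ η * F / Real.log N ∧
      ‖LFunction χ (1 + u) - (u + (1 - β : ℝ)) * F‖ ≤ η * ‖u + (1 - β : ℝ)‖ * F ∧
      ‖deriv (LFunction χ) (1 + u) - F‖ ≤ η * F

def GgS : Prop :=
  ∀ c C C₀ ε η : ℝ, 0 < c → c ≤ 1 → 1 ≤ C → 0 < C₀ → 0 < ε → ε ≤ 1 / 10 → 0 < η →
    ∃ ρ₀ : ℝ, 0 < ρ₀ ∧ ∀ (ρ : ℝ) (N D : ℕ) [NeZero D] (χ : Ch D) (β z F Λ : ℝ), 0 < ρ → ρ ≤ ρ₀ →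
    Hy c C C₀ ρ N D χ β z F Λ → Differentiable ℂ (GG χ ε z Λ N) ∧
    ∀ u : ℂ, ‖u‖ * Real.log N ≤ 1 / 4 →
      ‖GG χ ε z Λ N u - E0 χ z * Vr 1 * (Real.log N * (u + (1 - β : ℝ)) *
        Ia ε (Lx ε N) (u + (1 - β : ℝ)) + 2 * Ia ε (Lx ε N) 0)‖ ≤
        η * Real.log N * E0 χ z * Vr 1

/-- the main terms of the first and of the mixed moment -/
def MmS : Prop :=
  ∀ c C C₀ ε : ℝ, 0 < c → c ≤ 1 → 1 ≤ C → 0 < C₀ → 0 < ε → ε ≤ 1 / 10 → ∃ ρ₀ : ℝ, 0 < ρ₀ ∧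
    ∀ (ρ : ℝ) (N D : ℕ) [NeZero D] (χ : Ch D) (β z F Λ : ℝ) (j : ℕ), 0 < ρ → ρ ≤ ρ₀ →
    Hy c C C₀ ρ N D χ β z F Λ → j = 0 ∨ j = 1 →
    ‖∑ l ∈ Icc 1 (Mz Λ), (nu χ z Λ l : ℂ) * F5.R1 χ j (Qc D N) l‖ ≤
      (2 + C₀) * y0 j β F (E0 χ z) ∧
    π * Real.exp (-C₀ / 2) * AX N * y0 j β F (E0 χ z) ≤
      (4 * π * AX N * ∑ l ∈ Icc 1 (Mz Λ), (nu χ z Λ l : ℂ) * F5.R1 χ j (Qc D N) l -
        ∑ i ∈ JX ε N, ∑ l ∈ Icc 1 (Mz Λ), (xX ε N i : ℂ) * nu χ z Λ l *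
          Bh (F5.Rn χ j (F5.LN N) (Qc D N)) (nn i) l).re

/-- the second moment of the mollified product -/
def YbS : Prop :=
  ∀ c C C₀ : ℝ, 1 ≤ C → 0 < C₀ → ∃ K θ₀ : ℝ, 1 ≤ K ∧ 0 < θ₀ ∧ ∀ θ C' : ℝ, 0 < θ → θ ≤ θ₀ →
    1 ≤ C' → ∃ N₀ : ℕ, ∀ (N D : ℕ) [NeZero D] (χ : Ch D) (c₀ β z F ρ : ℝ), N₀ ≤ N → N.Prime →
    QC χ N (θ / 2) → |c₀ + 2 * π * Real.log (2 * π)| ≤ C' * ((N : ℝ) ^ (200 * θ)) ^ (-1 / 5 : ℝ) →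
    0 < ρ → ρ ≤ 1 / 10 → Hy c C C₀ ρ N D χ β z F (θ / 2 * Real.log N) →
    ‖LFunction χ 1‖ = (1 - β) * F →
    (∀ s : ℂ, ‖s‖ ≤ 4 / Real.log N → ‖LFunction χ (1 + s)‖ ≤ 2 * (4 + C₀) * F / Real.log N) →
    (N : ℝ) ^ (-θ) ≤ y0 (jj χ N) β F (E0 χ z) →
    Bl (Icc 1 (Mz (θ / 2 * Real.log N))) id (nu χ z (θ / 2 * Real.log N))
        (TY χ θ N (TY χ θ N (ell ((N : ℝ) ^ (200 * θ)) c₀ N))) ≤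
      K * y0 (jj χ N) β F (E0 χ z) ^ 2

/-- the errors of the first and of the mixed moment -/
def ErS : Prop :=
  ∃ θ₀ : ℝ, 0 < θ₀ ∧ ∀ ε θ C' : ℝ, 0 < θ → θ ≤ θ₀ → 2000 * θ ≤ ε → ε ≤ 1 / 100 → 1 ≤ C' →
    ∃ N₀ : ℕ, ∀ (N D : ℕ) [NeZero D] (χ : Ch D) (c₀ z : ℝ), N₀ ≤ N → N.Prime →
    QC χ N (θ / 2) → |c₀ + 2 * π * Real.log (2 * π)| ≤ C' * ((N : ℝ) ^ (200 * θ)) ^ (-1 / 5 : ℝ) →
    5 ≤ z → ∀ Λ : ℝ, Λ = θ / 2 * Real.log N → (Mz Λ : ℝ) ≤ (N : ℝ) ^ θ ∧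
    ‖((∑ l ∈ Icc 1 (Mz Λ), nu χ z Λ l * TY χ θ N (fun _ => 1) l : ℝ) : ℂ) -
      ∑ l ∈ Icc 1 (Mz Λ), (nu χ z Λ l : ℂ) * F5.R1 χ (jj χ N) (Qc D N) l‖ ≤ (N : ℝ) ^ (-10 * θ) ∧
    ‖((∑ i ∈ JX ε N, ∑ l ∈ Icc 1 (Mz Λ), xX ε N i * nu χ z Λ l *
        Bh (TY χ θ N (ell ((N : ℝ) ^ (200 * θ)) c₀ N)) (nn i) l : ℝ) : ℂ) -
      ∑ i ∈ JX ε N, ∑ l ∈ Icc 1 (Mz Λ), (xX ε N i : ℂ) * nu χ z Λ l *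
        Bh (F5.Rn χ (jj χ N) (F5.LN N) (Qc D N)) (nn i) l‖ ≤ (N : ℝ) ^ (-10 * θ)

/-! ### rows -/

def LkOf : Prop := MerS → SiegS → H80.LocS → F1S → LkS
def JmOf : Prop := AvS → JiS → F1S → JmS
def IaOf : Prop := F1S → IaS
def PuOf : Prop := F5.VS → PuS
def GgOf : Prop := F5.AR0S → F1S → XyS → ApS → JmS → PuS → GgS
def MmOf : Prop := F5.VS → F5.AR0S → DlS → F1S → EyS → ApS → JmS → IaS → CoS → PuS → GgS → MmS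
def YbOf : Prop := F5.FFS → F5.BLS → F1S → YyS → YbS
def ErOf : Prop := F5.FFS → F1S → H20.XwS → XeS → ErS
def GsOf : Prop := F1S → FnS → H20.XwS → XeS → LkS → MmS → YbS → ErS → H80.GS

end Pool.Agent.MP_20b2fd_nt.H39
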