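import Pool.Agent.MP_20b2fd_nt.H39.SpecM
import Pool.Agent.MP_20b2fd_nt.H20.W1

/-! The long mollifier has the properties the final inequality needs. -/

set_option autoImplicit false

namespace Pool.Agent.MP_20b2fd_nt.H39

open Finset Filter Topology ArithmeticFunction
open Pool.Agent.MP_20b2fd_nt.H38 Pool.Agent.MP_20b2fd_nt.H20.W1A
open scoped Real

namespace XkA

variable {r : ℕ} {y : ℝ}

theorem gq_mul {a b : ℕ} (h : a * b ∈ Gq r y) :
    a ∈ Gq r y ∧ b ∈ Gq r y ∧ ((a * b).totient : ℝ) = a.totient * b.totient := by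
  obtain ⟨⟨h1, h2⟩, h3, h4⟩ := mem_gq.1 h
  have ha : 1 ≤ a := Nat.pos_of_ne_zero fun e => by simp [e] at h1
  have hb : 1 ≤ b := Nat.pos_of_ne_zero fun e => by simp [e] at h1
  refine ⟨mem_gq.2 ⟨⟨ha, (Nat.le_mul_of_pos_right _ hb).trans h2⟩, h3.of_mul_left,
      Nat.Coprime.coprime_mul_right h4⟩,
    mem_gq.2 ⟨⟨hb, (Nat.le_mul_of_pos_left _ ha).trans h2⟩, h3.of_mul_right,
      Nat.Coprime.coprime_mul_left h4⟩, ?_⟩
  rw [Nat.totient_mul (Nat.coprime_of_squarefree_mul h3), Nat.cast_mul]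

theorem tau_sum : ∑ j ∈ Gq r y, tau j / j.totient ≤
    (∑ k ∈ Gq r y, (1 : ℝ) / k.totient) ^ 2 := by
  classical
  rw [sq, sum_mul_sum, ← sum_product']
  refine le_trans (sum_le_sum fun j hj => ?_)
    (sum_fiberwise_le_sum_of_sum_fiber_nonneg (g := fun x : ℕ × ℕ => x.1 * x.2) (t := Gq r y)
      fun _ _ => sum_nonneg fun _ _ => by positivity)
  have e : tau j / j.totient = ∑ x ∈ j.divisorsAntidiagonal,
      (1 : ℝ) / x.1.totient * (1 / x.2.totient) := by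
    rw [sum_congr rfl (g := fun _ => (1 : ℝ) / j.totient) fun x hx => by
      have h := (Nat.mem_divisorsAntidiagonal.1 hx).1
      rw [← h] at hj ⊢
      rw [(gq_mul hj).2.2, div_mul_div_comm, mul_one], sum_const, nsmul_eq_mul, tau,
      ← Nat.map_div_right_divisors, card_map, mul_one_div]
  rw [e]
  refine sum_le_sum_of_subset_of_nonneg (fun x hx => ?_) fun _ _ _ => by positivity
  have h := (Nat.mem_divisorsAntidiagonal.1 hx).1
  rw [← h] at hj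
  exact mem_filter.2 ⟨mem_product.2 ⟨(gq_mul hj).1, (gq_mul hj).2.1⟩, h⟩

theorem abs_xw {w : ℕ → ℝ} (hw : ∀ k, 0 ≤ w k ∧ w k ≤ ws r y k) (K : ℕ) :
    ∑ m ∈ Icc 1 K, |xw K w m| ≤ (∑ k ∈ Gq r y, (1 : ℝ) / k.totient) ^ 3 := by
  classical
  have t0 : ∀ k, 0 ≤ tau k := fun k => Nat.cast_nonneg _
  have h1 : ∀ m ∈ Icc 1 K, |xw K w m| ≤ ∑ j ∈ Icc 1 K,
      (if m ∈ Gq r y then (1 : ℝ) / m.totient else 0) *
        if j ∈ Gq r y then tau j / j.totient else 0 := fun m hm => by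
    refine (abs_sum_le_sum_abs _ _).trans (sum_le_sum fun j hj => ?_)
    have m0 : (0 : ℝ) < m := by exact_mod_cast (mem_Icc.1 hm).1
    have j0 : (0 : ℝ) < j := by exact_mod_cast (mem_Icc.1 hj).1
    have h2 : |(moebius m : ℝ)| ≤ 1 := by exact_mod_cast abs_moebius_le_one
    obtain ⟨h4, h5⟩ := hw (m * j)
    have h6 := t0 j
    rw [abs_div, abs_mul, abs_mul, abs_of_nonneg h6, abs_of_nonneg h4, abs_of_pos (mul_pos m0 j0)]
    refine le_trans (b := 1 * tau j * ws r y (m * j) / (m * j)) (by gcongr) ?_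
    by_cases g : m * j ∈ Gq r y
    · obtain ⟨g1, g2, g3⟩ := gq_mul g
      rw [ws, if_pos g, if_pos g1, if_pos g2, g3, Nat.cast_mul]
      refine le_of_eq ?_
      field_simp
    · rw [ws, if_neg g, mul_zero, zero_div]
      positivity
  refine (sum_le_sum h1).trans ?_
  rw [← sum_mul_sum, pow_succ']
  exact mul_le_mul (Mq0A.ite_le _ _ _ fun _ => by positivity)
    ((Mq0A.ite_le _ _ (fun j => tau j / j.totient) fun j => by
      have := t0 j
      positivity).trans tau_sum)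
    (sum_nonneg fun j _ => by
      have := t0 j
      positivity) (sum_nonneg fun _ _ => by positivity)

theorem up {ε : ℝ} {N : ℕ} (F : F1S) (e0 : 0 < ε) (e1 : ε ≤ 1 / 10) (hN : 2 ≤ N) (k : ℕ) :
    0 ≤ wx ε N k ∧ wx ε N k ≤ ws 30 ((N : ℝ) ^ (1 / 2 - 2 * ε)) k ∧
      ws 30 ((N : ℝ) ^ ((1 / 2 - 2 * ε) * (1 - ε))) k ≤ wx ε N k := by
  classical
  have n1 : (1 : ℝ) < N := by exact_mod_cast hN
  have N0 : (0 : ℝ) < N := by linarith
  have L0 : 0 < Lx ε N := mul_pos (by linarith) (Real.log_pos n1)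
  obtain ⟨h0, h1, h2, h3⟩ := (F.1 ε e0 (by linarith)).2 (Real.log k / Lx ε N)
  unfold wx wh
  beta_reduce
  split_ifs with h
  · have k1 : 1 ≤ k := Nat.pos_of_ne_zero h.1.ne_zero
    have k0 : (0 : ℝ) < k := by exact_mod_cast k1
    have q0 : (0 : ℝ) ≤ (k : ℝ) / k.totient := by positivity
    refine ⟨mul_nonneg q0 h0, ?_, ?_⟩
    · by_cases g : k ∈ Gq 30 ((N : ℝ) ^ (1 / 2 - 2 * ε))
      · rw [ws, if_pos g]
        exact mul_le_of_le_one_right q0 h1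
      · rw [ws, if_neg g, h3, mul_zero]
        have g1 : (N : ℝ) ^ (1 / 2 - 2 * ε) ≤ k := by
          by_contra g2
          exact g (mem_gq.2 ⟨⟨k1, Nat.le_floor (not_le.1 g2).le⟩, h⟩)
        have g3 := Real.log_le_log (by positivity) g1
        rw [Real.log_rpow N0] at g3
        exact (one_le_div L0).2 g3
    · by_cases g : k ∈ Gq 30 ((N : ℝ) ^ ((1 / 2 - 2 * ε) * (1 - ε)))
      · have g1 := Real.log_le_log k0
          ((Nat.le_floor_iff (by positivity)).1 (mem_gq.1 g).1.2)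
        rw [Real.log_rpow N0] at g1
        rw [ws, if_pos g, h2, mul_one]
        · exact le_trans (by norm_num) (div_nonneg (Real.log_natCast_nonneg k) L0.le)
        · rw [div_le_iff₀ L0, Lx]
          linarith
      · rw [ws, if_neg g]
        exact mul_nonneg q0 h0
  · refine ⟨le_rfl, (ws_ok _ _ _).1, le_of_eq ?_⟩
    rw [ws, if_neg fun g => h (mem_gq.1 g).2]

end XkA

open XkA in
theorem xkOf : XkOf := by
  classical
  intro Me Dl M1 Cf M2 F η E hη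
  obtain ⟨δ, d0, d1, d2⟩ : ∃ δ : ℝ, 0 < δ ∧ δ ≤ 1 ∧ δ ≤ η :=
    ⟨min 1 η, by positivity, min_le_left _ _, min_le_right _ _⟩
  refine ⟨δ / 10, by positivity, fun ε e0 eδ => ?_⟩
  have e10 : ε ≤ 1 / 10 := by linarith
  obtain ⟨e1, e2, e3, e4, e5, e6⟩ := Dl.2 1 le_rfl
  obtain ⟨C₂, c2, M2⟩ := M2 30 (by omega)
  obtain ⟨D, D1, Me, -⟩ := Me
  rw [Nat.cast_one, one_mul] at e2
  rw [Nat.cast_one, mul_one] at e4
  have V0 : 0 < Vr 1 := lt_of_lt_of_le (by positivity) e4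
  obtain ⟨T, hT⟩ : ∃ T : ℕ, 1 / (δ / 4000) ≤ T := ⟨_, Nat.le_ceil _⟩
  obtain ⟨N₀, h0⟩ := eventually_atTop.1
    ((eventually_ge_atTop 2).and <| (XnA.ev 30 e0).and <| (evl (∑ j ∈ J0 1, |Dj 1 j|)).and <|
    (evl 30).and <| (evl (C₂ / (Vr 1 * (38 / 100 * δ)))).and <|
    (evl ((T + 1) / (δ / 4000))).and <| (evl ((C₂ + 2 * D) / (Vr 1 * (38 / 100 * δ)))).and <|
    evl (2 * (|Bl (J0 1) id (Dj 1) fun m => tau m * Real.log m| + E * 1) /
      (1 * Vr 1 ^ 2 * (δ / 100))))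
  refine ⟨N₀, fun N hN => ?_⟩
  obtain ⟨f1, f2, f3, f4, f5, f6, f7, f8⟩ := h0 N hN
  have n1 : (1 : ℝ) ≤ N := by exact_mod_cast (by omega : 1 ≤ N)
  have N0 : (0 : ℝ) < N := by linarith
  have hw := up F e0 e10 f1
  unfold AX XOk JX xX Kx
  obtain ⟨w, hwe⟩ : ∃ w, w = wx ε N := ⟨_, rfl⟩
  obtain ⟨y, hy⟩ : ∃ y, y = (N : ℝ) ^ (1 / 2 - 2 * ε) := ⟨_, rfl⟩
  obtain ⟨z, hz⟩ : ∃ z, z = (N : ℝ) ^ ((1 / 2 - 2 * ε) * (1 - ε)) := ⟨_, rfl⟩
  obtain ⟨l, hl⟩ : ∃ l, l = Real.log N / 2 := ⟨_, rfl⟩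
  rw [← hwe, ← hy, ← hz] at hw
  rw [← hwe, ← hy, ← hl]
  rw [← hl] at f3 f4 f5 f6 f7 f8
  rw [div_le_iff₀ (by positivity)] at f5 f6 f7 f8
  have hl2 : Real.log N = 2 * l := by rw [hl]; ring
  have y1 : 1 ≤ y := hy ▸ Real.one_le_rpow n1 (by linarith)
  have z1 : 1 ≤ z := hz ▸ Real.one_le_rpow n1 (mul_nonneg (by linarith) (by linarith))
  have zy : z ≤ y := by
    rw [hz, hy]
    exact Real.rpow_le_rpow_of_exponent_le n1 (mul_le_of_le_one_right (by linarith) (by linarith))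
  have ly : Real.log y = l * (1 - 4 * ε) := by rw [hy, Real.log_rpow N0, hl]; ring
  have lz : Real.log z = l * ((1 - 4 * ε) * (1 - ε)) := by rw [hz, Real.log_rpow N0, hl]; ring
  have l0 : 0 ≤ l := by linarith
  have ly0 := Real.log_nonneg y1
  have ly1 : Real.log y ≤ l := by
    rw [ly]
    exact mul_le_of_le_one_right l0 (by linarith only [e0])
  obtain ⟨g1, g2⟩ := M2 y y1
  obtain ⟨g3, -⟩ := M2 z z1
  obtain ⟨G, hG⟩ : ∃ G, G = ∑ k ∈ Gq 30 y, (1 : ℝ) / k.totient := ⟨_, rfl⟩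
  change |_ - Vr 1 * _| ≤ _ at g1 g3
  change _ ≤ Vr 1 * _ / 2 + _ at g2
  rw [← hG, abs_le] at g1
  rw [← s1, abs_le] at g3
  have G0 : 0 ≤ G := hG ▸ sum_nonneg fun _ _ => by positivity
  have G1 : G ≤ Vr 1 * l * (1 + 38 / 100 * δ) := by
    linarith only [mul_le_mul_of_nonneg_left ly1 V0.le, g1.2, f5]
  have G2 : G ≤ 2 * (Vr 1 * l) := G1.trans (by
    rw [mul_comm 2]
    gcongr
    linarith)
  have wn : ∀ k, w k ≠ 0 → k ∈ Gq 30 y := fun k h =>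
    ws_ne fun e => h (le_antisymm (e ▸ (hw k).2.1) (hw k).1)
  have cop : ∀ m, xw ⌊y⌋₊ w m ≠ 0 → m.Coprime 30 := fun m h => by
    obtain ⟨j, -, hj⟩ := exists_ne_zero_of_sum_ne_zero h
    have : w (m * j) ≠ 0 := fun e => hj (by simp [e])
    exact Nat.Coprime.coprime_mul_right (mem_gq.1 (wn _ this)).2.2
  obtain ⟨m1, m2, m3⟩ := M1 ⌊y⌋₊ w fun k h => ⟨(mem_gq.1 (wn k h)).2.1, (mem_gq.1 (wn k h)).1.2⟩
  obtain ⟨k1, k2, k3, k4⟩ := Cf (J0 1) (Icc 1 ⌊y⌋₊) (Dj 1) (xw ⌊y⌋₊ w)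
    (fun i hi => (e6 i hi).1) (fun j hj => (mem_Icc.1 hj).1)
    fun i hi j _ h => (e6 i hi).2.2 j (cop j h)
  replace k4 := k4 1 fun j _ _ => Nat.coprime_one_left j
  rw [e3, m1, Nat.cast_one, one_mul] at k4
  rw [e1, zero_mul] at k1
  have sg : sig 1 = 1 := by simp [sig]
  simp only [Nat.gcd_one_left, sg, mul_one] at k4
  have hn : ∀ i ∈ J0 1 ×ˢ Icc 1 ⌊y⌋₊, 1 ≤ nn i ∧ (nn i : ℝ) ≤ (N : ℝ) ^ (1 / 2 - ε) := fun i hi => by
    obtain ⟨i1, i2⟩ := mem_product.1 hi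
    obtain ⟨j1, j2, -⟩ := e6 _ i1
    obtain ⟨j3, j4⟩ := mem_Icc.1 i2
    refine ⟨Nat.mul_pos j1 j3, ?_⟩
    have j5 : (i.1 : ℝ) ≤ (N : ℝ) ^ ε := le_trans (by exact_mod_cast j2) f2.le
    have j6 : (i.2 : ℝ) ≤ y := (Nat.le_floor_iff (by linarith)).1 j4
    rw [nn, Nat.cast_mul, show 1 / 2 - ε = ε + (1 / 2 - 2 * ε) by ring, Real.rpow_add N0, ← hy]
    gcongr
  have sq2 : ∀ u : ℕ → ℝ, (∀ k, 0 ≤ u k) →
      ∑ k ∈ Icc 1 ⌊y⌋₊, k.totient * w k ^ 2 / (k : ℝ) ^ 2 * u k ≤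
        ∑ k ∈ Gq 30 y, (1 : ℝ) / k.totient * u k := fun u hu => by
    rw [← s2]
    refine sum_le_sum fun k _ => ?_
    have := hu k
    have := (hw k).1
    gcongr
    exact (hw k).2.1
  refine ⟨by nlinarith only [e4, f4], by nlinarith only [e5, l0, hl2], hn, k1, ?_, ?_, fun a c a0 a1 hc => ?_⟩
  · rw [sum_product]
    simp only [abs_mul]
    rw [← sum_mul_sum, hl2]
    have b1 := abs_xw (r := 30) (y := y) (fun k => ⟨(hw k).1, (hw k).2.1⟩) ⌊y⌋₊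
    rw [← hG] at b1
    have b2 : G ≤ 2 * l := by nlinarith only [G2, e5, l0]
    calc _ ≤ (2 * l) * (2 * l) ^ 3 := by
          refine mul_le_mul (by linarith) (b1.trans (by gcongr)) ?_ (by linarith)
          exact sum_nonneg fun _ _ => abs_nonneg _
      _ = (2 * l) ^ 4 := by ring
      _ ≤ _ := pow_le_pow_right₀ (by linarith) (by norm_num)
  · rw [k4, abs_le]
    have b1 : ∑ k ∈ Icc 1 ⌊y⌋₊, w k / k ≤ G := by
      rw [hG, ← s1]
      refine sum_le_sum fun k _ => ?_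
      gcongr
      exact (hw k).2.1
    have b2 : ∑ k ∈ Icc 1 ⌊z⌋₊, ws 30 z k / k ≤ ∑ k ∈ Icc 1 ⌊y⌋₊, w k / k := by
      refine le_trans (sum_le_sum fun k _ => ?_) (sum_le_sum_of_subset_of_nonneg
        (Icc_subset_Icc_right (Nat.floor_mono zy)) fun k _ _ => div_nonneg (hw k).1 (by positivity))
      gcongr
      exact (hw k).2.2
    have b3 : 0 ≤ Vr 1 * l := by positivity
    have b4 : δ * (Vr 1 * l) ≤ η * (Vr 1 * l) := by gcongr
    have b5 : (1 - δ / 2) * (Vr 1 * l) ≤ (1 - 4 * ε) * (1 - ε) * (Vr 1 * l) :=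
      mul_le_mul_of_nonneg_right (by nlinarith only [eδ, e0]) b3
    have b6 : 0 ≤ δ * (Vr 1 * l) := by positivity
    rw [lz] at g3
    constructor
    · linarith only [b2, b4, b5, b6, g3.1, f5]
    · linarith only [b1, b4, b6, G1]
  have ps : ∀ k : ℕ, 0 ≤ ∑ p ∈ k.primeFactors, Real.log p / ((p : ℝ) - 1) := fun k =>
    sum_nonneg fun p hp => div_nonneg (Real.log_natCast_nonneg p) (by
      have : (1 : ℝ) ≤ p := by exact_mod_cast (Nat.prime_of_mem_primeFactors hp).one_le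
      linarith)
  have q := Mo2A.bl_lin _ nn (fun i => Dj 1 i.1 * xw ⌊y⌋₊ w i.2) (fun i hi => (hn i hi).1)
    (show 1 ≤ N by omega) a c fun _ => 0
  have z0 : Bl (J0 1 ×ˢ Icc 1 ⌊y⌋₊) nn (fun i => Dj 1 i.1 * xw ⌊y⌋₊ w i.2) (fun _ => 0) = 0 := by
    simp [Bl, Bh]
  simp only [mul_zero, add_zero, z0] at q
  rw [q, k2, k3, e2, m2, m3, hl2]
  have qT := sq2 (fun _ => 1) fun _ => zero_le_one
  simp only [mul_one] at qT
  rw [← hG] at qT
  have qA : ∑ k ∈ Gq 30 y, (1 : ℝ) / k.totient *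
      ∑ p ∈ k.primeFactors, Real.log p / ((p : ℝ) - 1) ≤ Vr 1 * l ^ 2 * (δ / 1000) := by
    calc _ ≤ ∑ k ∈ Gq 30 y, (1 : ℝ) / k.totient * (l * (δ / 2000)) := by
          refine sum_le_sum fun k hk => mul_le_mul_of_nonneg_left ?_ (by positivity)
          obtain ⟨⟨h1, h2⟩, -⟩ := mem_gq.1 hk
          have b1 := mul_le_mul_of_nonneg_left ((Real.log_le_log (by exact_mod_cast h1)
            ((Nat.le_floor_iff (zero_le_one.trans y1)).1 h2 : (k : ℝ) ≤ y)).trans ly1) d0.le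
          have b2 := Mq0A.psum k T (δ / 4000) h1 (by positivity) hT
          linarith only [b1, b2, f6]
      _ = G * (l * (δ / 2000)) := by rw [hG, sum_mul]
      _ ≤ 2 * (Vr 1 * l) * (l * (δ / 2000)) := by gcongr
      _ = _ := by ring
  have qB0 : ∑ k ∈ Icc 1 ⌊y⌋₊, k.totient * w k / (k : ℝ) ^ 2 *
        ∑ p ∈ pz (⌊y⌋₊ : ℕ), Real.log p / p * w (k * p) ≤
      ∑ k ∈ Icc 1 ⌊y⌋₊, k.totient * ws 30 y k / (k : ℝ) ^ 2 *
        ∑ p ∈ pz (⌊y⌋₊ : ℕ), Real.log p / p * ws 30 y (k * p) := by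
    refine sum_le_sum fun k _ => ?_
    have lp : ∀ p : ℕ, 0 ≤ Real.log p / p := fun p =>
      div_nonneg (Real.log_natCast_nonneg p) (Nat.cast_nonneg p)
    have := (ws_ok 30 y k).1
    refine mul_le_mul (by gcongr; exact (hw k).2.1)
      (sum_le_sum fun p _ => mul_le_mul_of_nonneg_left (hw _).2.1 (lp p))
      (sum_nonneg fun p _ => mul_nonneg (lp p) (hw _).1) (by positivity)
  have qB := (s3 (r := 30) (D := D) y1 fun x hx => by
    have := (abs_le.1 (Me 1 x le_rfl hx).2).2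
    rw [div_one] at this
    linarith).trans (add_le_add g2 (le_of_eq (by rw [← hG])))
  have qB' : Vr 1 * Real.log y ^ 2 / 2 + C₂ * Real.log y + D * G ≤
      Vr 1 * l ^ 2 * (1 / 2 + 38 / 100 * δ) := by
    have b1 : Vr 1 * Real.log y ^ 2 / 2 ≤ Vr 1 * l ^ 2 / 2 := by gcongr
    have b2 : C₂ * Real.log y ≤ C₂ * l := by gcongr
    have b3 : D * G ≤ D * (2 * (1 * l)) := by
      refine mul_le_mul_of_nonneg_left (G2.trans ?_) (by linarith)
      gcongr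
    linarith only [mul_le_mul_of_nonneg_right f7 l0, b1, b2, b3]
  have key := Mo2A.num (c := c) (a := 1) (D := Bl (J0 1) id (Dj 1) fun m => tau m * Real.log m)
    d0 d1 a0 a1 (by linarith [Real.pi_gt_three]) zero_le_one
    V0.le e5 l0 (sum_nonneg fun k _ => by positivity) (qT.trans G1) ((sq2 _ ps).trans qA)
    (qB0.trans (qB.trans qB')) (by linarith only [f8, hc])
  simp only [one_mul] at key
  refine key.trans ?_
  have b : 0 ≤ π * (Vr 1 * l) ^ 2 := by positivity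
  linarith only [mul_le_mul_of_nonneg_left d2 b, mul_nonneg b d0.le]

end Pool.Agent.MP_20b2fd_nt.H39
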